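import Pool.Agent.helper71.FG.Far50

/-!
# The far field for `20 ≤ e ≤ 50` from a later index
-/

namespace Pool.Agent.helper71.FG

open Complex ComplexConjugate Pool.Agent.helper31.EQ.Y Pool.Agent.helper31.EQ.R
open Pool.Agent.helper12.EQL Pool.Agent.helper12.RP Pool.Agent.helper12.FF Pool.Agent.helper63.FF

/-- the radius at the start -/
theorem R0x_le {κ x0 : ℝ} (hκ : 0 < κ) (hx : 39 / 10 ≤ x0) :
    Real.exp (-(2 * κ * (x0 + 1))) ≤ Real.exp (-(2 * κ * (49 / 10))) := by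
  apply Real.exp_le_exp.2
  nlinarith

/-- **Far field data**, `20 ≤ e ≤ 50`, from the index `x0`. -/
noncomputable def far50x {e κ x0 : ℝ} (h20 : 20 ≤ e) (h50 : e ≤ 50) (hκ : 0 < κ)
    (hk : Pool.Agent.helper12.RS.kfun e κ < 4 ^ (1 / e) - 1) (hx : 39 / 10 ≤ x0) :
    FarN e κ (1 - Real.sinh κ / 1024) :=
  have hm : 1 < Real.exp κ := Real.one_lt_exp_iff.2 hκ
  have hA : 0 < Ag e κ := Ag_pos (by linarith) hκ
  have hK : 0 < Real.sinh κ := Real.sinh_pos_iff.2 hκ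
  have hR1 : Real.exp (2 * κ) * Real.exp (-(2 * κ * (49 / 10))) < 1 := by
    rw [← Real.exp_add, Real.exp_lt_one_iff]
    linarith
  have hR2 : Real.exp (2 * κ) * Real.exp (-(2 * κ * (x0 + 1))) < 1 :=
    (mul_le_mul_of_nonneg_left (R0x_le hκ hx) (Real.exp_pos _).le).trans_lt hR1
  farN_ofR (w := (1 + (2 * (3 * 5⁻¹)) * (Real.exp κ - 1))⁻¹) (B := 2 * Ag e κ * Real.sinh κ ^ 2)
    (R0 := Real.exp (-(2 * κ * (x0 + 1)))) (E := RE e κ) hκ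
    (inv_pos.2 (by linarith)) (inv_lt_one_of_one_lt₀ (by linarith)) (by positivity)
    (Real.exp_pos _) hR2 (RE_open e κ _) (RE_conj e κ _)
    (fun R hR hR0 τ hτ => farPt50 h20 h50 hκ hk
      ⟨by norm_num, hR, hR0.trans (R0x_le hκ hx),
        (mul_le_mul_of_nonneg_left hR0 (Real.exp_pos _).le).trans_lt hR2,
        hτ.1, rfl, hτ.2⟩)

theorem far50x_Ω {e κ x0 : ℝ} (h20 : 20 ≤ e) (h50 : e ≤ 50) (hκ : 0 < κ)
    (hk : Pool.Agent.helper12.RS.kfun e κ < 4 ^ (1 / e) - 1) (hx : 39 / 10 ≤ x0) :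
    (far50x h20 h50 hκ hk hx).Ω 0 = OmR κ (Real.exp (-(2 * κ * (x0 + 1))))
      (RE e κ (Real.exp (-(2 * κ * (x0 + 1))))) := by
  change OmR κ (_ ^ 0 * _) (RE e κ (_ ^ 0 * _)) = _
  rw [pow_zero, one_mul]

theorem far50x_X {e κ x0 : ℝ} (h20 : 20 ≤ e) (h50 : e ≤ 50) (hκ : 0 < κ)
    (hk : Pool.Agent.helper12.RS.kfun e κ < 4 ^ (1 / e) - 1) (hx : 39 / 10 ≤ x0) :
    (far50x h20 h50 hκ hk hx).X 0 = Xr κ (2 * Ag e κ * Real.sinh κ ^ 2)
      (Real.exp (-(2 * κ * (x0 + 1)))) := by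
  change Xr κ _ (_ ^ 0 * _) = _
  rw [pow_zero, one_mul]

end Pool.Agent.helper71.FG
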