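import Pool.Agent.helper71.FG.Fin
import Pool.Agent.helper71.FF.Dom

/-!
# Far field programs for large `e`: the region
-/

namespace Pool.Agent.helper71.FG

open Complex ComplexConjugate Pool.Agent.helper31.EQ.Y Pool.Agent.helper31.EQ.R
open Pool.Agent.helper12.EQL Pool.Agent.helper12.RP Pool.Agent.helper12.FF Pool.Agent.helper63.FF
open Pool.Agent.helper71.FF (B1 B2 B3 Geo)

variable {κ : ℝ}

/-- the constant of the region -/
noncomputable def C2f (e κ : ℝ) : ℝ := (e * Real.sinh κ) * (e * Real.sinh κ) * (13 / 10) + 25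

/-- the region -/
def RE (e κ R : ℝ) : Set ℂ := {τ : ℂ | e ^ 2 * Real.sinh κ ^ 2 * ‖τ ^ 2 - 1‖ <
  C2f e κ * (1 - 2 * Real.sinh κ * (R / (1 - R)))}

theorem RE_open (e κ R : ℝ) : IsOpen (RE e κ R) := by
  unfold RE
  exact isOpen_lt (by fun_prop) (by fun_prop)

theorem RE_conj (e κ R : ℝ) : ∀ τ ∈ RE e κ R, conj τ ∈ RE e κ R := by
  intro τ h
  unfold RE at *
  simp only [Set.mem_ofPred_eq] at *
  have e1 : conj τ ^ 2 - 1 = conj (τ ^ 2 - 1) := by rw [map_sub, map_pow, map_one]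
  rw [e1, norm_conj]
  exact h

/-- what is known of the point -/
structure PtE (bw e κ : ℝ) (τ : ℂ) (R w : ℝ) : Prop where
  bw0 : 0 < bw
  R0 : 0 < R
  R1 : R ≤ Real.exp (-(2 * κ * (49 / 10)))
  R2 : Real.exp (2 * κ) * R < 1
  τ0 : ‖τ - 1‖ < Real.exp (2 * κ) * R * ‖τ + 1‖
  w : w = (1 + (2 * bw) * (Real.exp κ - 1))⁻¹
  re : τ ∈ RE e κ R

/-- `|τ² - 1| = |s² - 1| |Q_τ|²` -/
theorem shf_sq {τ : ℂ} (hκ : 0 < κ) (hτ : 0 < τ.re) :
    ‖(shf κ τ) ^ 2 - 1‖ = ‖τ ^ 2 - 1‖ * ‖(Real.cosh κ : ℂ) - (Real.sinh κ : ℂ) * shf κ τ‖ ^ 2 := by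
  have hQ := Qk_ne hκ hτ
  have h1 := Qk_shf hκ hτ
  have hK : (Real.sinh κ : ℂ) ≠ 0 := by
    have : Real.sinh κ ≠ 0 := (Real.sinh_pos_iff.2 hκ).ne'
    exact_mod_cast this
  have h0 : Qk κ (shf κ τ) = (Real.cosh κ : ℂ) + (Real.sinh κ : ℂ) * shf κ τ := rfl
  have h2 : (Real.cosh κ : ℂ) - (Real.sinh κ : ℂ) * shf κ τ = (Qk κ τ)⁻¹ := by
    rw [h0] at h1
    linear_combination -h1
  have hcs : (Real.cosh κ : ℂ) ^ 2 = (Real.sinh κ : ℂ) ^ 2 + 1 := by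
    have := Real.cosh_sq κ
    exact_mod_cast this
  have h3 : (shf κ τ) ^ 2 - 1 = (τ ^ 2 - 1) * ((Qk κ τ)⁻¹) ^ 2 := by
    have h4 : (Real.sinh κ : ℂ) * shf κ τ = (Real.cosh κ : ℂ) - (Qk κ τ)⁻¹ := by
      rw [← h2]; ring
    have h5 : (Real.sinh κ : ℂ) * τ = Qk κ τ - (Real.cosh κ : ℂ) := by
      have : Qk κ τ = (Real.cosh κ : ℂ) + (Real.sinh κ : ℂ) * τ := rfl
      rw [this]; ring
    have h6 : Qk κ τ * (Qk κ τ)⁻¹ = 1 := mul_inv_cancel₀ hQ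
    apply mul_left_cancel₀ (pow_ne_zero 2 hK)
    have e1 : (Real.sinh κ : ℂ) ^ 2 * ((shf κ τ) ^ 2 - 1) =
        ((Real.sinh κ : ℂ) * shf κ τ) ^ 2 - (Real.sinh κ : ℂ) ^ 2 := by ring
    have e2 : (Real.sinh κ : ℂ) ^ 2 * ((τ ^ 2 - 1) * ((Qk κ τ)⁻¹) ^ 2) =
        (((Real.sinh κ : ℂ) * τ) ^ 2 - (Real.sinh κ : ℂ) ^ 2) * ((Qk κ τ)⁻¹) ^ 2 := by ring
    rw [e1, e2, h4, h5]
    linear_combination (1 - (Qk κ τ)⁻¹ ^ 2) * hcs - (Qk κ τ * (Qk κ τ)⁻¹ + 1) * h6 +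
      2 * (Real.cosh κ : ℂ) * (Qk κ τ)⁻¹ * h6
  rw [h3, h2, norm_mul, norm_pow]

/-- `|c0 - K s|² = 1 - R (2 c0 - t - K ω)` -/
theorem inv_sq {s : ℂ} {v : B1} (G : Geo κ s v) :
    ‖(Real.cosh κ : ℂ) - (Real.sinh κ : ℂ) * s‖ ^ 2 = 1 - v.R * (v.c0 * 2 - v.t - v.K * v.om) := by
  have h1 : ‖(Real.cosh κ : ℂ) - (Real.sinh κ : ℂ) * s‖ ^ 2 =
      Real.cosh κ ^ 2 - 2 * Real.cosh κ * (Real.sinh κ * s.re) + Real.sinh κ ^ 2 * ‖s‖ ^ 2 := by
    rw [← Complex.normSq_eq_norm_sq, ← Complex.normSq_eq_norm_sq, Complex.normSq_apply,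
      Complex.normSq_apply, sub_re, sub_im, ofReal_re, ofReal_im, re_ofReal_mul, im_ofReal_mul]
    ring
  rw [h1, G.Knorm_sq, G.re, ← G.c0]
  have h2 := G.cK
  have h3 := G.Kom
  have h4 := G.tu2R
  have h5 : v.tu2 * v.nj2 = v.K ^ 2 := by
    have : v.nj * v.tu = v.K := by
      rw [h3, v.e_tu, v.e_om]; ring
    rw [v.e_tu2, v.e_nj2, ← this]; ring
  have h6 : v.tu2 * v.f2 = v.K ^ 2 - v.K * v.om * v.R := by
    have h7 : v.K ^ 2 * v.u2 = v.K * v.om * v.R := by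
      have : v.K ^ 2 = v.K * (v.om * v.t) := by rw [← h3]; ring
      rw [this, v.e_R]; ring
    rw [v.e_f2]
    linear_combination (1 - v.u2) * h5 - h7
  linear_combination h2 - h6 + h4

/-- `e² K² |s² - 1| = e² (tu)² (1 - ω)(1 + ω)` -/
theorem Ns_eq {s : ℂ} {v : B1} (G : Geo κ s v) :
    Real.sinh κ ^ 2 * ‖s ^ 2 - 1‖ = v.tu2 * v.om1 * v.op1 := by
  have h1 : s ^ 2 - 1 = (s - 1) * (s + 1) := by ring
  rw [h1, norm_mul, v.e_tu2]
  have h2 := G.Sp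
  have h3 := G.Sm
  have e1 : Real.sinh κ ^ 2 * (‖s - 1‖ * ‖s + 1‖) =
      (Real.sinh κ * ‖s - 1‖) * (Real.sinh κ * ‖s + 1‖) := by ring
  rw [e1, h2, h3]; ring

theorem Ks_le {s : ℂ} {v : B1} (G : Geo κ s v) : Real.sinh κ * ‖s‖ ≤ v.tu := by
  have h1 := G.Knorm_sq
  have htu := G.tu0
  have hK : 0 < Real.sinh κ := Real.sinh_pos_iff.2 G.κ0
  have h2 := G.f2_0.1
  apply abs_le_of_sq_le_sq' _ htu.le |>.2
  rw [mul_pow, h1, v.e_tu2]
  nlinarith [mul_pos htu htu]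

/-- facts of the region at the point -/
structure RegF (κ : ℝ) (v : B1) (lam : ℝ) : Prop where
  l0 : 0 < lam
  l1 : lam < 1
  Ns : v.e ^ 2 * (v.tu2 * v.om1 * v.op1) <
    C2f v.e κ * (1 - lam) * (1 - v.R * (v.c0 * 2 - v.t - v.K * v.om))
  tl : v.t * v.om1 ≤ lam
  p1 : 0 < 1 - v.R * (v.c0 * 2 - v.t - v.K * v.om)

theorem lam_facts {τ : ℂ} {v : B1} (G : Geo κ (shf κ τ) v) (v2 : B2 v) {bw R w : ℝ}
    (D : PtE bw v.e κ τ R w) :
    v.t * v.om1 ≤ 2 * v.K * (R / (1 - R)) ∧ 0 < 2 * v.K * (R / (1 - R)) ∧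
      2 * v.K * (R / (1 - R)) ≤ v2.lm ∧ v.t * v.op1 ≤ 2 * v.K + 2 * v.K * (R / (1 - R)) := by
  obtain ⟨hτ0, hs⟩ := reg_s G.κ0 D.R2.le D.τ0
  have hr' : rt (shf κ τ) < R := by
    unfold rt
    rw [div_lt_iff₀ (add_one_pos G.s0)]
    exact hs
  obtain ⟨hR1, hlm⟩ := G.lm_ge v2 D.R0 D.R1
  have h1 := G.r_div hR1 hr'
  have hK := G.K0
  have hom := G.om0
  have ht := G.t0
  have hR0 := D.R0
  have h1R : 0 < 1 - R := by linarith
  have h2 := mul_le_mul_of_nonneg_left h1 (by positivity : 0 ≤ 2 * v.K)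
  have h3 : 2 * v.K * (v.om1 / (2 * v.om)) = v.t * v.om1 := by
    rw [G.Kom]; field_simp
  rw [h3] at h2
  refine ⟨h2, by positivity, hlm, ?_⟩
  have h4 : v.t * v.op1 = 2 * v.K + v.t * v.om1 := by
    rw [G.Kom, v.e_op1, v.e_om1]; ring
  linarith

theorem regF_of {τ : ℂ} {v : B1} (G : Geo κ (shf κ τ) v) (v2 : B2 v) {bw R w : ℝ}
    (D : PtE bw v.e κ τ R w) : RegF κ v (2 * v.K * (R / (1 - R))) := by
  obtain ⟨h1, h2, h3, h4⟩ := lam_facts G v2 D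
  obtain ⟨hτ0, hs⟩ := reg_s G.κ0 D.R2.le D.τ0
  have h5 := D.re
  unfold RE at h5
  simp only [Set.mem_ofPred_eq] at h5
  have h6 := shf_sq G.κ0 hτ0
  rw [inv_sq G] at h6
  have h7 := Ns_eq G
  have hp : 0 < 1 - v.R * (v.c0 * 2 - v.t - v.K * v.om) := by
    rw [← inv_sq G]
    have hQ := Qk_ne G.κ0 hτ0
    have h8 := Qk_shf G.κ0 hτ0
    have h0 : Qk κ (shf κ τ) = (Real.cosh κ : ℂ) + (Real.sinh κ : ℂ) * shf κ τ := rfl
    have h9 : (Real.cosh κ : ℂ) - (Real.sinh κ : ℂ) * shf κ τ = (Qk κ τ)⁻¹ := by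
      rw [h0] at h8
      linear_combination -h8
    rw [h9]
    have : 0 < ‖(Qk κ τ)⁻¹‖ := norm_pos_iff.2 (inv_ne_zero hQ)
    positivity
  have hC : 0 < C2f v.e κ := by
    unfold C2f
    have := mul_self_nonneg (v.e * Real.sinh κ)
    linarith
  rw [← G.K] at h5
  refine ⟨h2, ?_, ?_, h1, hp⟩
  · by_contra hc
    push Not at hc
    have h11 : C2f v.e κ * (1 - 2 * v.K * (R / (1 - R))) ≤ 0 :=
      mul_nonpos_of_nonneg_of_nonpos hC.le (by linarith)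
    have h12 : 0 ≤ v.e ^ 2 * v.K ^ 2 * ‖τ ^ 2 - 1‖ := by positivity
    linarith
  · rw [← h7, h6, ← G.K]
    have h10 := mul_lt_mul_of_pos_right h5 hp
    refine lt_of_eq_of_lt ?_ h10
    ring

/-- **The region is kept.** -/
theorem reg_keep {τ : ℂ} {v : B1} (G : Geo κ (shf κ τ) v) {v2 : B2 v}
    {bw A Qb Q1 lsi phu Ei Eh : ℝ} (m : Mb bw v2 A Qb Q1 lsi phu Ei Eh) {R w : ℝ}
    (D : PtE bw v.e κ τ R w) (hka : 0 ≤ m.ka) (hlfk : 0 ≤ m.lfk) (hlsi : 0 ≤ lsi)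
    (hphu : 0 ≤ phu) (hNN : 1 ≤ m.NN) (heN : 0 ≤ m.eN)
    (aRg : 0 < m.Rg) (aRh : 0 < m.Rh) {η : ℝ} (hη0 : 0 ≤ η) (hηe : η ≤ m.eta)
    (hηV : η ≤ m.NN * (v.tu2 * v.om1 * m.src + v.tu * m.fx *
      (2 * A * Real.sinh κ ^ 2 * R / (1 - R) * ‖shf κ τ + 1‖))) :
    ∀ τ' : ℂ, Real.sinh κ * ‖τ' - shf κ τ‖ ≤ η → τ' ∈ RE v.e κ (w * R) := by
  intro τ' hτ'
  obtain ⟨h1, h2, h3, h4⟩ := lam_facts G v2 D
  obtain ⟨-, r1, r2, -, -⟩ := regF_of G v2 D
  obtain ⟨lam, hlam⟩ : ∃ l, l = 2 * v.K * (R / (1 - R)) := ⟨_, rfl⟩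
  rw [← hlam] at h1 h2 h3 h4 r1 r2
  have he := G.e0
  have hK := G.K0
  have hKs : 0 < Real.sinh κ := by rw [← G.K]; exact hK
  have ht := G.t0
  have hu := G.u0
  have htu := G.tu0
  have hop := G.op0
  have hom1 := G.om1_0
  have haQ := G.aQ0
  have hR := G.R0
  have hbw := D.bw0
  have hh := G.h0
  obtain ⟨hR1, -⟩ := G.lm_ge v2 D.R0 D.R1
  have hR0 := D.R0
  have h1R : 0 < 1 - R := by linarith
  have hei : v.e * v.ei = 1 := by rw [v.e_ei, mul_inv_cancel₀ he.ne']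
  have hei0 : 0 < v.ei := by rw [v.e_ei]; positivity
  -- C2
  have hC2 : m.C2 = C2f v.e κ := by
    unfold C2f
    rw [m.e_C2, v2.e_eK, G.K]; ring
  have hC20 : 0 < m.C2 := by
    rw [hC2]; unfold C2f
    have := mul_self_nonneg (v.e * Real.sinh κ)
    linarith
  rw [← hC2] at r2
  have hGt : v.c0 * 2 - v.t - v.K * v.om = m.Gt := by rw [m.e_Gt]; ring
  rw [hGt] at r2
  have hom1' : v.om1 = 1 - v.om := v.e_om1
  -- lam'
  obtain ⟨a, ha⟩ : ∃ a, a = (2 * bw) * (v.K * (v.h + 1)) := ⟨_, rfl⟩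
  have hDk : Real.exp κ - 1 = v.K * (v.h + 1) := by
    rw [← G.m_eq]
    have := G.cKh
    rw [v.e_m]; linarith
  have ha0 : 0 < a := by rw [ha]; positivity
  have hw : w = (1 + a)⁻¹ := by rw [D.w, hDk, ha]
  have hwa : w * (1 + a) = 1 := by rw [hw, inv_mul_cancel₀ (by positivity)]
  have hw0 : 0 < w := by rw [hw]; positivity
  have hwR : 0 < 1 - w * R := by
    have : w * R < 1 := by nlinarith
    linarith
  obtain ⟨lam', hlam'⟩ : ∃ l, l = 2 * v.K * (w * R / (1 - w * R)) := ⟨_, rfl⟩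
  -- (1 - R + a) lam' = 2 K R
  have hl1 : lam' * (1 - R + a) = lam * (1 - R) := by
    rw [hlam, hlam']
    have e1 : 1 - R + a = (1 - w * R) * (1 + a) := by linear_combination R * hwa
    rw [e1]
    field_simp
    linear_combination hwa
  have hx1 : 2 * v.K + lam = 2 * v.K / (1 - R) := by
    rw [hlam]; field_simp; ring
  obtain ⟨x, hx⟩ : ∃ x, x = bw * (v.h + 1) * (2 * v.K + lam) := ⟨_, rfl⟩
  have hxa : x * (1 - R) = a := by rw [hx, hx1, ha]; field_simp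
  have hx0 : 0 < x := by rw [hx]; positivity
  have hl2 : lam' * (1 + x) = lam := by
    have : lam' * (1 + x) * (1 - R) = lam * (1 - R) := by
      rw [← hl1, ← hxa]; ring
    exact mul_right_cancel₀ h1R.ne' this
  -- gr
  have hgr : m.gr * (1 + v.t * m.b1) = m.b1 := by
    have hb0 : 0 < m.b1 := by rw [m.e_b1, m.e_beta]; positivity
    rw [m.e_gr]
    have : 1 + v.t * m.b1 ≠ 0 := by positivity
    field_simp
  have hb1 : m.b1 = (v.h + 1) * v.op1 * bw := by rw [m.e_b1, m.e_beta]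
  have hb10 : 0 < m.b1 := by rw [hb1]; positivity
  have hxb : v.t * m.b1 ≤ x := by
    rw [hx, hb1]
    have := mul_le_mul_of_nonneg_left h4 (by positivity : 0 ≤ bw * (v.h + 1))
    linarith
  have hgain : lam * v.t * m.gr ≤ lam - lam' := by
    -- lam - lam' = lam x/(1+x) ; t gr = t b1/(1 + t b1)
    have hp1 : 0 < 1 + v.t * m.b1 := by positivity
    have hp2 : 0 < 1 + x := by linarith
    have e1 : v.t * m.gr = 1 - (1 + v.t * m.b1)⁻¹ := by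
      have : (1 + v.t * m.b1)⁻¹ * (1 + v.t * m.b1) = 1 := inv_mul_cancel₀ hp1.ne'
      apply mul_right_cancel₀ hp1.ne'
      linear_combination v.t * hgr - (-1 : ℝ) * this
    have e2 : lam' = lam * (1 + x)⁻¹ := by
      rw [eq_mul_inv_iff_mul_eq₀ hp2.ne']; exact hl2
    have e3 : (1 + x)⁻¹ ≤ (1 + v.t * m.b1)⁻¹ := inv_anti₀ hp1 (by linarith)
    have e4 := mul_le_mul_of_nonneg_left e3 h2.le
    rw [mul_assoc, e1, e2]
    linarith
  -- the point τ'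
  have hgoal : v.e ^ 2 * Real.sinh κ ^ 2 * ‖τ' ^ 2 - 1‖ < m.C2 * (1 - lam') := by
    obtain ⟨s, hs⟩ : ∃ s, s = shf κ τ := ⟨_, rfl⟩
    have hNs := Ns_eq G
    have hKsl := Ks_le G
    rw [← hs] at hNs hKsl hτ'
    have hd : τ' ^ 2 - 1 = (s ^ 2 - 1) + (τ' - s) * ((τ' - s) + 2 * s) := by ring
    have hn : ‖τ' ^ 2 - 1‖ ≤ ‖s ^ 2 - 1‖ + ‖τ' - s‖ * (‖τ' - s‖ + 2 * ‖s‖) := by
      rw [hd]
      refine (norm_add_le _ _).trans ?_
      rw [norm_mul]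
      have : ‖(τ' - s) + 2 * s‖ ≤ ‖τ' - s‖ + 2 * ‖s‖ := by
        refine (norm_add_le _ _).trans ?_
        rw [norm_mul, Complex.norm_ofNat]
      have := mul_le_mul_of_nonneg_left this (norm_nonneg (τ' - s))
      linarith
    have hK2 : Real.sinh κ ^ 2 * (‖τ' - s‖ * (‖τ' - s‖ + 2 * ‖s‖)) ≤ η * (η + 2 * v.tu) := by
      have e1 : Real.sinh κ ^ 2 * (‖τ' - s‖ * (‖τ' - s‖ + 2 * ‖s‖)) =
          (Real.sinh κ * ‖τ' - s‖) * (Real.sinh κ * ‖τ' - s‖ + 2 * (Real.sinh κ * ‖s‖)) := by ring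
      rw [e1]
      apply mul_le_mul hτ' (by linarith) (by positivity) hη0
    have hN' : v.e ^ 2 * Real.sinh κ ^ 2 * ‖τ' ^ 2 - 1‖ ≤
        v.e ^ 2 * (v.tu2 * v.om1 * v.op1) + v.e ^ 2 * (η * (η + 2 * v.tu)) := by
      have e2 := mul_le_mul_of_nonneg_left hn (by positivity : 0 ≤ Real.sinh κ ^ 2)
      rw [mul_add, hNs] at e2
      have e3 := mul_le_mul_of_nonneg_left (e2.trans (add_le_add le_rfl hK2)) (sq_nonneg v.e)
      linarith
    refine lt_of_le_of_lt hN' ?_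
    -- split of η
    obtain ⟨sb, hsb⟩ : ∃ z, z = v.ei * (m.ka * lsi + m.lfk * phu) := ⟨_, rfl⟩
    have hsb0 : 0 ≤ sb := by rw [hsb]; positivity
    have hsrc : m.src = v.om1 * m.bte + sb := by rw [m.e_src, hsb]; ring
    have hX : 2 * A * Real.sinh κ ^ 2 * R / (1 - R) * ‖shf κ τ + 1‖ = A * lam * (v.tu * v.op1) := by
      rw [← G.Sp, hlam, ← G.K]; ring
    rw [hX, hsrc] at hηV
    have htu2 : 0 < v.tu2 := by rw [v.e_tu2]; positivity
    have hη1 : η ≤ m.NN * (v.tu2 * v.om1 * v.om1 * m.bte) +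
        m.NN * (v.tu2 * (v.om1 * sb + A * m.fx * lam * v.op1)) := by
      refine hηV.trans (le_of_eq ?_)
      rw [v.e_tu2]; ring
    have hbte0 : 0 ≤ m.bte := by
      rw [m.e_bte]
      have := G.bsum0 v2
      positivity
    -- factor η + 2 tu
    have hf1 : η + 2 * v.tu ≤ m.eta + 2 * v.tu := by linarith
    have heta : m.eta = v.tu2 * m.eN := m.e_eta
    have heta0 : 0 ≤ m.eta := hη0.trans hηe
    have hf0 : 0 ≤ η + 2 * v.tu := by positivity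
    have hmain : η * (η + 2 * v.tu) ≤ (m.NN * (v.tu2 * v.om1 * v.om1 * m.bte) +
        m.NN * (v.tu2 * (v.om1 * sb + A * m.fx * lam * v.op1))) * (m.eta + 2 * v.tu) := by
      apply mul_le_mul hη1 hf1 hf0
      have := hη0.trans hη1
      exact this
    obtain ⟨br, hbr⟩ : ∃ b, b = m.NN * (1 + (1 / 2) * (v.tu * m.eN)) *
          (v.t * v.om1 * v2.bsum * (v.op1 * v.aQ)⁻¹) := ⟨_, rfl⟩
    have hRh : m.Rh = m.Gt - br := by
      rw [m.e_Rh, hbr]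
    have hbr0 : 0 ≤ br := by
      rw [hbr]
      have hb := G.bsum0 v2
      positivity
    have hGt0 : 0 < m.Gt := by linarith
    -- part 1
    have p1 : v.e ^ 2 * (m.NN * (v.tu2 * v.om1 * v.om1 * m.bte) * (m.eta + 2 * v.tu)) ≤
        m.C2 * (1 - lam) * v.R * br := by
      rw [hbr]
      -- = N(s) R [...]
      have hl0 : 0 < 1 - lam := by linarith
      have hNs2 : v.e ^ 2 * (v.tu2 * v.om1 * v.op1) ≤ m.C2 * (1 - lam) := by
        refine r2.le.trans ?_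
        have : 0 ≤ v.R * m.Gt := by positivity
        have h0 : 0 ≤ m.C2 * (1 - lam) := by positivity
        have := mul_nonneg h0 this
        linarith
      have hb := G.bsum0 v2
      have h9 : 0 ≤ v.R * (m.NN * (1 + (1 / 2) * (v.tu * m.eN)) *
          (v.t * v.om1 * v2.bsum * (v.op1 * v.aQ)⁻¹)) := by positivity
      have h10 := mul_le_mul_of_nonneg_right hNs2 h9
      refine le_trans (le_of_eq ?_) (h10.trans (le_of_eq ?_))
      · rw [heta, m.e_bte, G.tu2R]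
        have hR' : v.R = v.t * (v.u * v.u) := by rw [v.e_R, v.e_u2]
        have hop' : v.op1 * v.op1⁻¹ = 1 := mul_inv_cancel₀ hop.ne'
        rw [mul_inv, v.e_tu, hR']
        field_simp
        ring
      · ring
    -- part 2
    have p2 : v.e ^ 2 * (m.NN * (v.tu2 * (v.om1 * sb + A * m.fx * lam * v.op1)) *
        (m.eta + 2 * v.tu)) ≤ lam * v.t * (m.NN * (v.tu * 2 + m.eta) *
          (v.e * v.e * (v.u2 * sb + v.t * v.u2 * (v.op1 * A * m.fx)))) := by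
      have h11 : v.om1 * sb * v.t ≤ lam * sb := by
        have := mul_le_mul_of_nonneg_right h1 hsb0
        linarith
      have htu2' : v.tu2 = v.t * v.t * v.u2 := by rw [v.e_tu2, v.e_tu, v.e_u2]; ring
      have hu2 : 0 < v.u2 := by rw [v.e_u2]; positivity
      rw [htu2']
      have h12 : v.e ^ 2 * (m.NN * (v.t * v.t * v.u2 * (v.om1 * sb + A * m.fx * lam * v.op1)) *
          (m.eta + 2 * v.tu)) = (v.e ^ 2 * m.NN * v.t * v.u2 * (m.eta + 2 * v.tu)) *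
          (v.om1 * sb * v.t + v.t * (A * m.fx * lam * v.op1)) := by ring
      have h13 : lam * v.t * (m.NN * (v.tu * 2 + m.eta) *
          (v.e * v.e * (v.u2 * sb + v.t * v.u2 * (v.op1 * A * m.fx)))) =
          (v.e ^ 2 * m.NN * v.t * v.u2 * (m.eta + 2 * v.tu)) *
          (lam * sb + v.t * (A * m.fx * lam * v.op1)) := by ring
      rw [h12, h13]
      apply mul_le_mul_of_nonneg_left _ (by positivity)
      linarith
    -- the linear function of lam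
    have hRg0 : m.Rg0 = m.C2 * m.gr - m.NN * (v.tu * 2 + m.eta) *
        (v.e * v.e * (v.u2 * sb + v.t * v.u2 * (v.op1 * A * m.fx))) := by
      rw [m.e_Rg0, m.e_ez, ← hsb, v.e_R]; ring
    have hlm0 := G.lm0 v2
    have hu2 : 0 < v.u2 := by rw [v.e_u2]; positivity
    have hf0 : 0 < m.C2 * (v.u2 * m.Rh) := by positivity
    have hf1 : 0 < v2.lm * m.Rg0 + m.C2 * ((1 - v2.lm) * (v.u2 * m.Rh)) := by
      rw [← m.e_Rg]; exact aRg
    have hfl : 0 < lam * m.Rg0 + m.C2 * ((1 - lam) * (v.u2 * m.Rh)) := by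
      have e1 : v2.lm * (lam * m.Rg0 + m.C2 * ((1 - lam) * (v.u2 * m.Rh))) =
          (v2.lm - lam) * (m.C2 * (v.u2 * m.Rh)) +
          lam * (v2.lm * m.Rg0 + m.C2 * ((1 - v2.lm) * (v.u2 * m.Rh))) := by ring
      have e2 : 0 < v2.lm * (lam * m.Rg0 + m.C2 * ((1 - lam) * (v.u2 * m.Rh))) := by
        rw [e1]
        have h21 := mul_pos h2 hf1
        have h22 : 0 ≤ (v2.lm - lam) * (m.C2 * (v.u2 * m.Rh)) :=
          mul_nonneg (by linarith) hf0.le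
        linarith
      exact (mul_pos_iff_of_pos_left hlm0).1 e2
    have hft := mul_pos ht hfl
    have hRu : v.R = v.t * v.u2 := v.e_R
    have q3 := mul_le_mul_of_nonneg_left hgain hC20.le
    rw [hRh, hRg0] at hft
    rw [hRu] at p1 r2
    have h20 := mul_le_mul_of_nonneg_left hmain (sq_nonneg v.e)
    linarith
  unfold RE
  simp only [Set.mem_ofPred_eq]
  rw [← hC2, ← G.K, ← hlam', G.K]
  exact hgoal

end Pool.Agent.helper71.FG
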