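import Pool.Agent.helper71.FG.Crt.Cov50

/-!
# The far field for `20 ≤ e ≤ 50`
-/

namespace Pool.Agent.helper71.FG

open Complex ComplexConjugate Pool.Agent.helper31.EQ.Y Pool.Agent.helper31.EQ.R
open Pool.Agent.helper12.EQL Pool.Agent.helper12.RP Pool.Agent.helper12.FF Pool.Agent.helper63.FF
open Pool.Agent.helper71.FF (B1 B2 Geo exB1 exB2 geo_of sa su AL A5 PtD)

variable {κ : ℝ} {τ : ℂ} {R w : ℝ} {v : B1}

/-- the constant of the radii -/
noncomputable def Ag (e κ : ℝ) : ℝ :=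
  if e * κ ≤ 1 / 2 then e / 5 else 2 * e / (4 + e * Real.sinh κ)

theorem Ag_pos {e κ : ℝ} (he : 0 < e) (hκ : 0 < κ) : 0 < Ag e κ := by
  have hK : 0 < Real.sinh κ := Real.sinh_pos_iff.2 hκ
  unfold Ag
  split_ifs <;> positivity

/-- **The conditions per point**, `20 ≤ e ≤ 50`. -/
theorem farPt50 {e κ : ℝ} (h20 : 20 ≤ e) (h100 : e ≤ 50) (hκ : 0 < κ)
    (hk : Pool.Agent.helper12.RS.kfun e κ < 4 ^ (1 / e) - 1) {τ : ℂ} {R w : ℝ}
    (D : PtE (3 * 5⁻¹) e κ τ R w) :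
    FarPt e κ (1 - Real.sinh κ / 1024) w (2 * Ag e κ * Real.sinh κ ^ 2) R (RE e κ (w * R)) τ := by
  obtain ⟨hτ0, -⟩ := reg_s hκ D.R2.le D.τ0
  have hs0 := shf_re hκ hτ0.le
  obtain ⟨v, ve, vt, vu, vn⟩ := exB1 e (Real.sinh κ * sa (shf κ τ) / su (shf κ τ))
    (su (shf κ τ)) ((1 - Real.tanh (κ / 2) ^ 2) / sa (shf κ τ))
  have G : Geo κ (shf κ τ) v := geo_of hκ hs0 v (by rw [ve]; linarith) vt vu vn
  obtain ⟨v2⟩ := exB2 v
  have he20 : 20 ≤ v.e := by rw [ve]; exact h20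
  have he100 : v.e ≤ 50 := by rw [ve]; exact h100
  have ht := G.t0
  have hu := G.u0
  have hu1 := G.u1
  have hn := G.n0
  have hn1 : v.n ≤ 1 := by
    have h1 := G.nj1
    have h2 := G.jjm
    have h3 : v.nj = v.n * v.j := v.e_nj
    have h4 : v.n = v.nj * v.jm := by rw [h3]; linear_combination (-v.n) * h2
    have h5 : v.jm ≤ 1 := by rw [v.e_jm]; nlinarith [G.h0]
    rw [h4]
    have := G.jm0
    have := G.nj0
    nlinarith
  have hk' : Pool.Agent.helper12.RS.kfun v.e κ < 4 ^ (1 / v.e) - 1 := by rw [ve]; exact hk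
  have D' : PtE (3 * 5⁻¹) v.e κ τ R w := by rw [ve]; exact D
  rw [← ve]
  by_cases hs : e * κ ≤ 1 / 2
  · have hA : Ag v.e κ = A5 v.e v.K := by
      unfold Ag A5
      rw [if_pos (by rw [ve]; exact hs)]
    rw [hA]
    obtain ⟨-, heK⟩ := G.eK_le (by linarith : 4 ≤ v.e) (by rw [ve]; exact hs)
    have hh : v.h ≤ 1 / 80 := by
      have h1 := G.h_le
      have h2 : κ ≤ 1 / 40 := by nlinarith
      linarith
    have ht1 := G.t_crude v2 D'.toD (by norm_num) hh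
    norm_num at ht1
    exact ptX D' G (by linarith) hk' heK
      (covX he20 he100 ht.le (by linarith) hu.le hu1 hn.le hn1)
  · push Not at hs
    have hA : Ag v.e κ = AL v.e v.K := by
      unfold Ag AL
      rw [if_neg (by rw [ve]; exact not_le.2 hs), G.K]
    rw [hA]
    have heK := G.eK_gt (by rw [ve]; exact hs)
    have hh := h_crude h20 hκ hk
    rw [← G.h] at hh
    have ht1 := G.t_crude v2 D'.toD (by norm_num) hh
    norm_num at ht1
    exact ptL D' G (by linarith) hk' heK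
      (covL he20 he100 ht.le (by linarith) hu.le hu1 hn.le hn1)

/-- **Far field data**, `20 ≤ e ≤ 50`. -/
noncomputable def far50 {e κ : ℝ} (h20 : 20 ≤ e) (h100 : e ≤ 50) (hκ : 0 < κ)
    (hk : Pool.Agent.helper12.RS.kfun e κ < 4 ^ (1 / e) - 1) :
    FarN e κ (1 - Real.sinh κ / 1024) :=
  have hm : 1 < Real.exp κ := Real.one_lt_exp_iff.2 hκ
  have hA : 0 < Ag e κ := Ag_pos (by linarith) hκ
  have hK : 0 < Real.sinh κ := Real.sinh_pos_iff.2 hκ
  have hR1 : Real.exp (2 * κ) * Real.exp (-(2 * κ * (49 / 10))) < 1 := by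
    rw [← Real.exp_add, Real.exp_lt_one_iff]
    linarith
  farN_ofR (w := (1 + (2 * (3 * 5⁻¹)) * (Real.exp κ - 1))⁻¹) (B := 2 * Ag e κ * Real.sinh κ ^ 2)
    (R0 := Real.exp (-(2 * κ * (49 / 10)))) (E := RE e κ) hκ
    (inv_pos.2 (by linarith)) (inv_lt_one_of_one_lt₀ (by linarith)) (by positivity)
    (Real.exp_pos _) hR1 (RE_open e κ _) (RE_conj e κ _)
    (fun R hR hR0 τ hτ => farPt50 h20 h100 hκ hk
      ⟨by norm_num, hR, hR0, (mul_le_mul_of_nonneg_left hR0 (Real.exp_pos _).le).trans_lt hR1,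
        hτ.1, rfl, hτ.2⟩)

end Pool.Agent.helper71.FG
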