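import Pool.Agent.helper71.FG.Hat
import Pool.Agent.helper71.FF.Crude

/-!
# Far field programs for large `e`: identities for the application theorems
-/

namespace Pool.Agent.helper71.FG

open Complex ComplexConjugate Pool.Agent.helper31.EQ.Y Pool.Agent.helper31.EQ.R
open Pool.Agent.helper12.EQL Pool.Agent.helper12.RP Pool.Agent.helper12.FF Pool.Agent.helper63.FF
open Pool.Agent.helper71.FF (B1 B2 B3 Geo)

variable {κ : ℝ} {s : ℂ} {v : B1}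

/-- the constant for `e ≥ 100` -/
noncomputable def AQ (e K : ℝ) : ℝ := e / (4 + e * K)

theorem ab_Q (G : Geo κ s v) (v2 : B2 v) {A iA : ℝ}
    (hA : A = (1 / 8) * (v.e * ((1 / 8) * v2.eK + (1 / 2))⁻¹))
    (hi : iA = (v2.eK + 4) * v.ei) : 0 < A ∧ A * iA = 1 ∧ AQ v.e v.K = A := by
  have he := G.e0
  have hK := G.K0
  have e1 : v2.eK = v.e * v.K := v2.e_eK
  have pk : 0 < v2.eK := by rw [e1]; positivity
  have hei : v.ei = v.e⁻¹ := v.e_ei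
  refine ⟨by rw [hA]; positivity, ?_, ?_⟩
  · rw [hA, hi, hei]; field_simp; ring
  · unfold AQ
    rw [hA, e1]
    have : 4 + v.e * v.K ≠ 0 := by positivity
    have : (1 / 8) * (v.e * v.K) + (1 / 2) ≠ 0 := by positivity
    field_simp
    ring

theorem ls_F (G : Geo κ s v) {v2 : B2 v} {cc : ℝ} {b : GC v.q cc v.h1} {bw A Q1 g ga phu Ei Eh : ℝ}
    (ms : Ms v b g ga) (m : Mb bw v2 A ms.Qb Q1 ms.lsi phu Ei Eh) :
    m.ls = ms.hg * ms.lsf := by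
  have h2 : v.u⁻¹ * v.u = 1 := inv_mul_cancel₀ G.u0.ne'
  rw [m.e_ls, ms.e_lsi, ms.e_hg, v.e_h1, v.e_tu]
  linear_combination (v.t * v.om1 * v.h1t * ga * ms.lsf) * h2

theorem lsi_H (G : Geo κ s v) {cc : ℝ} {b : GC v.q cc v.h1} {hb : HC v b} (ms : Ms v b hb.g hb.ga) :
    ms.lsi = v.h1t * v.tu * hb.gR * ms.lsf := by
  have h1 := hb.e_ga
  have h2 : v.u⁻¹ * v.u = 1 := inv_mul_cancel₀ G.u0.ne'
  rw [ms.e_lsi, v.e_tu]
  rw [v.e_R, v.e_u2] at h1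
  linear_combination (v.h1t * v.u⁻¹ * ms.lsf) * h1 + (v.h1t * v.t * v.u * hb.gR * ms.lsf) * h2

theorem ls_H (G : Geo κ s v) {v2 : B2 v} {cc : ℝ} {b : GC v.q cc v.h1} {hb : HC v b} {bw A phu Ei Eh : ℝ}
    (ms : Ms v b hb.g hb.ga) (m : Mb bw v2 A ms.Qb ms.Q1 ms.lsi phu Ei Eh) :
    m.ls = v.tu * (v.om1 * v.h1t * v.tu * hb.gR * ms.lsf) := by
  have h1 := lsi_H G ms
  rw [m.e_ls]
  linear_combination (v.tu * v.om1) * h1

theorem c1_C {v2 : B2 v} {bw A Qb Q1 lsi phu Ei Eh : ℝ}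
    {m : Mb bw v2 A Qb Q1 lsi phu Ei Eh} {gap iA nq rpv : ℝ} (c : CC m gap iA)
    (f : FinS m nq rpv c.fbt c.FX) :
    f.c1 = f.Qp * f.Lam * v.m * (1 + v.tu * m.eN * v.op1⁻¹) * c.q0 := by
  rw [f.e_c1, c.e_q0]

theorem x_alt (v : B1) : v.x = v.w * v.tu * (v.w * v.tu) * ((1 - v.u2) * (1 - v.nj2)) := by
  rw [v.e_x, v.e_tu2]; ring

end Pool.Agent.helper71.FG
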