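import Pool.Agent.helper71.FG.Gc

/-!
# Far field programs for large `e`: named values
-/

namespace Pool.Agent.helper71.FG

open Pool.Agent.helper71.FF (B1 B2 B3)

/-- the modulus of `f`, the first displacement -/
structure Ms (v : B1) {cc : ℝ} (b : GC v.q cc v.h1) (g ga : ℝ) where
  fa : ℝ
  hg : ℝ
  lsf : ℝ
  Qb : ℝ
  Q1 : ℝ
  lsi : ℝ
  e_fa : fa = (b.qh * g + (1 / 2)) * b.P1 * b.o2⁻¹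
  e_hg : hg = v.h1 * ga
  e_lsf : lsf = (1 - (1 / 2) * hg) * (1 - hg)⁻¹
  e_Qb : Qb = v.q * (hg + 1)
  e_Q1 : Q1 = Qb + 1
  e_lsi : lsi = v.h1t * v.u⁻¹ * ga * lsf

/-- displacement of the next position -/
structure Mb (bw : ℝ) {v : B1} (v2 : B2 v) (A Qb Q1 lsi phu Ei Eh : ℝ) where
  Xe : ℝ
  XM : ℝ
  iX : ℝ
  QX : ℝ
  iQX : ℝ
  N1 : ℝ
  s : ℝ
  k0 : ℝ
  ls : ℝ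
  a0 : ℝ
  l1 : ℝ
  Na : ℝ
  Nb : ℝ
  rn : ℝ
  ka : ℝ
  kb : ℝ
  lfk : ℝ
  bte : ℝ
  src : ℝ
  fx : ℝ
  eps : ℝ
  NN : ℝ
  eN : ℝ
  d : ℝ
  eta : ℝ
  rl : ℝ
  irl : ℝ
  yy : ℝ
  XLt : ℝ
  beta : ℝ
  m1 : ℝ
  V : ℝ
  C2 : ℝ
  b1 : ℝ
  gr : ℝ
  Gt : ℝ
  ez : ℝ
  Rg0 : ℝ
  Rh : ℝ
  Rg : ℝ
  e_Xe : Xe = A * v.op1 * v2.lm
  e_XM : XM = v.tu * Xe
  e_iX : iX = (1 - XM)⁻¹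
  e_QX : QX = Qb * XM
  e_iQX : iQX = (1 - QX)⁻¹
  e_N1 : N1 = 1 - v.f2 - 2 * (v.h * v.om) + v.h * v.nj * (v.h * v.nj)
  e_s : s = (1 / 2) * (N1 + 1)
  e_k0 : k0 = s * (v.j - (1 / 2) * v.R + (1 / 8) * (v.tu2 * (1 - v.f2) * v.jm))
  e_ls : ls = v.tu * v.om1 * lsi
  e_a0 : a0 = (ls + XM * (Q1 * iX + Qb * iQX)) * v.ei
  e_l1 : l1 = (ls + Q1 * XM * iX) * v.ei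
  e_Na : Na = 1 + l1 * ((1 / 2) + (13 / 64) * l1)
  e_Nb : Nb = 1 + a0 * (1 + (13 / 16) * a0)
  e_rn : rn = v2.rh * v2.nih * Ei * Nb
  e_ka : ka = k0 * Na + rn * (v.aQ + (1 / 2))
  e_kb : kb = rn * (v.aQ + 1)
  e_lfk : lfk = Eh * (v.aQ + 1) * v2.nih * v2.hm
  e_bte : bte = (1 / 2) * (v.tu * v2.bsum * v.aQ⁻¹)
  e_src : src = v.om1 * bte + (ka * lsi + lfk * phu) * v.ei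
  e_fx : fx = (ka * Q1 * iX + kb * Qb * iQX) * v.ei
  e_eps : eps = v.om1 * src + Xe * fx
  e_NN : NN = (1 - v.tu2 * eps * v.aQ⁻¹)⁻¹
  e_eN : eN = eps * NN
  e_d : d = v.t * eN
  e_eta : eta = v.tu2 * eN
  e_rl : rl = v.rhat * (1 - eta * v.aQ⁻¹) - d
  e_irl : irl = rl⁻¹
  e_yy : yy = d * irl
  e_XLt : XLt = A * v.tu * v.op1 * v.om1
  e_beta : beta = bw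
  e_m1 : m1 = v.m - 1
  e_V : V = (v.h + 1) * (m1 + 2 - 2 * beta) * (m1 * (2 * beta) + 1)⁻¹ - 2 * (src + 2 * (A * fx * (v.K + (1 / 2) * v2.lm))) * NN * (v.op1 - v.tu * eN)⁻¹
  e_C2 : C2 = v2.eK * v2.eK * (13 * 10⁻¹) + 25
  e_b1 : b1 = (v.h + 1) * v.op1 * beta
  e_gr : gr = b1 * (1 + v.t * b1)⁻¹
  e_Gt : Gt = 2 * v.c0 - v.t - v.K * v.om
  e_ez : ez = v.e * (2 * v.tu + eta)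
  e_Rg0 : Rg0 = C2 * gr - NN * ez * (v.e * (v.u2 * (v.ei * (ka * lsi + lfk * phu)) + v.R * (v.op1 * A * fx)))
  e_Rh : Rh = Gt - NN * (1 + (1 / 2) * (v.tu * eN)) * (v.t * v.om1 * v2.bsum * (v.op1 * v.aQ)⁻¹)
  e_Rg : Rg = v2.lm * Rg0 + C2 * ((1 - v2.lm) * (v.u2 * Rh))

/-- closing, mode F -/
structure CF {bw : ℝ} {v : B1} {v2 : B2 v} {cc : ℝ} {b : GC v.q cc v.h1} {A g ga phu Ei Eh : ℝ}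
    (ms : Ms v b g ga) (m : Mb bw v2 A ms.Qb ms.Q1 ms.lsi phu Ei Eh) (iA : ℝ) where
  rhoR : ℝ
  od : ℝ
  lsR : ℝ
  PR : ℝ
  dP : ℝ
  Ee : ℝ
  den : ℝ
  C : ℝ
  fbt : ℝ
  sl : ℝ
  FX : ℝ
  e_rhoR : rhoR = v.ee * v.Dt * (v.D + 6) * (4 * v.D + 6)⁻¹
  e_od : od = (1 - m.d)⁻¹
  e_lsR : lsR = m.ls * v.R⁻¹
  e_PR : PR = (rhoR + lsR) * od
  e_dP : dP = PR * m.eta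
  e_Ee : Ee = 1 + dP * ((1 / 2) + (13 / 64) * dP)
  e_den : den = 1 - dP * Ee * ms.fa * ms.Qb
  e_C : C = PR * Ee * m.NN * v.ei * den⁻¹
  e_fbt : fbt = C * v.u * (m.ka * m.iX + m.kb * ms.fa * ms.Qb * m.iQX)
  e_sl : sl = m.ka * v.h1t * v.u⁻¹ * g * ms.lsf
  e_FX : FX = C * iA * v.u * v.op1⁻¹ * (v.e * ms.fa * v.om1 * m.bte + sl + ms.fa * m.lfk * phu)

/-- closing, mode C -/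
structure CC {bw : ℝ} {v : B1} {v2 : B2 v} {A Qb Q1 lsi phu Ei Eh : ℝ}
    (m : Mb bw v2 A Qb Q1 lsi phu Ei Eh) (gap iA : ℝ) where
  q0 : ℝ
  zp : ℝ
  C1 : ℝ
  rr : ℝ
  C : ℝ
  fbt : ℝ
  FX : ℝ
  e_q0 : q0 = (v.aQ - m.eta)⁻¹
  e_zp : zp = m.yy * gap
  e_C1 : C1 = v.e * q0 + gap * m.irl * v.R⁻¹ * ((1 - (1 / 2) * zp) * (1 - zp)⁻¹)
  e_rr : rr = C1 * m.eta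
  e_C : C = C1 * (1 + rr * ((1 / 2) + (13 / 64) * rr)) * m.NN * v.ei
  e_fbt : fbt = C * v.u * (m.ka * Q1 * m.iX + m.kb * Qb * m.iQX)
  e_FX : FX = C * iA * v.u * v.op1⁻¹ * (v.e * v.om1 * m.bte + m.ka * lsi + m.lfk * phu)

/-- last part, modes F and C -/
structure FinS {bw : ℝ} {v : B1} {v2 : B2 v} {A Qb Q1 lsi phu Ei Eh : ℝ}
    (m : Mb bw v2 A Qb Q1 lsi phu Ei Eh) (nq rpv fbt FX : ℝ) where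
  dri : ℝ
  Qp : ℝ
  Lam : ℝ
  c1 : ℝ
  fb : ℝ
  r : ℝ
  Bm : ℝ
  e_dri : dri = m.yy * rpv
  e_Qp : Qp = nq * (1 + dri * (1 + (5 / 8) * dri))
  e_Lam : Lam = (1 + (v.h + 1) * (v.K + v.t) * m.beta)⁻¹
  e_c1 : c1 = Qp * Lam * v.m * (1 + v.tu * m.eN * v.op1⁻¹) * (v.aQ - m.eta)⁻¹
  e_fb : fb = v.t * fbt
  e_r : r = fb * m.XM + FX * (v.t * m.XLt)
  e_Bm : Bm = 1 - (fb + FX + c1 * (1 + r))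

/-- closing, mode H -/
structure CH {bw : ℝ} {v : B1} {v2 : B2 v} (v3 : B3 v) {cc : ℝ} {b : GC v.q cc v.h1} (hb : HC v b)
    {A phu Ei Eh : ℝ}
    (ms : Ms v b hb.g hb.ga) (m : Mb bw v2 A ms.Qb ms.Q1 ms.lsi phu Ei Eh) (gap hgp iA phut : ℝ) where
  od : ℝ
  lsR : ℝ
  PR : ℝ
  dP : ℝ
  Ee : ℝ
  den : ℝ
  C : ℝ
  fbt : ℝ
  sl : ℝ
  FXt : ℝ
  zh : ℝ
  yh : ℝ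
  S1 : ℝ
  S2 : ℝ
  drt : ℝ
  dri : ℝ
  S3 : ℝ
  S4 : ℝ
  Dh : ℝ
  S5 : ℝ
  S6 : ℝ
  S7 : ℝ
  S8 : ℝ
  c1 : ℝ
  rt : ℝ
  Bm : ℝ
  e_od : od = (1 - m.d)⁻¹
  e_lsR : lsR = v.h1 * hb.gR * ms.lsf
  e_PR : PR = (hb.rhoR + lsR) * od
  e_dP : dP = PR * m.eta
  e_Ee : Ee = 1 + dP * ((1 / 2) + (13 / 64) * dP)
  e_den : den = 1 - dP * Ee * ms.fa * ms.Qb
  e_C : C = PR * Ee * m.NN * v.ei * den⁻¹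
  e_fbt : fbt = C * v.u * (m.ka * m.iX + m.kb * ms.fa * ms.Qb * m.iQX)
  e_sl : sl = m.ka * v.h1t * (v.tu * hb.G) * ms.lsf
  e_FXt : FXt = C * iA * v.u * v.op1⁻¹ * (v.e * ms.fa * v.om1 * ((1 / 2) * (v.u * v2.bsum * v.aQ⁻¹)) + m.ka * v.h1t * v.u * hb.G * ms.lsf + ms.fa * m.lfk * phut)
  e_zh : zh = v.u2 * (4 * (v.c0 * v.rhat) - v.Dt) * v.SQ⁻¹
  e_yh : yh = v.e * zh * (v.t * zh + 2)⁻¹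
  e_S1 : S1 = -(yh * (1 - (1 / 2) * (v.t * yh)))
  e_S2 : S2 = S1 + v3.hpt * gap + v.t * (S1 * (v3.hpt * gap))
  e_drt : drt = m.yy * (v.ee * zh + v3.hpt * gap * (hgp + 1))
  e_dri : dri = v.t * drt
  e_S3 : S3 = S2 + drt * (1 + (5 / 8) * dri) + v.t * (S2 * (drt * (1 + (5 / 8) * dri)))
  e_S4 : S4 = S3 + v.u * v.n * (v.h + 1) * v.j + v.t * (S3 * (v.u * v.n * (v.h + 1) * v.j))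
  e_Dh : Dh = v.u2 * v.Dt
  e_S5 : S5 = S4 + (-(Dh * ((1 / 2) - (3 / 8) * (v.t * Dh)))) + v.t * (S4 * (-(Dh * ((1 / 2) - (3 / 8) * (v.t * Dh)))))
  e_S6 : S6 = S5 + v.u * m.eN * v.op1⁻¹ + v.t * (S5 * (v.u * m.eN * v.op1⁻¹))
  e_S7 : S7 = (S6 - m.b1) * (1 + v.t * m.b1)⁻¹
  e_S8 : S8 = S7 + v.u * v.tu * m.eN * (v.aQ - m.eta)⁻¹ + v.t * (S7 * (v.u * v.tu * m.eN * (v.aQ - m.eta)⁻¹))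
  e_c1 : c1 = 1 + v.t * S8
  e_rt : rt = fbt * m.XM + FXt * (v.t * m.XLt)
  e_Bm : Bm = -(S8 + rt * c1 + fbt + FXt)

theorem exMs (v : B1) {cc : ℝ} (b : GC v.q cc v.h1) (g ga : ℝ) :
    Nonempty (Ms v b g ga) := by
  obtain ⟨fa, e_fa⟩ : ∃ zz : ℝ, zz = (b.qh * g + (1 / 2)) * b.P1 * b.o2⁻¹ := ⟨_, rfl⟩
  obtain ⟨hg, e_hg⟩ : ∃ zz : ℝ, zz = v.h1 * ga := ⟨_, rfl⟩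
  obtain ⟨lsf, e_lsf⟩ : ∃ zz : ℝ, zz = (1 - (1 / 2) * hg) * (1 - hg)⁻¹ := ⟨_, rfl⟩
  obtain ⟨Qb, e_Qb⟩ : ∃ zz : ℝ, zz = v.q * (hg + 1) := ⟨_, rfl⟩
  obtain ⟨Q1, e_Q1⟩ : ∃ zz : ℝ, zz = Qb + 1 := ⟨_, rfl⟩
  obtain ⟨lsi, e_lsi⟩ : ∃ zz : ℝ, zz = v.h1t * v.u⁻¹ * ga * lsf := ⟨_, rfl⟩
  exact ⟨⟨fa, hg, lsf, Qb, Q1, lsi, e_fa, e_hg, e_lsf, e_Qb, e_Q1, e_lsi⟩⟩

theorem exMb (bw : ℝ) {v : B1} (v2 : B2 v) (A Qb Q1 lsi phu Ei Eh : ℝ) :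
    Nonempty (Mb bw v2 A Qb Q1 lsi phu Ei Eh) := by
  obtain ⟨Xe, e_Xe⟩ : ∃ zz : ℝ, zz = A * v.op1 * v2.lm := ⟨_, rfl⟩
  obtain ⟨XM, e_XM⟩ : ∃ zz : ℝ, zz = v.tu * Xe := ⟨_, rfl⟩
  obtain ⟨iX, e_iX⟩ : ∃ zz : ℝ, zz = (1 - XM)⁻¹ := ⟨_, rfl⟩
  obtain ⟨QX, e_QX⟩ : ∃ zz : ℝ, zz = Qb * XM := ⟨_, rfl⟩
  obtain ⟨iQX, e_iQX⟩ : ∃ zz : ℝ, zz = (1 - QX)⁻¹ := ⟨_, rfl⟩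
  obtain ⟨N1, e_N1⟩ : ∃ zz : ℝ, zz = 1 - v.f2 - 2 * (v.h * v.om) + v.h * v.nj * (v.h * v.nj) := ⟨_, rfl⟩
  obtain ⟨s, e_s⟩ : ∃ zz : ℝ, zz = (1 / 2) * (N1 + 1) := ⟨_, rfl⟩
  obtain ⟨k0, e_k0⟩ : ∃ zz : ℝ, zz = s * (v.j - (1 / 2) * v.R + (1 / 8) * (v.tu2 * (1 - v.f2) * v.jm)) := ⟨_, rfl⟩
  obtain ⟨ls, e_ls⟩ : ∃ zz : ℝ, zz = v.tu * v.om1 * lsi := ⟨_, rfl⟩
  obtain ⟨a0, e_a0⟩ : ∃ zz : ℝ, zz = (ls + XM * (Q1 * iX + Qb * iQX)) * v.ei := ⟨_, rfl⟩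
  obtain ⟨l1, e_l1⟩ : ∃ zz : ℝ, zz = (ls + Q1 * XM * iX) * v.ei := ⟨_, rfl⟩
  obtain ⟨Na, e_Na⟩ : ∃ zz : ℝ, zz = 1 + l1 * ((1 / 2) + (13 / 64) * l1) := ⟨_, rfl⟩
  obtain ⟨Nb, e_Nb⟩ : ∃ zz : ℝ, zz = 1 + a0 * (1 + (13 / 16) * a0) := ⟨_, rfl⟩
  obtain ⟨rn, e_rn⟩ : ∃ zz : ℝ, zz = v2.rh * v2.nih * Ei * Nb := ⟨_, rfl⟩
  obtain ⟨ka, e_ka⟩ : ∃ zz : ℝ, zz = k0 * Na + rn * (v.aQ + (1 / 2)) := ⟨_, rfl⟩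
  obtain ⟨kb, e_kb⟩ : ∃ zz : ℝ, zz = rn * (v.aQ + 1) := ⟨_, rfl⟩
  obtain ⟨lfk, e_lfk⟩ : ∃ zz : ℝ, zz = Eh * (v.aQ + 1) * v2.nih * v2.hm := ⟨_, rfl⟩
  obtain ⟨bte, e_bte⟩ : ∃ zz : ℝ, zz = (1 / 2) * (v.tu * v2.bsum * v.aQ⁻¹) := ⟨_, rfl⟩
  obtain ⟨src, e_src⟩ : ∃ zz : ℝ, zz = v.om1 * bte + (ka * lsi + lfk * phu) * v.ei := ⟨_, rfl⟩
  obtain ⟨fx, e_fx⟩ : ∃ zz : ℝ, zz = (ka * Q1 * iX + kb * Qb * iQX) * v.ei := ⟨_, rfl⟩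
  obtain ⟨eps, e_eps⟩ : ∃ zz : ℝ, zz = v.om1 * src + Xe * fx := ⟨_, rfl⟩
  obtain ⟨NN, e_NN⟩ : ∃ zz : ℝ, zz = (1 - v.tu2 * eps * v.aQ⁻¹)⁻¹ := ⟨_, rfl⟩
  obtain ⟨eN, e_eN⟩ : ∃ zz : ℝ, zz = eps * NN := ⟨_, rfl⟩
  obtain ⟨d, e_d⟩ : ∃ zz : ℝ, zz = v.t * eN := ⟨_, rfl⟩
  obtain ⟨eta, e_eta⟩ : ∃ zz : ℝ, zz = v.tu2 * eN := ⟨_, rfl⟩
  obtain ⟨rl, e_rl⟩ : ∃ zz : ℝ, zz = v.rhat * (1 - eta * v.aQ⁻¹) - d := ⟨_, rfl⟩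
  obtain ⟨irl, e_irl⟩ : ∃ zz : ℝ, zz = rl⁻¹ := ⟨_, rfl⟩
  obtain ⟨yy, e_yy⟩ : ∃ zz : ℝ, zz = d * irl := ⟨_, rfl⟩
  obtain ⟨XLt, e_XLt⟩ : ∃ zz : ℝ, zz = A * v.tu * v.op1 * v.om1 := ⟨_, rfl⟩
  obtain ⟨beta, e_beta⟩ : ∃ zz : ℝ, zz = bw := ⟨_, rfl⟩
  obtain ⟨m1, e_m1⟩ : ∃ zz : ℝ, zz = v.m - 1 := ⟨_, rfl⟩
  obtain ⟨V, e_V⟩ : ∃ zz : ℝ, zz = (v.h + 1) * (m1 + 2 - 2 * beta) * (m1 * (2 * beta) + 1)⁻¹ - 2 * (src + 2 * (A * fx * (v.K + (1 / 2) * v2.lm))) * NN * (v.op1 - v.tu * eN)⁻¹ := ⟨_, rfl⟩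
  obtain ⟨C2, e_C2⟩ : ∃ zz : ℝ, zz = v2.eK * v2.eK * (13 * 10⁻¹) + 25 := ⟨_, rfl⟩
  obtain ⟨b1, e_b1⟩ : ∃ zz : ℝ, zz = (v.h + 1) * v.op1 * beta := ⟨_, rfl⟩
  obtain ⟨gr, e_gr⟩ : ∃ zz : ℝ, zz = b1 * (1 + v.t * b1)⁻¹ := ⟨_, rfl⟩
  obtain ⟨Gt, e_Gt⟩ : ∃ zz : ℝ, zz = 2 * v.c0 - v.t - v.K * v.om := ⟨_, rfl⟩
  obtain ⟨ez, e_ez⟩ : ∃ zz : ℝ, zz = v.e * (2 * v.tu + eta) := ⟨_, rfl⟩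
  obtain ⟨Rg0, e_Rg0⟩ : ∃ zz : ℝ, zz = C2 * gr - NN * ez * (v.e * (v.u2 * (v.ei * (ka * lsi + lfk * phu)) + v.R * (v.op1 * A * fx))) := ⟨_, rfl⟩
  obtain ⟨Rh, e_Rh⟩ : ∃ zz : ℝ, zz = Gt - NN * (1 + (1 / 2) * (v.tu * eN)) * (v.t * v.om1 * v2.bsum * (v.op1 * v.aQ)⁻¹) := ⟨_, rfl⟩
  obtain ⟨Rg, e_Rg⟩ : ∃ zz : ℝ, zz = v2.lm * Rg0 + C2 * ((1 - v2.lm) * (v.u2 * Rh)) := ⟨_, rfl⟩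
  exact ⟨⟨Xe, XM, iX, QX, iQX, N1, s, k0, ls, a0, l1, Na, Nb, rn, ka, kb, lfk, bte, src, fx, eps, NN, eN, d, eta, rl, irl, yy, XLt, beta, m1, V, C2, b1, gr, Gt, ez, Rg0, Rh, Rg, e_Xe, e_XM, e_iX, e_QX, e_iQX, e_N1, e_s, e_k0, e_ls, e_a0, e_l1, e_Na, e_Nb, e_rn, e_ka, e_kb, e_lfk, e_bte, e_src, e_fx, e_eps, e_NN, e_eN, e_d, e_eta, e_rl, e_irl, e_yy, e_XLt, e_beta, e_m1, e_V, e_C2, e_b1, e_gr, e_Gt, e_ez, e_Rg0, e_Rh, e_Rg⟩⟩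

theorem exCF {bw : ℝ} {v : B1} {v2 : B2 v} {cc : ℝ} {b : GC v.q cc v.h1} {A g ga phu Ei Eh : ℝ}
    (ms : Ms v b g ga) (m : Mb bw v2 A ms.Qb ms.Q1 ms.lsi phu Ei Eh) (iA : ℝ) :
    Nonempty (CF ms m iA) := by
  obtain ⟨rhoR, e_rhoR⟩ : ∃ zz : ℝ, zz = v.ee * v.Dt * (v.D + 6) * (4 * v.D + 6)⁻¹ := ⟨_, rfl⟩
  obtain ⟨od, e_od⟩ : ∃ zz : ℝ, zz = (1 - m.d)⁻¹ := ⟨_, rfl⟩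
  obtain ⟨lsR, e_lsR⟩ : ∃ zz : ℝ, zz = m.ls * v.R⁻¹ := ⟨_, rfl⟩
  obtain ⟨PR, e_PR⟩ : ∃ zz : ℝ, zz = (rhoR + lsR) * od := ⟨_, rfl⟩
  obtain ⟨dP, e_dP⟩ : ∃ zz : ℝ, zz = PR * m.eta := ⟨_, rfl⟩
  obtain ⟨Ee, e_Ee⟩ : ∃ zz : ℝ, zz = 1 + dP * ((1 / 2) + (13 / 64) * dP) := ⟨_, rfl⟩
  obtain ⟨den, e_den⟩ : ∃ zz : ℝ, zz = 1 - dP * Ee * ms.fa * ms.Qb := ⟨_, rfl⟩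
  obtain ⟨C, e_C⟩ : ∃ zz : ℝ, zz = PR * Ee * m.NN * v.ei * den⁻¹ := ⟨_, rfl⟩
  obtain ⟨fbt, e_fbt⟩ : ∃ zz : ℝ, zz = C * v.u * (m.ka * m.iX + m.kb * ms.fa * ms.Qb * m.iQX) := ⟨_, rfl⟩
  obtain ⟨sl, e_sl⟩ : ∃ zz : ℝ, zz = m.ka * v.h1t * v.u⁻¹ * g * ms.lsf := ⟨_, rfl⟩
  obtain ⟨FX, e_FX⟩ : ∃ zz : ℝ, zz = C * iA * v.u * v.op1⁻¹ * (v.e * ms.fa * v.om1 * m.bte + sl + ms.fa * m.lfk * phu) := ⟨_, rfl⟩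
  exact ⟨⟨rhoR, od, lsR, PR, dP, Ee, den, C, fbt, sl, FX, e_rhoR, e_od, e_lsR, e_PR, e_dP, e_Ee, e_den, e_C, e_fbt, e_sl, e_FX⟩⟩

theorem exCC {bw : ℝ} {v : B1} {v2 : B2 v} {A Qb Q1 lsi phu Ei Eh : ℝ}
    (m : Mb bw v2 A Qb Q1 lsi phu Ei Eh) (gap iA : ℝ) :
    Nonempty (CC m gap iA) := by
  obtain ⟨q0, e_q0⟩ : ∃ zz : ℝ, zz = (v.aQ - m.eta)⁻¹ := ⟨_, rfl⟩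
  obtain ⟨zp, e_zp⟩ : ∃ zz : ℝ, zz = m.yy * gap := ⟨_, rfl⟩
  obtain ⟨C1, e_C1⟩ : ∃ zz : ℝ, zz = v.e * q0 + gap * m.irl * v.R⁻¹ * ((1 - (1 / 2) * zp) * (1 - zp)⁻¹) := ⟨_, rfl⟩
  obtain ⟨rr, e_rr⟩ : ∃ zz : ℝ, zz = C1 * m.eta := ⟨_, rfl⟩
  obtain ⟨C, e_C⟩ : ∃ zz : ℝ, zz = C1 * (1 + rr * ((1 / 2) + (13 / 64) * rr)) * m.NN * v.ei := ⟨_, rfl⟩
  obtain ⟨fbt, e_fbt⟩ : ∃ zz : ℝ, zz = C * v.u * (m.ka * Q1 * m.iX + m.kb * Qb * m.iQX) := ⟨_, rfl⟩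
  obtain ⟨FX, e_FX⟩ : ∃ zz : ℝ, zz = C * iA * v.u * v.op1⁻¹ * (v.e * v.om1 * m.bte + m.ka * lsi + m.lfk * phu) := ⟨_, rfl⟩
  exact ⟨⟨q0, zp, C1, rr, C, fbt, FX, e_q0, e_zp, e_C1, e_rr, e_C, e_fbt, e_FX⟩⟩

theorem exFinS {bw : ℝ} {v : B1} {v2 : B2 v} {A Qb Q1 lsi phu Ei Eh : ℝ}
    (m : Mb bw v2 A Qb Q1 lsi phu Ei Eh) (nq rpv fbt FX : ℝ) :
    Nonempty (FinS m nq rpv fbt FX) := by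
  obtain ⟨dri, e_dri⟩ : ∃ zz : ℝ, zz = m.yy * rpv := ⟨_, rfl⟩
  obtain ⟨Qp, e_Qp⟩ : ∃ zz : ℝ, zz = nq * (1 + dri * (1 + (5 / 8) * dri)) := ⟨_, rfl⟩
  obtain ⟨Lam, e_Lam⟩ : ∃ zz : ℝ, zz = (1 + (v.h + 1) * (v.K + v.t) * m.beta)⁻¹ := ⟨_, rfl⟩
  obtain ⟨c1, e_c1⟩ : ∃ zz : ℝ, zz = Qp * Lam * v.m * (1 + v.tu * m.eN * v.op1⁻¹) * (v.aQ - m.eta)⁻¹ := ⟨_, rfl⟩
  obtain ⟨fb, e_fb⟩ : ∃ zz : ℝ, zz = v.t * fbt := ⟨_, rfl⟩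
  obtain ⟨r, e_r⟩ : ∃ zz : ℝ, zz = fb * m.XM + FX * (v.t * m.XLt) := ⟨_, rfl⟩
  obtain ⟨Bm, e_Bm⟩ : ∃ zz : ℝ, zz = 1 - (fb + FX + c1 * (1 + r)) := ⟨_, rfl⟩
  exact ⟨⟨dri, Qp, Lam, c1, fb, r, Bm, e_dri, e_Qp, e_Lam, e_c1, e_fb, e_r, e_Bm⟩⟩

theorem exCH {bw : ℝ} {v : B1} {v2 : B2 v} (v3 : B3 v) {cc : ℝ} {b : GC v.q cc v.h1} (hb : HC v b)
    {A phu Ei Eh : ℝ}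
    (ms : Ms v b hb.g hb.ga) (m : Mb bw v2 A ms.Qb ms.Q1 ms.lsi phu Ei Eh) (gap hgp iA phut : ℝ) :
    Nonempty (CH v3 hb ms m gap hgp iA phut) := by
  obtain ⟨od, e_od⟩ : ∃ zz : ℝ, zz = (1 - m.d)⁻¹ := ⟨_, rfl⟩
  obtain ⟨lsR, e_lsR⟩ : ∃ zz : ℝ, zz = v.h1 * hb.gR * ms.lsf := ⟨_, rfl⟩
  obtain ⟨PR, e_PR⟩ : ∃ zz : ℝ, zz = (hb.rhoR + lsR) * od := ⟨_, rfl⟩
  obtain ⟨dP, e_dP⟩ : ∃ zz : ℝ, zz = PR * m.eta := ⟨_, rfl⟩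
  obtain ⟨Ee, e_Ee⟩ : ∃ zz : ℝ, zz = 1 + dP * ((1 / 2) + (13 / 64) * dP) := ⟨_, rfl⟩
  obtain ⟨den, e_den⟩ : ∃ zz : ℝ, zz = 1 - dP * Ee * ms.fa * ms.Qb := ⟨_, rfl⟩
  obtain ⟨C, e_C⟩ : ∃ zz : ℝ, zz = PR * Ee * m.NN * v.ei * den⁻¹ := ⟨_, rfl⟩
  obtain ⟨fbt, e_fbt⟩ : ∃ zz : ℝ, zz = C * v.u * (m.ka * m.iX + m.kb * ms.fa * ms.Qb * m.iQX) := ⟨_, rfl⟩
  obtain ⟨sl, e_sl⟩ : ∃ zz : ℝ, zz = m.ka * v.h1t * (v.tu * hb.G) * ms.lsf := ⟨_, rfl⟩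
  obtain ⟨FXt, e_FXt⟩ : ∃ zz : ℝ, zz = C * iA * v.u * v.op1⁻¹ * (v.e * ms.fa * v.om1 * ((1 / 2) * (v.u * v2.bsum * v.aQ⁻¹)) + m.ka * v.h1t * v.u * hb.G * ms.lsf + ms.fa * m.lfk * phut) := ⟨_, rfl⟩
  obtain ⟨zh, e_zh⟩ : ∃ zz : ℝ, zz = v.u2 * (4 * (v.c0 * v.rhat) - v.Dt) * v.SQ⁻¹ := ⟨_, rfl⟩
  obtain ⟨yh, e_yh⟩ : ∃ zz : ℝ, zz = v.e * zh * (v.t * zh + 2)⁻¹ := ⟨_, rfl⟩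
  obtain ⟨S1, e_S1⟩ : ∃ zz : ℝ, zz = -(yh * (1 - (1 / 2) * (v.t * yh))) := ⟨_, rfl⟩
  obtain ⟨S2, e_S2⟩ : ∃ zz : ℝ, zz = S1 + v3.hpt * gap + v.t * (S1 * (v3.hpt * gap)) := ⟨_, rfl⟩
  obtain ⟨drt, e_drt⟩ : ∃ zz : ℝ, zz = m.yy * (v.ee * zh + v3.hpt * gap * (hgp + 1)) := ⟨_, rfl⟩
  obtain ⟨dri, e_dri⟩ : ∃ zz : ℝ, zz = v.t * drt := ⟨_, rfl⟩
  obtain ⟨S3, e_S3⟩ : ∃ zz : ℝ, zz = S2 + drt * (1 + (5 / 8) * dri) + v.t * (S2 * (drt * (1 + (5 / 8) * dri))) := ⟨_, rfl⟩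
  obtain ⟨S4, e_S4⟩ : ∃ zz : ℝ, zz = S3 + v.u * v.n * (v.h + 1) * v.j + v.t * (S3 * (v.u * v.n * (v.h + 1) * v.j)) := ⟨_, rfl⟩
  obtain ⟨Dh, e_Dh⟩ : ∃ zz : ℝ, zz = v.u2 * v.Dt := ⟨_, rfl⟩
  obtain ⟨S5, e_S5⟩ : ∃ zz : ℝ, zz = S4 + (-(Dh * ((1 / 2) - (3 / 8) * (v.t * Dh)))) + v.t * (S4 * (-(Dh * ((1 / 2) - (3 / 8) * (v.t * Dh))))) := ⟨_, rfl⟩
  obtain ⟨S6, e_S6⟩ : ∃ zz : ℝ, zz = S5 + v.u * m.eN * v.op1⁻¹ + v.t * (S5 * (v.u * m.eN * v.op1⁻¹)) := ⟨_, rfl⟩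
  obtain ⟨S7, e_S7⟩ : ∃ zz : ℝ, zz = (S6 - m.b1) * (1 + v.t * m.b1)⁻¹ := ⟨_, rfl⟩
  obtain ⟨S8, e_S8⟩ : ∃ zz : ℝ, zz = S7 + v.u * v.tu * m.eN * (v.aQ - m.eta)⁻¹ + v.t * (S7 * (v.u * v.tu * m.eN * (v.aQ - m.eta)⁻¹)) := ⟨_, rfl⟩
  obtain ⟨c1, e_c1⟩ : ∃ zz : ℝ, zz = 1 + v.t * S8 := ⟨_, rfl⟩
  obtain ⟨rt, e_rt⟩ : ∃ zz : ℝ, zz = fbt * m.XM + FXt * (v.t * m.XLt) := ⟨_, rfl⟩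
  obtain ⟨Bm, e_Bm⟩ : ∃ zz : ℝ, zz = -(S8 + rt * c1 + fbt + FXt) := ⟨_, rfl⟩
  exact ⟨⟨od, lsR, PR, dP, Ee, den, C, fbt, sl, FXt, zh, yh, S1, S2, drt, dri, S3, S4, Dh, S5, S6, S7, S8, c1, rt, Bm, e_od, e_lsR, e_PR, e_dP, e_Ee, e_den, e_C, e_fbt, e_sl, e_FXt, e_zh, e_yh, e_S1, e_S2, e_drt, e_dri, e_S3, e_S4, e_Dh, e_S5, e_S6, e_S7, e_S8, e_c1, e_rt, e_Bm⟩⟩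

end Pool.Agent.helper71.FG
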