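import Pool.Agent.helper71.FG.Mid

/-!
# Far field programs for large `e`: the next point, closing
-/

namespace Pool.Agent.helper71.FG

open Complex ComplexConjugate Pool.Agent.helper31.EQ.Y Pool.Agent.helper31.EQ.R
open Pool.Agent.helper12.EQL Pool.Agent.helper12.RP Pool.Agent.helper12.FF Pool.Agent.helper63.FF
open Pool.Agent.helper71.FF (B1 B2 B3 Geo)

variable {κ : ℝ}

/-- the relative displacement at the next point -/
theorem d2_of {s : ℂ} {v : B1} (G : Geo κ s v) {v2 : B2 v}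
    {bw A Qb Q1 lsi phu Ei Eh : ℝ} (m : Mb bw v2 A Qb Q1 lsi phu Ei Eh) {η : ℝ} (hη0 : 0 ≤ η)
    (hη : η ≤ v.tu2 * m.eN) (hrl : 0 < m.rl) :
    ∃ d, 0 ≤ d ∧ d < 1 ∧
      η ≤ d * (shf κ s).re * (Real.sinh κ * ‖Qk κ s‖ * (‖Qk κ s‖ - η)) ∧
      d / (1 - d) ≤ η * (m.irl * v.R⁻¹) ∧ d / (1 - d) ≤ m.yy := by
  have haQ := G.aQ0
  have hR := G.R0
  have hrh := G.rhat1
  have hS := G.re'
  have haS := G.aQ_sq
  have heta' : m.eta = v.tu2 * m.eN := m.e_eta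
  have hD : m.d * v.R = m.eta := by
    rw [m.e_d, heta', G.tu2R]; ring
  -- R rhat (1 - η/aQ)
  obtain ⟨M, hM⟩ : ∃ M, M = v.R * v.rhat * (1 - η * v.aQ⁻¹) := ⟨_, rfl⟩
  have hrlR : v.R * m.rl = v.R * v.rhat * (1 - m.eta * v.aQ⁻¹) - m.eta := by
    rw [m.e_rl, mul_sub, ← hD]; ring
  have hM1 : v.R * m.rl ≤ M - η := by
    rw [hrlR, hM]
    have h1 : η * v.aQ⁻¹ ≤ m.eta * v.aQ⁻¹ :=
      mul_le_mul_of_nonneg_right (by rw [heta']; exact hη) (inv_nonneg.2 haQ.le)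
    have h2 := mul_le_mul_of_nonneg_left h1 (by positivity : 0 ≤ v.R * v.rhat)
    have h3 : η ≤ m.eta := by rw [heta']; exact hη
    nlinarith
  have hRrl : 0 < v.R * m.rl := mul_pos hR hrl
  have hM0 : 0 < M := by linarith
  have hMη : 0 < M - η := by linarith
  refine ⟨η / M, by positivity, by rw [div_lt_one hM0]; linarith, ?_, ?_, ?_⟩
  · rw [G.Qn]
    have e1 : (shf κ s).re * (Real.sinh κ * v.aQ * (v.aQ - η)) = M := by
      have e2 : Real.sinh κ * (shf κ s).re * v.aQ ^ 2 = v.R * v.rhat := by rw [haS]; exact hS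
      rw [hM, ← e2]
      field_simp
    rw [mul_assoc, e1, div_mul_cancel₀ _ hM0.ne']
  · have e1 : η / M / (1 - η / M) = η / (M - η) := by
      have : 1 - η / M = (M - η) / M := by field_simp
      rw [this]
      field_simp
    rw [e1]
    have h1 : η / (M - η) ≤ η / (v.R * m.rl) := div_le_div_of_nonneg_left hη0 hRrl hM1
    refine h1.trans (le_of_eq ?_)
    rw [m.e_irl]
    field_simp
  · have e1 : η / M / (1 - η / M) = η / (M - η) := by
      have : 1 - η / M = (M - η) / M := by field_simp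
      rw [this]
      field_simp
    rw [e1]
    have h1 : η / (M - η) ≤ m.eta / (v.R * m.rl) := by
      apply div_le_div₀ _ _ hRrl hM1
      · rw [heta']; exact hη0.trans hη
      · rw [heta']; exact hη
    refine h1.trans (le_of_eq ?_)
    rw [m.e_yy, m.e_irl, ← hD]
    field_simp



/-- the bound of the second part of the closing -/
noncomputable def Tb {bw : ℝ} {v : B1} {v2 : B2 v} {A Qb Q1 lsi phu Ei Eh : ℝ}
    (m : Mb bw v2 A Qb Q1 lsi phu Ei Eh) (nq rpv : ℝ) : ℝ :=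
  nq * Real.exp (m.yy * rpv) *
    (1 + (v.h + 1) * (v.K + v.t) * bw)⁻¹ * v.m * (1 + v.tu * m.eN * v.op1⁻¹) *
    (v.aQ - m.eta)⁻¹

theorem far_close {τ : ℂ} {v : B1} (G : Geo κ (shf κ τ) v) {v2 : B2 v}
    {bw A Qb Q1 lsi phu Ei Eh : ℝ} {m : Mb bw v2 A Qb Q1 lsi phu Ei Eh} (hbw : 0 < bw)
    {gap nq rpv : ℝ} (nx : Nx κ (shf κ τ) v gap nq rpv)
    {R X w θ : ℝ} {E : Set ℂ} (hA : 0 < A) (hR0 : 0 < R) (hR : R ≤ Real.exp (-(2 * κ * (49 / 10))))
    (hR2 : Real.exp (2 * κ) * R < 1) (hτ : ‖τ - 1‖ < Real.exp (2 * κ) * R * ‖τ + 1‖)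
    (hX : X = 2 * A * Real.sinh κ ^ 2 * R / (1 - R) * ‖shf κ τ + 1‖)
    (hw : w = (1 + (2 * bw) * (Real.exp κ - 1))⁻¹)
    {lf Ex ls n1 L1 M2 E0 η : ℝ} (o : Out κ (shf κ τ) m X lf Ex ls n1 L1 M2 E0 η)
    (aS : 0 < v.op1 - v.tu * m.eN) (arl : 0 < m.rl) (ae2 : 0 < v.aQ - 2 * (v.tu2 * m.eps))
    (aV : 0 < m.V) (hXM : X ≤ m.XM)
    {fb FX c1 r ρ1 : ℝ}
    (hE : ∀ τ' : ℂ, 0 < τ'.re → Real.sinh κ * ‖τ' - shf κ τ‖ ≤ η → τ' ∈ E)
    (hρ : ∀ τ' : ℂ, 0 < τ'.re → Real.sinh κ * ‖τ' - shf κ τ‖ ≤ η → ‖R1 v.e κ τ τ' - 1‖ ≤ ρ1)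
    (hρ1 : ρ1 ≤ fb * X + FX * (v.t * m.XLt))
    (hT : Tb m nq rpv ≤ c1) (hfb : 0 ≤ fb) (hFX : 0 ≤ FX) (hr : r = fb * m.XM + FX * (v.t * m.XLt))
    (hB : fb + FX + c1 * (1 + r) ≤ θ) :
    FarPt v.e κ θ w (2 * A * Real.sinh κ ^ 2) R E τ := by
  have he := G.e0
  have hκ := G.κ0
  have hKs : 0 < Real.sinh κ := by rw [← G.K]; exact G.K0
  have hs0 := G.s0
  obtain ⟨hτ0, hs⟩ := reg_s hκ hR2.le hτ
  have hr' : rt (shf κ τ) < R := by
    unfold rt
    rw [div_lt_iff₀ (add_one_pos hs0)]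
    exact hs
  obtain ⟨hR1, -⟩ := G.lm_ge v2 hR0 hR
  obtain ⟨hX0, -, -⟩ := G.X_le v2 hA hR0 hR hX
  have hXL := G.X_ge hA hR1 hr' hX
  rw [← m.e_XLt] at hXL
  obtain ⟨hw0, hw1, hLam⟩ := Lam_ge G hbw hR1 hr' hw
  have htu := G.tu0
  have hop := G.op0
  have haQ := G.aQ0
  have hm0 : 0 < v.m := by rw [G.m_eq]; exact Real.exp_pos _
  have hNN0 : 0 ≤ m.NN := by linarith [o.o_NN1]
  -- eta < aQ
  have heta_e : m.eta = v.tu2 * m.eN := m.e_eta
  have hx : 0 < 1 - v.tu2 * m.eps * v.aQ⁻¹ := by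
    have : v.tu2 * m.eps * v.aQ⁻¹ < 1 := by
      rw [← div_eq_mul_inv, div_lt_one haQ]
      have := o.o_eps0
      have : 0 ≤ v.tu2 * m.eps := by rw [v.e_tu2]; positivity
      linarith
    linarith
  have heta : m.eta < v.aQ := by
    rw [heta_e, m.e_eN, m.e_NN, ← mul_assoc, ← div_eq_mul_inv, div_lt_iff₀ hx]
    have : v.aQ * (1 - v.tu2 * m.eps * v.aQ⁻¹) = v.aQ - v.tu2 * m.eps := by
      field_simp
    rw [this]
    linarith
  have hηeta : η ≤ m.eta := by rw [heta_e]; exact o.o_ηe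
  have hηQ : η < v.aQ := by linarith
  have hηS : η < v.tu * v.op1 := by
    have h1 : m.eta = v.tu * (v.tu * m.eN) := by rw [heta_e, v.e_tu2]; ring
    have h2 := mul_lt_mul_of_pos_left (by linarith : v.tu * m.eN < v.op1) htu
    linarith
  obtain ⟨d2, hd0, hd1, hd2, -, hyy⟩ := d2_of G m o.o_η0 o.o_ηe arl
  -- invariance
  have hinv := inv_of G m hbw hA hR0 hR hr' hX hw o.o_η0 o.o_src0 o.o_fx0 o.o_ηV o.o_ηe hNN0 aS aV
  have hB0 : 0 < 2 * A * Real.sinh κ ^ 2 := by positivity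
  have hP0 : 0 ≤ rpv := nx.P0
  obtain ⟨qp, hqp⟩ : ∃ q, q = nq * Real.exp (d2 / (1 - d2) * rpv) := ⟨_, rfl⟩
  have hnq0 : 0 ≤ nq := (norm_nonneg _).trans nx.nq
  have hqp0 : 0 ≤ qp := by rw [hqp]; positivity
  have hqpb : qp ≤ nq * Real.exp (m.yy * rpv) := by
    rw [hqp]
    apply mul_le_mul_of_nonneg_left _ hnq0
    apply Real.exp_le_exp.2
    exact mul_le_mul_of_nonneg_right hyy hP0
  refine farPt_core' he hκ hR0 hB0 hw0 hw1.le hR2 hτ (X := X) (ls := ls) (lf := lf) (nq := Qb)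
    (n1 := n1) (L1 := L1) (M2 := M2) (Ex := Ex) (E0 := E0) (η := η) (ρ1 := ρ1) (qp := qp)
    hX o.o_X1 o.o_ls o.o_lf o.o_nq o.o_nX (by rw [o.o_n1])
    (by rw [o.o_L1e, v.e_ei, div_eq_mul_inv]) (by rw [o.o_M2e, v.e_ei, div_eq_mul_inv]) o.o_Ex o.o_E0 o.o_E1 o.o_η
    (by rw [G.Sp]; exact hηS) hinv hE hρ ?_ (by rw [G.Qn]; exact hηQ) ?_
  · intro τ' h1 h2
    have := qp_le he hκ h1 hs0 h2 (by rw [G.Qn]; exact hηQ) hd2 hd1 nx.P nx.nq
    rw [← hqp] at this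
    exact this
  · -- closing
    have hη0 := o.o_η0
    have hwR : 0 < 1 - w * R := by nlinarith
    have h1R : 0 < 1 - R := by linarith
    have hn : 0 < ‖shf κ τ + 1‖ := add_one_pos hs0
    have hQη : 0 < v.aQ - η := by linarith
    have hQη' : 0 < v.aQ - m.eta := by linarith
    -- the ratio
    obtain ⟨Lr, hLr⟩ : ∃ L, L = w * (1 - R) / (1 - w * R) := ⟨_, rfl⟩
    rw [← hLr] at hLam
    have hLr0 : 0 ≤ Lr := by rw [hLr]; positivity
    obtain ⟨T, hTd⟩ : ∃ T, T = qp * Lr * v.m * (1 + η / (v.tu * v.op1)) * (v.aQ - η)⁻¹ := ⟨_, rfl⟩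
    have hTT : T ≤ Tb m nq rpv := by
      rw [hTd]
      unfold Tb
      have h1 : (v.aQ - η)⁻¹ ≤ (v.aQ - m.eta)⁻¹ := inv_anti₀ hQη' (by linarith)
      have h2 : 1 + η / (v.tu * v.op1) ≤ 1 + v.tu * m.eN * v.op1⁻¹ := by
        have h3 : η / (v.tu * v.op1) ≤ m.eta / (v.tu * v.op1) :=
          div_le_div_of_nonneg_right hηeta (by positivity)
        have h4 : m.eta / (v.tu * v.op1) = v.tu * m.eN * v.op1⁻¹ := by
          rw [heta_e, v.e_tu2]; field_simp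
        linarith
      have h5 : 0 ≤ nq * Real.exp (m.yy * rpv) := by positivity
      have h6 : 0 ≤ (1 + (v.h + 1) * (v.K + v.t) * bw)⁻¹ := hLr0.trans hLam
      have h7 : 0 ≤ 1 + η / (v.tu * v.op1) := by positivity
      have h8 : 0 ≤ (v.aQ - η)⁻¹ := by positivity
      have k1 := mul_le_mul hqpb hLam hLr0 h5
      have k2 := mul_le_mul_of_nonneg_right k1 hm0.le
      have k3 := mul_le_mul k2 h2 h7 (by positivity)
      exact mul_le_mul k3 h1 h8 (mul_nonneg (by positivity) (h7.trans h2))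
    have hT0 : 0 ≤ T := by rw [hTd]; positivity
    have hc1 : T ≤ c1 := hTT.trans hT
    -- the product is X T
    have hprod : (1 + ρ1) * qp * (2 * A * Real.sinh κ ^ 2 * (w * R) / (1 - w * R)) *
        (Real.exp κ * (Real.sinh κ * ‖shf κ τ + 1‖ + η) /
          (Real.sinh κ * (‖Qk κ (shf κ τ)‖ - η))) = (1 + ρ1) * (X * T) := by
      rw [hTd, hLr, hX, G.Qn, ← G.m_eq]
      have hSS := G.Sp
      have e1 : Real.sinh κ * ‖shf κ τ + 1‖ + η =
          Real.sinh κ * ‖shf κ τ + 1‖ * (1 + η / (v.tu * v.op1)) := by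
        rw [hSS]; field_simp
      rw [e1]
      field_simp
    rw [hprod]
    have hρb1 : ρ1 ≤ (fb + FX) * X := by
      have := mul_le_mul_of_nonneg_left hXL hFX
      linarith
    have hρb2 : ρ1 ≤ r := by
      rw [hr]
      have := mul_le_mul_of_nonneg_left hXM hfb
      linarith
    have hXT : 0 ≤ X * T := by positivity
    have h1 : (1 + ρ1) * (X * T) ≤ (1 + r) * (X * T) := mul_le_mul_of_nonneg_right (by linarith) hXT
    have hρ0 : 0 ≤ ρ1 := by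
      have h2 := hρ (shf κ τ) hs0 (by rw [sub_self, norm_zero, mul_zero]; exact hη0)
      exact (norm_nonneg _).trans h2
    have h2 : (1 + r) * (X * T) ≤ (1 + r) * (X * c1) := by
      apply mul_le_mul_of_nonneg_left _ (by linarith)
      exact mul_le_mul_of_nonneg_left hc1 hX0.le
    have h3 : ρ1 + (1 + r) * (X * c1) ≤ (fb + FX + c1 * (1 + r)) * X := by linarith
    have h4 := mul_le_mul_of_nonneg_right hB hX0.le
    linarith

end Pool.Agent.helper71.FG
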