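import Pool.Agent.helper71.FG.Base

/-!
# Far field programs for large `e`: the deviation of the radicand
-/

namespace Pool.Agent.helper71.FG

open Complex ComplexConjugate Pool.Agent.helper31.EQ.Y Pool.Agent.helper31.EQ.R
open Pool.Agent.helper12.EQL Pool.Agent.helper12.RP Pool.Agent.helper12.FF Pool.Agent.helper63.FF
open Pool.Agent.helper71.FF (B1 B2 B3 Geo exp_Na' exp_Nb)

variable {κ : ℝ}

/-- the deviation with the values of the program -/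
noncomputable def E0v {bw : ℝ} {v : B1} {v2 : B2 v} {A Qb Q1 lsi phu Ei Eh : ℝ}
    (w : Mb bw v2 A Qb Q1 lsi phu Ei Eh) (L1 M2 : ℝ) : ℝ :=
  v.tu2 * v.om1 ^ 2 * w.bte + v.tu * (w.ka * L1 + w.kb * M2) + v.tu2 * v.om1 * (w.lfk * phu * v.ei)

theorem E0_le {s : ℂ} {v : B1} (G : Geo κ s v) {v2 : B2 v} {bw A Qb Q1 lsi phu Ei Eh : ℝ}
    (w : Mb bw v2 A Qb Q1 lsi phu Ei Eh) {L1 M2 lf Ex : ℝ}
    (hL1 : 0 ≤ L1) (hM2 : 0 ≤ M2) (h1 : L1 ≤ w.l1) (h2 : L1 + M2 ≤ w.a0)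
    (hl1 : w.l1 ≤ 5 / 8) (ha0 : w.a0 ≤ 11 / 32) (hlf0 : 0 ≤ lf) (hEx0 : 0 ≤ Ex)
    (hEi : Ex ≤ Ei) (hEh : (1 + Ex) / 2 ≤ Eh)
    (hlf : v2.rh * lf ≤ v.tu * v.om1 * v2.hm * phu) :
    DlB' v.e κ (Qk κ s) L1 M2 lf Ex ≤ 2 * ‖Qk κ s‖ * E0v w L1 M2 := by
  have htu := G.tu0
  have ha := G.aQ0
  have hrh := G.rh0 v2
  have hnih := G.nih0 v2
  have he := G.e0
  have hei : 0 < v.ei := by rw [v.e_ei]; positivity
  have heie : v.ei * v.e = 1 := by rw [v.e_ei, inv_mul_cancel₀ he.ne']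
  have hQ := G.Qn
  have hk0 := G.k0_le w.e_N1 w.e_s w.e_k0
  have hN := exp_Na' hL1 h1 hl1
  have hNb1 := exp_Nb (z := 2 * L1 + 2 * M2) (by positivity) (by linarith) ha0
  have hNb2 := exp_Nb (z := L1 + 2 * M2) (by positivity) (by linarith) ha0
  rw [← w.e_Nb] at hNb1 hNb2
  rw [← w.e_Na] at hN
  have hNb0 : 0 ≤ w.Nb := by
    rw [w.e_Nb]
    have : 0 ≤ w.a0 := by linarith
    positivity
  have hrh2 : (1 - Real.exp (-κ)) ^ 2 = v2.rh ^ 2 := by rw [G.rh_eq v2]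
  unfold DlB'
  rw [G.Qm1, hQ, hrh2]
  -- term 1
  have t1 : (v.tu * v.om1) ^ 2 * ‖Qk κ s - (Real.exp (-(2 * κ)) : ℂ)‖ ≤
      2 * v.aQ * (v.tu2 * v.om1 ^ 2 * w.bte) := by
    have h3 := mul_le_mul_of_nonneg_left (G.Qm2 v2) (sq_nonneg (v.tu * v.om1))
    refine h3.trans (le_of_eq ?_)
    rw [w.e_bte, v.e_tu2]
    field_simp
  -- term 2
  have t2 : (Real.exp L1 - 1) * (v.aQ * ‖1 - (2 * (Real.cosh κ : ℂ) - Qk κ s) ^ 2‖) ≤
      2 * v.aQ * (v.tu * (w.k0 * w.Na * L1)) := by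
    have h4 : v.aQ * ‖1 - (2 * (Real.cosh κ : ℂ) - Qk κ s) ^ 2‖ ≤ v.aQ * (2 * (v.tu * w.k0)) :=
      mul_le_mul_of_nonneg_left hk0 ha.le
    have h5 : 0 ≤ v.aQ * (2 * (v.tu * w.k0)) :=
      (by positivity : (0:ℝ) ≤ v.aQ * ‖1 - (2 * (Real.cosh κ : ℂ) - Qk κ s) ^ 2‖).trans h4
    have h6 : 0 ≤ Real.exp L1 - 1 := by
      have := Real.add_one_le_exp L1
      linarith
    calc _ ≤ (Real.exp L1 - 1) * (v.aQ * (2 * (v.tu * w.k0))) := mul_le_mul_of_nonneg_left h4 h6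
      _ ≤ (L1 * w.Na) * (v.aQ * (2 * (v.tu * w.k0))) := mul_le_mul_of_nonneg_right hN h5
      _ = _ := by ring
  -- term 3
  obtain ⟨U1, hU1⟩ : ∃ U, U = Ex * (Real.exp (2 * L1 + 2 * M2) - 1) + 2 * lf / v.e * ((1 + Ex) / 2) :=
    ⟨_, rfl⟩
  obtain ⟨U2, hU2⟩ : ∃ U, U = Ex * (Real.exp (L1 + 2 * M2) - 1) + 2 * lf / v.e * ((1 + Ex) / 2) :=
    ⟨_, rfl⟩
  rw [← hU1, ← hU2]
  have hEi0 : 0 ≤ Ei := hEx0.trans hEi
  have hle : 2 * lf / v.e = 2 * (lf * v.ei) := by rw [v.e_ei]; ring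
  have hlei : 0 ≤ lf * v.ei := by positivity
  have hlE : 2 * lf / v.e * ((1 + Ex) / 2) ≤ 2 * (lf * v.ei) * Eh := by
    rw [hle]
    exact mul_le_mul_of_nonneg_left hEh (by positivity)
  have bU1 : U1 ≤ Ei * ((2 * L1 + 2 * M2) * w.Nb) + 2 * (lf * v.ei) * Eh := by
    rw [hU1]
    have h7 : 0 ≤ Real.exp (2 * L1 + 2 * M2) - 1 := by
      have := Real.add_one_le_exp (2 * L1 + 2 * M2)
      linarith
    have := mul_le_mul hEi hNb1 h7 hEi0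
    linarith
  have bU2 : U2 ≤ Ei * ((L1 + 2 * M2) * w.Nb) + 2 * (lf * v.ei) * Eh := by
    rw [hU2]
    have h7 : 0 ≤ Real.exp (L1 + 2 * M2) - 1 := by
      have := Real.add_one_le_exp (L1 + 2 * M2)
      linarith
    have := mul_le_mul hEi hNb2 h7 hEi0
    linarith
  have t3 : v2.rh ^ 2 * v.aQ * (v.aQ * U1 + U2) ≤
      2 * v.aQ * (v.tu * (w.rn * (v.aQ + 1 / 2) * L1 + w.kb * M2) +
        v.tu2 * v.om1 * (w.lfk * phu * v.ei)) := by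
    have h8 : v.aQ * U1 + U2 ≤ Ei * w.Nb * (2 * ((v.aQ + 1 / 2) * L1 + (v.aQ + 1) * M2)) +
        2 * (lf * v.ei) * Eh * (v.aQ + 1) := by
      have := mul_le_mul_of_nonneg_left bU1 ha.le
      nlinarith
    have h9 : 0 ≤ v2.rh ^ 2 * v.aQ := by positivity
    refine (mul_le_mul_of_nonneg_left h8 h9).trans ?_
    -- rh² lf ≤ rh tu om1 hm phu
    have h10 : v2.rh * (v2.rh * lf) ≤ v2.rh * (v.tu * v.om1 * v2.hm * phu) :=
      mul_le_mul_of_nonneg_left hlf hrh.le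
    have h11 : 0 ≤ 2 * v.ei * Eh * (v.aQ + 1) * v.aQ := by
      have : 0 ≤ Eh := by linarith
      positivity
    have h12 := mul_le_mul_of_nonneg_left h10 h11
    have e1 : v2.rh = v.tu * v2.nih := G.rh_tu v2
    have e2 : v2.rh ^ 2 * v.aQ * (Ei * w.Nb * (2 * ((v.aQ + 1 / 2) * L1 + (v.aQ + 1) * M2)) +
        2 * (lf * v.ei) * Eh * (v.aQ + 1)) =
        2 * v.aQ * ((v2.rh * (v2.rh * Ei * w.Nb)) * ((v.aQ + 1 / 2) * L1 + (v.aQ + 1) * M2)) +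
        2 * v.ei * Eh * (v.aQ + 1) * v.aQ * (v2.rh * (v2.rh * lf)) := by ring
    rw [e2]
    have e3 : v2.rh * (v2.rh * Ei * w.Nb) = v.tu * w.rn := by
      rw [w.e_rn]
      nth_rewrite 1 [e1]
      ring
    rw [e3]
    have e4 : 2 * v.ei * Eh * (v.aQ + 1) * v.aQ * (v2.rh * (v.tu * v.om1 * v2.hm * phu)) =
        2 * v.aQ * (v.tu2 * v.om1 * (w.lfk * phu * v.ei)) := by
      rw [w.e_lfk, v.e_tu2, e1]
      ring
    rw [e4] at h12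
    have e5 : v.tu * w.rn * ((v.aQ + 1 / 2) * L1 + (v.aQ + 1) * M2) =
        v.tu * (w.rn * (v.aQ + 1 / 2) * L1 + w.kb * M2) := by
      rw [w.e_kb]; ring
    rw [e5]
    linarith
  have e6 : 2 * v.aQ * E0v w L1 M2 = 2 * v.aQ * (v.tu2 * v.om1 ^ 2 * w.bte) +
      2 * v.aQ * (v.tu * (w.k0 * w.Na * L1)) +
      2 * v.aQ * (v.tu * (w.rn * (v.aQ + 1 / 2) * L1 + w.kb * M2) +
        v.tu2 * v.om1 * (w.lfk * phu * v.ei)) := by
    unfold E0v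
    rw [w.e_ka]
    ring
  rw [e6]
  linarith

end Pool.Agent.helper71.FG
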