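import Pool.Agent.helper71.FG.App

/-!
# Far field programs for large `e`: the domain
-/

namespace Pool.Agent.helper71.FG

open Complex ComplexConjugate Pool.Agent.helper31.EQ.Y Pool.Agent.helper31.EQ.R
open Pool.Agent.helper12.EQL Pool.Agent.helper12.RP Pool.Agent.helper12.FF Pool.Agent.helper63.FF
open Pool.Agent.helper71.FF (B1 B2 B3 Geo PtD)

variable {κ : ℝ} {τ : ℂ} {R w : ℝ} {v : B1}

theorem PtE.toD {bw e : ℝ} (D : PtE bw e κ τ R w) :
    PtD κ τ R ((1 + (9 / 10) * (Real.exp κ - 1))⁻¹) := ⟨D.R0, D.R1, D.R2, D.τ0, rfl⟩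

theorem dO_core (G : Geo κ (shf κ τ) v) (h : 0 < v.u * v.n - 1 + v.h * v.h) : False := by
  have h1 := G.om1_0
  have h2 := G.jjm
  have h3 : v.nj = v.n * v.j := v.e_nj
  have h4 : v.om = v.u * v.nj := v.e_om
  have h5 : v.jm = 1 - v.h * v.h := v.e_jm
  have h6 : v.om1 = 1 - v.om := v.e_om1
  have h7 := G.jm0
  have h8 : v.om * v.jm = v.u * v.n := by rw [h4, h3]; linear_combination (v.u * v.n) * h2
  nlinarith

theorem dU_core (G : Geo κ (shf κ τ) v) (h : 0 < v.n - 1 + v.h * v.h) : False := by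
  have h1 := G.nj1
  have h2 := G.jjm
  have h3 : v.nj = v.n * v.j := v.e_nj
  have h5 : v.jm = 1 - v.h * v.h := v.e_jm
  have h7 := G.jm0
  have h8 : v.nj * v.jm = v.n := by rw [h3]; linear_combination (v.n) * h2
  nlinarith

theorem dT_core {bw : ℝ} (G : Geo κ (shf κ τ) v) (v2 : B2 v) (D : PtE bw v.e κ τ R w)
    (h : 0 < v.t - v.K - v2.lm) : False := by
  have := G.t_le v2 D.toD
  linarith

theorem dR_core {bw : ℝ} (G : Geo κ (shf κ τ) v) (v2 : B2 v) (D : PtE bw v.e κ τ R w)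
    {C2 Gt et : ℝ} (e1 : C2 = v2.eK * v2.eK * (13 * 10⁻¹) + 25) (e2 : Gt = 2 * v.c0 - v.t - v.K * v.om)
    (e3 : et = v.e * v.tu)
    (h : 0 < et * et * v.om1 * v.op1 - C2 * (1 - v.t * v.om1) * (1 - v.R * Gt)) : False := by
  have F := regF_of G v2 D
  have f1 := F.Ns
  have f2 := F.tl
  have f3 := F.p1
  have hC : C2 = C2f v.e κ := by
    unfold C2f
    rw [e1, v2.e_eK, G.K]; ring
  have hC0 : 0 < C2 := by
    rw [hC]; unfold C2f
    have := mul_self_nonneg (v.e * Real.sinh κ)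
    linarith
  have hG : v.c0 * 2 - v.t - v.K * v.om = Gt := by rw [e2]; ring
  rw [hG] at f1 f3
  rw [← hC] at f1
  have h1 : C2 * (1 - 2 * v.K * (R / (1 - R))) * (1 - v.R * Gt) ≤
      C2 * (1 - v.t * v.om1) * (1 - v.R * Gt) := by
    apply mul_le_mul_of_nonneg_right _ f3.le
    apply mul_le_mul_of_nonneg_left _ hC0.le
    linarith
  have h2 : v.e ^ 2 * (v.tu2 * v.om1 * v.op1) = et * et * v.om1 * v.op1 := by
    rw [e3, v.e_tu2]; ring
  rw [h2] at f1
  linarith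

/-- crude bound of `κ` -/
theorem h_crude {e : ℝ} (he : 20 ≤ e) (hκ : 0 < κ)
    (hk : Pool.Agent.helper12.RS.kfun e κ < 4 ^ (1 / e) - 1) : Real.tanh (κ / 2) ≤ 5 / 32 := by
  have he0 : 0 < e := by linarith
  -- 4 ^ (1/e) ≤ 1.0719
  have h1 : (4 : ℝ) ^ (1 / e) ≤ 10719 / 10000 := by
    have h2 : (4 : ℝ) ^ (1 / e) ≤ 4 ^ ((1 : ℝ) / 20) := by
      apply Real.rpow_le_rpow_of_exponent_le (by norm_num)
      exact one_div_le_one_div_of_le (by norm_num) he
    refine h2.trans ?_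
    have h3 : (4 : ℝ) ≤ (10719 / 10000) ^ (20 : ℕ) := by norm_num
    have h4 := Real.rpow_le_rpow (by norm_num) h3 (by norm_num : (0 : ℝ) ≤ 1 / 20)
    have h5 : ((10719 / 10000 : ℝ) ^ (20 : ℕ)) ^ ((1 : ℝ) / 20) = 10719 / 10000 := by
      rw [← Real.rpow_natCast, ← Real.rpow_mul (by norm_num)]
      norm_num
    rw [h5] at h4
    exact h4
  -- kfun ≥ (1 - exp (-κ))²
  have hc1 : 1 ≤ Real.cosh (e * κ / 2) := Real.one_le_cosh _
  have h6 : Real.cosh (e * κ / 2) ^ (2 / e) ≤ Real.exp κ := by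
    have h7 : Real.cosh (e * κ / 2) ≤ Real.exp (e * κ / 2) := by
      rw [Real.cosh_eq]
      have : Real.exp (-(e * κ / 2)) ≤ Real.exp (e * κ / 2) := by
        apply Real.exp_le_exp.2
        have : 0 ≤ e * κ / 2 := by positivity
        linarith
      linarith
    have h8 := Real.rpow_le_rpow (by linarith) h7 (by positivity : 0 ≤ 2 / e)
    refine h8.trans (le_of_eq ?_)
    rw [← Real.exp_mul]
    congr 1
    field_simp
  have h7 : 2 * (Real.cosh κ - 1) = Real.exp κ * (1 - Real.exp (-κ)) ^ 2 := by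
    rw [Real.cosh_eq]
    have : Real.exp κ * Real.exp (-κ) = 1 := by rw [← Real.exp_add]; simp
    linear_combination (2 - Real.exp (-κ)) * this
  unfold Pool.Agent.helper12.RS.kfun at hk
  have hp : 0 < Real.cosh (e * κ / 2) ^ (2 / e) := Real.rpow_pos_of_pos (Real.cosh_pos _) _
  rw [div_lt_iff₀ hp, h7] at hk
  have h9 : (1 - Real.exp (-κ)) ^ 2 < 719 / 10000 := by
    have h10 : (4 ^ (1 / e) - 1 : ℝ) * Real.cosh (e * κ / 2) ^ (2 / e) ≤
        719 / 10000 * Real.exp κ := by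
      apply mul_le_mul _ h6 hp.le (by norm_num)
      linarith
    have h11 : Real.exp κ * (1 - Real.exp (-κ)) ^ 2 < Real.exp κ * (719 / 10000) := by linarith
    exact lt_of_mul_lt_mul_left h11 (Real.exp_pos κ).le
  have h10 : 1 - Real.exp (-κ) < 2682 / 10000 := by
    by_contra hc
    push Not at hc
    nlinarith
  -- tanh (κ/2) = (1 - exp (-κ))/(1 + exp (-κ))
  have h12 : Real.tanh (κ / 2) = (1 - Real.exp (-κ)) / (1 + Real.exp (-κ)) := by
    rw [Real.tanh_eq_sinh_div_cosh, Real.sinh_eq, Real.cosh_eq]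
    have e1 : Real.exp (-κ) = Real.exp (-(κ / 2)) * Real.exp (-(κ / 2)) := by
      rw [← Real.exp_add]; congr 1; ring
    have e2 : Real.exp (κ / 2) * Real.exp (-(κ / 2)) = 1 := by
      rw [← Real.exp_add]; simp
    have hpe := Real.exp_pos (κ / 2)
    have hne := Real.exp_pos (-(κ / 2))
    rw [e1]
    obtain ⟨p, hp'⟩ : ∃ p, p = Real.exp (κ / 2) := ⟨_, rfl⟩
    obtain ⟨q, hq'⟩ : ∃ q, q = Real.exp (-(κ / 2)) := ⟨_, rfl⟩
    rw [← hp', ← hq'] at e2 ⊢
    rw [← hp'] at hpe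
    rw [← hq'] at hne
    rw [div_eq_div_iff (by positivity) (by positivity)]
    linear_combination q * e2
  have hx := Real.exp_pos (-κ)
  rw [h12, div_le_iff₀ (by linarith)]
  linarith

end Pool.Agent.helper71.FG
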