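import Pool.Agent.helper71.FG.Close

/-!
# Far field programs for large `e`: modes F and C
-/

namespace Pool.Agent.helper71.FG

open Complex ComplexConjugate Pool.Agent.helper31.EQ.Y Pool.Agent.helper31.EQ.R
open Pool.Agent.helper12.EQL Pool.Agent.helper12.RP Pool.Agent.helper12.FF Pool.Agent.helper63.FF
open Pool.Agent.helper71.FF (B1 B2 B3 Geo exp_Na' exp_58 log_kz')

variable {κ : ℝ}

/-- what the bound of `R1 - 1` delivers -/
def RhoB (κ : ℝ) (τ : ℂ) {bw : ℝ} {v : B1} {v2 : B2 v} {A Qb Q1 lsi phu Ei Eh : ℝ}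
    (m : Mb bw v2 A Qb Q1 lsi phu Ei Eh) (X η fbt FX : ℝ) : Prop :=
  ∃ ρ1, (∀ τ' : ℂ, 0 < τ'.re → Real.sinh κ * ‖τ' - shf κ τ‖ ≤ η → ‖R1 v.e κ τ τ' - 1‖ ≤ ρ1) ∧
    ρ1 ≤ v.t * fbt * X + FX * (v.t * m.XLt) ∧ 0 ≤ fbt ∧ 0 ≤ FX

theorem lt_aQ {s : ℂ} {v : B1} (G : Geo κ s v) {v2 : B2 v}
    {bw A Qb Q1 lsi phu Ei Eh : ℝ} (m : Mb bw v2 A Qb Q1 lsi phu Ei Eh)
    (hε : 0 ≤ m.eps) (ae2 : 0 < v.aQ - 2 * (v.tu2 * m.eps)) : m.eta < v.aQ := by
  have haQ := G.aQ0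
  have heta_e : m.eta = v.tu2 * m.eN := m.e_eta
  have h0 : 0 ≤ v.tu2 * m.eps := by rw [v.e_tu2]; have := G.tu0; positivity
  have hx : 0 < 1 - v.tu2 * m.eps * v.aQ⁻¹ := by
    have : v.tu2 * m.eps * v.aQ⁻¹ < 1 := by
      rw [← div_eq_mul_inv, div_lt_one haQ]
      linarith
    linarith
  rw [heta_e, m.e_eN, m.e_NN, ← mul_assoc, ← div_eq_mul_inv, div_lt_iff₀ hx]
  have : v.aQ * (1 - v.tu2 * m.eps * v.aQ⁻¹) = v.aQ - v.tu2 * m.eps := by
    field_simp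
  rw [this]
  linarith

/-- the bound of `R1 - 1`, mode F -/
theorem rhoF {τ : ℂ} {v : B1} (G : Geo κ (shf κ τ) v) (hτ0 : 0 < τ.re) {v2 : B2 v}
    {cc : ℝ} {b : GC v.q cc v.h1} {bw A g ga phu Ei Eh : ℝ} {ms : Ms v b g ga}
    {m : Mb bw v2 A ms.Qb ms.Q1 ms.lsi phu Ei Eh} {iA : ℝ} (c : CF ms m iA) (hiA : A * iA = 1) {X : ℝ}
    {lf Ex ls n1 L1 M2 E0 η : ℝ} (o : Out κ (shf κ τ) m X lf Ex ls n1 L1 M2 E0 η)
    (F : Fct κ (shf κ τ) ms ls) (ahg : 0 < 1 - ms.hg) (ad : 0 < 1 - m.d) (aden : 0 < c.den) (adP : 0 < (5 / 8) * 1 - c.dP)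
    (hphu : 0 ≤ phu) (_hX0 : 0 < X) (hA : 0 < A) (hg0 : 0 < g)
    (hgR : gR v.e κ (shf κ τ) ≤ g) (hfa0 : ‖fT v.e κ (shf κ τ)‖ ≤ ms.fa) :
    RhoB κ τ m X η c.fbt c.FX := by
  have he := G.e0
  have hκ := G.κ0
  have hs0 := G.s0
  have hR := G.R0
  have hη0 := o.o_η0
  have htu := G.tu0
  have ht := G.t0
  have hu := G.u0
  have hop := G.op0
  have hom1 := G.om1_0
  have hei : 0 < v.ei := by rw [v.e_ei]; positivity
  have heie : v.ei * v.e = 1 := by rw [v.e_ei, inv_mul_cancel₀ he.ne']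
  have heta_e : m.eta = v.tu2 * m.eN := m.e_eta
  have hηeta : η ≤ m.eta := by rw [heta_e]; exact o.o_ηe
  have hD : m.d * v.R = m.eta := by
    rw [m.e_d, heta_e, G.tu2R]; ring
  obtain ⟨d, hd⟩ : ∃ d, d = η / v.R := ⟨_, rfl⟩
  have hdR : d * v.R = η := by rw [hd]; field_simp
  have hd0 : 0 ≤ d := by rw [hd]; positivity
  have hdm : d ≤ m.d := by
    have : d * v.R ≤ m.d * v.R := by rw [hdR, hD]; exact hηeta
    exact le_of_mul_le_mul_right this hR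
  have hd1 : d < 1 := by linarith
  -- the potential
  have hlsme : m.ls = ms.hg * ms.lsf := by rw [m.e_ls, F.lse]
  have hlsm : 0 ≤ m.ls := by rw [hlsme]; exact mul_nonneg F.hg0 F.lsf0.le
  have hP : (Pl v.e κ (shf κ τ)).re ≤ v.rho + m.ls := by
    have h1 := Pl_re_le he hκ hs0 (by rw [G.h1_eq]; linarith [F.hg])
    rw [← G.rho_eq, G.h1_eq] at h1
    have h2 := F.lsb
    rw [← hlsme] at h2
    linarith
  obtain ⟨P, hPd⟩ : ∃ P, P = v.rho + m.ls := ⟨_, rfl⟩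
  rw [← hPd] at hP
  have hP0 : 0 ≤ P := by rw [hPd]; have := G.rho0; linarith
  have hrhoR := G.rhoR_ge
  rw [← c.e_rhoR] at hrhoR
  have hPR : P ≤ v.R * (c.rhoR + c.lsR) := by
    rw [hPd, mul_add, c.e_lsR]
    have : v.R * (m.ls * v.R⁻¹) = m.ls := by field_simp
    rw [this]
    linarith
  have hod : 0 < c.od := by rw [c.e_od]; positivity
  obtain ⟨y, hy⟩ : ∃ y, y = d / (1 - d) * P := ⟨_, rfl⟩
  have hy0 : 0 ≤ y := by
    rw [hy]
    have : 0 ≤ d / (1 - d) := div_nonneg hd0 (by linarith)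
    positivity
  have hPR0 : 0 ≤ c.PR := by
    rw [c.e_PR]
    have : 0 ≤ v.R * (c.rhoR + c.lsR) := hP0.trans hPR
    have : 0 ≤ c.rhoR + c.lsR := nonneg_of_mul_nonneg_right this hR
    positivity
  have hyη : y ≤ η * c.PR := by
    have h1 : d / (1 - d) ≤ d * c.od := by
      rw [c.e_od, ← div_eq_mul_inv]
      exact div_le_div_of_nonneg_left hd0 ad (by linarith)
    rw [hy]
    have h2 := mul_le_mul h1 hPR hP0 (by positivity)
    refine h2.trans (le_of_eq ?_)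
    rw [c.e_PR, ← hdR]
    ring
  have hydP : y ≤ c.dP := by
    rw [c.e_dP]
    refine hyη.trans ?_
    rw [mul_comm c.PR]
    exact mul_le_mul_of_nonneg_right hηeta hPR0
  have hEe0 : 0 ≤ c.Ee := by
    rw [c.e_Ee]
    have : 0 ≤ c.dP := hy0.trans hydP
    positivity
  have hexp : Real.exp y - 1 ≤ y * c.Ee := by
    rw [c.e_Ee]
    exact exp_Na' hy0 hydP (by linarith)
  have hexp0 : 0 ≤ Real.exp y - 1 := by
    have := Real.add_one_le_exp y
    linarith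
  obtain ⟨f, hf⟩ : ∃ f, f = ‖fT v.e κ (shf κ τ)‖ := ⟨_, rfl⟩
  have hf0 : 0 < f := by rw [hf]; exact fT_norm_pos he hκ hs0
  have hfa : f ≤ ms.fa := by rw [hf]; exact hfa0
  have hQb := o.o_Qb0
  have hfap : 0 < ms.fa := lt_of_lt_of_le hf0 hfa
  have hep1 : Real.exp y - 1 ≤ c.dP * c.Ee :=
    hexp.trans (mul_le_mul_of_nonneg_right hydP hEe0)
  have hep2 : (Real.exp y - 1) * f * ms.Qb ≤ c.dP * c.Ee * ms.fa * ms.Qb := by
    apply mul_le_mul_of_nonneg_right _ hQb.le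
    exact mul_le_mul hep1 hfa hf0.le (hexp0.trans hep1)
  have hden : c.dP * c.Ee * ms.fa * ms.Qb = 1 - c.den := by rw [c.e_den]; ring
  rw [hden] at hep2
  refine ⟨(Real.exp y - 1) * f / (1 - (Real.exp y - 1) * f * ms.Qb), ?_, ?_, ?_, ?_⟩
  · intro τ' h1 h2
    have := rho_O2 he hκ (τ := τ) (z := τ') (η := η) (d := d) (P := P) (f1 := f) (nq := ms.Qb)
      hτ0 h1 h2 (by rw [G.re, hdR]) hd1 hP (by rw [hf]) o.o_nq (by rw [← hy]; linarith)
    rw [← hy] at this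
    exact this
  · -- numbers
    have h1 : (Real.exp y - 1) * f / (1 - (Real.exp y - 1) * f * ms.Qb) ≤
        (η * c.PR * c.Ee) * f / c.den := by
      apply div_le_div₀ _ _ aden (by linarith)
      · positivity
      · apply mul_le_mul_of_nonneg_right _ hf0.le
        exact hexp.trans (mul_le_mul_of_nonneg_right hyη hEe0)
    refine h1.trans ?_
    have e1 : η * c.PR * c.Ee * f / c.den = c.PR * c.Ee * v.ei * c.den⁻¹ * (f * (v.e * η)) := by
      rw [div_eq_mul_inv]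
      linear_combination (-(η * c.PR * c.Ee * f * c.den⁻¹)) * heie
    rw [e1]
    have h2 := etaF G hphu o F hgR hfa0
    rw [← hf] at h2
    have h3 : 0 ≤ c.PR * c.Ee * v.ei * c.den⁻¹ := by positivity
    refine (mul_le_mul_of_nonneg_left h2 h3).trans (le_of_eq ?_)
    rw [c.e_FX, m.e_XLt, c.e_fbt, c.e_sl, c.e_C, v.e_h1, v.e_tu2, v.e_tu]
    have hop' : v.op1⁻¹ * v.op1 = 1 := inv_mul_cancel₀ hop.ne'
    have hu' : v.u⁻¹ * v.u = 1 := inv_mul_cancel₀ hu.ne'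
    obtain ⟨S, hS⟩ : ∃ S, S = v.e * ms.fa * v.om1 * m.bte + m.ka * v.h1t * v.u⁻¹ * g * ms.lsf +
      ms.fa * m.lfk * phu := ⟨_, rfl⟩
    obtain ⟨C, hC⟩ : ∃ C, C = c.PR * c.Ee * m.NN * v.ei * c.den⁻¹ := ⟨_, rfl⟩
    rw [← hS, ← hC]
    rw [show c.PR * c.Ee * v.ei * c.den⁻¹ * (m.NN * (v.t * v.u * (v.t * v.u) * v.om1 ^ 2 * m.bte *
      (v.e * ms.fa) + v.t * v.u * m.ka * (v.om1 * v.t * v.h1t * g * ms.lsf) +
      v.t * v.u * (v.t * v.u) * v.om1 * (m.lfk * phu) * ms.fa +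
      v.t * v.u * (m.ka * m.iX + m.kb * ms.fa * ms.Qb * m.iQX) * X)) =
      C * ((v.t * v.u * (v.t * v.u) * v.om1 ^ 2 * m.bte *
      (v.e * ms.fa) + v.t * v.u * m.ka * (v.om1 * v.t * v.h1t * g * ms.lsf) +
      v.t * v.u * (v.t * v.u) * v.om1 * (m.lfk * phu) * ms.fa +
      v.t * v.u * (m.ka * m.iX + m.kb * ms.fa * ms.Qb * m.iQX) * X)) by rw [hC]; ring]
    linear_combination (-(C * v.u ^ 2 * v.t ^ 2 * v.om1 * S * (v.op1⁻¹ * v.op1))) * hiA -
      (C * v.u ^ 2 * v.t ^ 2 * v.om1 * S) * hop' -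
      (C * v.u * v.t ^ 2 * v.om1 * m.ka * v.h1t * g * ms.lsf) * hu' -
      (C * v.u ^ 2 * v.t ^ 2 * v.om1) * hS
  · rw [c.e_fbt, c.e_C]
    have := o.o_ka0
    have := o.o_kb0
    have := o.o_iX0
    have := o.o_iQX0
    have := o.o_NN1
    have : 0 ≤ m.NN := by linarith
    positivity
  · rw [c.e_FX, c.e_C, c.e_sl]
    have := o.o_ka0
    have := o.o_bte0
    have := o.o_lfk0
    have := F.lsf0
    have := o.o_NN1
    have : 0 ≤ m.NN := by linarith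
    have hiA0 : 0 < iA := by
      by_contra hc
      push Not at hc
      nlinarith
    have hh1t : 0 ≤ v.h1t := by
      rw [v.e_h1t, v.e_ioK]
      have := G.cgt
      have := G.K0
      have := G.om0
      positivity
    positivity



/-- the bound of `R1 - 1`, mode C -/
theorem rhoC {τ : ℂ} {v : B1} (G : Geo κ (shf κ τ) v) (hτ0 : 0 < τ.re) {v2 : B2 v}
    {bw A Qb Q1 lsi phu Ei Eh : ℝ} {m : Mb bw v2 A Qb Q1 lsi phu Ei Eh}
    {gap nq rpv : ℝ} (nx : Nx κ (shf κ τ) v gap nq rpv) {iA : ℝ}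
    (c : CC m gap iA) (hiA : A * iA = 1) {X : ℝ}
    {lf Ex ls n1 L1 M2 E0 η : ℝ} (o : Out κ (shf κ τ) m X lf Ex ls n1 L1 M2 E0 η)
    (hlsi0 : 0 ≤ lsi) (arl : 0 < m.rl) (ae2 : 0 < v.aQ - 2 * (v.tu2 * m.eps))
    (azp : 0 < 1 - c.zp) (arr : 0 < (5 / 8) * 1 - c.rr)
    (hphu : 0 ≤ phu) (hX0 : 0 < X) (hA : 0 < A) :
    RhoB κ τ m X η c.fbt c.FX := by
  have he := G.e0
  have hκ := G.κ0
  have hs0 := G.s0
  have hR := G.R0
  have hη0 := o.o_η0
  have htu := G.tu0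
  have ht := G.t0
  have hu := G.u0
  have hop := G.op0
  have hom1 := G.om1_0
  have haQ := G.aQ0
  have hei : 0 < v.ei := by rw [v.e_ei]; positivity
  have heie : v.ei * v.e = 1 := by rw [v.e_ei, inv_mul_cancel₀ he.ne']
  have heta_e : m.eta = v.tu2 * m.eN := m.e_eta
  have hηeta : η ≤ m.eta := by rw [heta_e]; exact o.o_ηe
  have heta : m.eta < v.aQ := lt_aQ G m o.o_eps0 ae2
  have hηQ : η < v.aQ := by linarith
  obtain ⟨d, hd0, hd1, hd2, hdi, hyy⟩ := d2_of G m o.o_η0 o.o_ηe arl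
  have hga := nx.gap0
  have hd' : 0 ≤ d / (1 - d) := div_nonneg hd0 (by linarith)
  obtain ⟨y, hy⟩ : ∃ y, y = d / (1 - d) * gap := ⟨_, rfl⟩
  have hy0 : 0 ≤ y := by rw [hy]; positivity
  have hyzp : y ≤ c.zp := by
    rw [hy, c.e_zp]
    exact mul_le_mul_of_nonneg_right hyy hga
  have hy1 : y < 1 := by linarith
  have hq00 : 0 < c.q0 := by
    rw [c.e_q0]
    have : 0 < v.aQ - m.eta := by linarith
    positivity
  have hkz0 : 0 ≤ (1 - (1 / 2) * c.zp) * (1 - c.zp)⁻¹ := by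
    have : 0 ≤ 1 - (1 / 2) * c.zp := by linarith
    positivity
  -- the first logarithm
  have hl1 : -Real.log (1 - η / v.aQ) ≤ c.q0 * η := by
    have h1 : 0 < 1 - η / v.aQ := by
      rw [sub_pos, div_lt_one haQ]; exact hηQ
    have h2 := Real.one_sub_inv_le_log_of_pos h1
    have h3 : (1 - η / v.aQ)⁻¹ - 1 ≤ c.q0 * η := by
      have h4 : (1 - η / v.aQ)⁻¹ - 1 = η / (v.aQ - η) := by
        have : v.aQ - η ≠ 0 := by linarith
        have h1' : 1 - η / v.aQ ≠ 0 := h1.ne'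
        field_simp
        ring
      rw [h4, c.e_q0, div_eq_mul_inv, mul_comm]
      apply mul_le_mul_of_nonneg_right _ hη0
      exact inv_anti₀ (by linarith) (by linarith)
    linarith
  -- the second logarithm
  have hl2 : -Real.log (1 - y) ≤ y * ((1 - (1 / 2) * c.zp) * (1 - c.zp)⁻¹) :=
    log_kz' hy0 hyzp (by linarith)
  have hyb : y ≤ gap * m.irl * v.R⁻¹ * η := by
    rw [hy]
    have := mul_le_mul_of_nonneg_right hdi hga
    linarith
  have hex : v.e * (-Real.log (1 - η / v.aQ)) - Real.log (1 - y) ≤ c.C1 * η := by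
    have h1 := mul_le_mul_of_nonneg_left hl1 he.le
    have h2 := mul_le_mul_of_nonneg_right hyb hkz0
    rw [c.e_C1]
    linarith
  have hC10 : 0 ≤ c.C1 := by
    rw [c.e_C1]
    have hirl : 0 < m.irl := by rw [m.e_irl]; positivity
    positivity
  have hex0 : 0 ≤ c.C1 * η := by positivity
  have hrr : c.C1 * η ≤ c.rr := by
    rw [c.e_rr]; exact mul_le_mul_of_nonneg_left hηeta hC10
  have hexp : Real.exp (v.e * (-Real.log (1 - η / v.aQ)) - Real.log (1 - y)) - 1 ≤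
      c.C1 * η * (1 + c.rr * ((1 / 2) + (13 / 64) * c.rr)) := by
    have h1 := Real.exp_le_exp.2 hex
    have h2 := exp_Na' hex0 hrr (by linarith)
    linarith
  have hrr0 : 0 ≤ c.rr := hex0.trans hrr
  refine ⟨Real.exp (v.e * (-Real.log (1 - η / v.aQ)) - Real.log (1 - y)) - 1, ?_, ?_, ?_, ?_⟩
  · intro τ' h1 h2
    have := rho_O1 he hκ (τ := τ) (z := τ') (η := η) (d := d) (γ := gap)
      hτ0 h1 h2 (by rw [G.Qn]; exact hηQ) hd2 hd1 nx.γ (by rw [← hy]; exact hy1)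
    rw [G.Qn, ← hy] at this
    exact this
  · refine hexp.trans ?_
    have h3 : 0 ≤ c.C1 * (1 + c.rr * ((1 / 2) + (13 / 64) * c.rr)) := by positivity
    have h4 := mul_le_mul_of_nonneg_left o.o_ηV h3
    have e1 : c.C1 * η * (1 + c.rr * ((1 / 2) + (13 / 64) * c.rr)) =
      c.C1 * (1 + c.rr * ((1 / 2) + (13 / 64) * c.rr)) * η := by ring
    rw [e1]
    refine h4.trans (le_of_eq ?_)
    have hop' : v.op1⁻¹ * v.op1 = 1 := inv_mul_cancel₀ hop.ne'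
    obtain ⟨S, hS⟩ : ∃ S, S = v.e * v.om1 * m.bte + m.ka * lsi + m.lfk * phu := ⟨_, rfl⟩
    obtain ⟨F, hF⟩ : ∃ F, F = m.ka * Q1 * m.iX + m.kb * Qb * m.iQX := ⟨_, rfl⟩
    obtain ⟨C', hC'⟩ : ∃ C', C' = c.C1 * (1 + c.rr * ((1 / 2) + (13 / 64) * c.rr)) := ⟨_, rfl⟩
    have hs1 : m.src = S * v.ei := by
      rw [m.e_src, hS]
      linear_combination (-(v.om1 * m.bte)) * heie
    have hf1 : m.fx = F * v.ei := by rw [m.e_fx, hF]
    rw [c.e_FX, m.e_XLt, c.e_fbt, c.e_C, ← hS, ← hF, ← hC', hs1, hf1, v.e_tu2, v.e_tu]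
    linear_combination (-(C' * m.NN * v.ei * v.u ^ 2 * v.t ^ 2 * v.om1 * S * (v.op1⁻¹ * v.op1))) * hiA -
      (C' * m.NN * v.ei * v.u ^ 2 * v.t ^ 2 * v.om1 * S) * hop'
  · have hQ1 : 0 ≤ Q1 := by
      have h1 := o.o_n1Q
      have h2 : 0 ≤ n1 := by rw [o.o_n1]; exact norm_nonneg _
      linarith
    rw [c.e_fbt, c.e_C]
    have := o.o_ka0
    have := o.o_kb0
    have := o.o_iX0
    have := o.o_iQX0
    have := o.o_NN1
    have := o.o_Qb0
    have : 0 ≤ m.NN := by linarith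
    positivity
  · rw [c.e_FX, c.e_C]
    have := o.o_ka0
    have := o.o_bte0
    have := o.o_lfk0
    have := o.o_NN1
    have : 0 ≤ m.NN := by linarith
    have hiA0 : 0 < iA := by
      by_contra hc
      push Not at hc
      nlinarith
    have hh1t : 0 ≤ v.h1t := by
      rw [v.e_h1t, v.e_ioK]
      have := G.cgt
      have := G.K0
      have := G.om0
      positivity
    positivity

/-- the product of the closing -/
theorem Tb_F {s : ℂ} {v : B1} (G : Geo κ s v) {v2 : B2 v}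
    {bw A Qb Q1 lsi phu Ei Eh : ℝ} {m : Mb bw v2 A Qb Q1 lsi phu Ei Eh} (hbw : 0 < bw)
    {gap nq rpv : ℝ} (nx : Nx κ s v gap nq rpv)
    (hε : 0 ≤ m.eps) (hN : 0 ≤ m.NN) (ae2 : 0 < v.aQ - 2 * (v.tu2 * m.eps)) (arl : 0 < m.rl)
    {fbt FX : ℝ} (f : FinS m nq rpv fbt FX) (adri : 0 < (1 / 2) - f.dri) :
    Tb m nq rpv ≤ f.c1 ∧ 0 ≤ f.c1 := by
  have haQ := G.aQ0
  have htu := G.tu0
  have ht := G.t0
  have hop := G.op0
  have heta := lt_aQ G m hε ae2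
  have hm0 : 0 < v.m := by rw [G.m_eq]; exact Real.exp_pos _
  have hP := nx.P0
  have heN : 0 ≤ m.eN := by rw [m.e_eN]; positivity
  have hyy : 0 ≤ m.yy := by
    rw [m.e_yy, m.e_d, m.e_irl]
    positivity
  have hdri : f.dri = m.yy * rpv := f.e_dri
  have hdri0 : 0 ≤ f.dri := by rw [hdri]; positivity
  have hexp := exp_58 hdri0 (by linarith)
  have hnq0 : 0 ≤ nq := (norm_nonneg _).trans nx.nq
  have hβ : m.beta = bw := m.e_beta
  have hK := G.K0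
  have hh := G.h0
  have hLam : 0 ≤ f.Lam := by rw [f.e_Lam, hβ]; positivity
  have hQp : nq * Real.exp (m.yy * rpv) ≤ f.Qp := by
    rw [f.e_Qp, ← hdri]
    exact mul_le_mul_of_nonneg_left hexp hnq0
  have hQe : 0 < v.aQ - m.eta := by linarith
  constructor
  · unfold Tb
    rw [f.e_c1]
    apply mul_le_mul_of_nonneg_right _ (by positivity)
    apply mul_le_mul_of_nonneg_right _ (by positivity)
    apply mul_le_mul_of_nonneg_right _ hm0.le
    have hLe : (1 + (v.h + 1) * (v.K + v.t) * bw)⁻¹ = f.Lam := by rw [f.e_Lam, hβ]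
    rw [hLe]
    exact mul_le_mul_of_nonneg_right hQp hLam
  · rw [f.e_c1, f.e_Qp]
    positivity


end Pool.Agent.helper71.FG
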