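import Pool.Agent.helper71.FG.Reg

/-!
# Far field programs for large `e`: the point theorem
-/

namespace Pool.Agent.helper71.FG

open Complex ComplexConjugate Pool.Agent.helper31.EQ.Y Pool.Agent.helper31.EQ.R
open Pool.Agent.helper12.EQL Pool.Agent.helper12.RP Pool.Agent.helper12.FF Pool.Agent.helper63.FF
open Pool.Agent.helper71.FF (B1 B2 B3 Geo PhiB chain exp_58' exp_neg_le inv_sqrt_le log_ge_pade)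

variable {κ : ℝ}

/-- the common assertions -/
structure Asr {bw : ℝ} {v : B1} {v2 : B2 v} {A Qb Q1 lsi phu Ei Eh : ℝ}
    (m : Mb bw v2 A Qb Q1 lsi phu Ei Eh) : Prop where
  XM : 0 < 1 - m.XM
  QX : 0 < 1 - m.QX
  e2 : 0 < v.aQ - 2 * (v.tu2 * m.eps)
  rl : 0 < m.rl
  l1 : 0 < (5 / 8) * 1 - m.l1
  a0 : 0 < (11 / 32) * 1 - m.a0
  S : 0 < v.op1 - v.tu * m.eN
  V : 0 < m.V
  Rg : 0 < m.Rg
  Rh : 0 < m.Rh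

theorem far_fin {τ : ℂ} {v : B1} (G : Geo κ (shf κ τ) v) {v2 : B2 v}
    {bw A Qb Q1 lsi phu Ei Eh : ℝ} {m : Mb bw v2 A Qb Q1 lsi phu Ei Eh}
    (a : Asr m) {gap nq rpv : ℝ}
    (nx : Nx κ (shf κ τ) v gap nq rpv) {R w : ℝ} (D : PtE bw v.e κ τ R w) (hA : 0 < A) (hlsi : 0 ≤ lsi)
    {lf Ex : ℝ} (hφ : PhiB κ (shf κ τ) v v2 phu Ei Eh lf Ex)
    {ls n1 L1 M2 E0 η : ℝ} (o : Out κ (shf κ τ) m
      (2 * A * Real.sinh κ ^ 2 * R / (1 - R) * ‖shf κ τ + 1‖) lf Ex ls n1 L1 M2 E0 η)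
    {fbt FX c1 fb r Bm : ℝ}
    (hρ : RhoB κ τ m (2 * A * Real.sinh κ ^ 2 * R / (1 - R) * ‖shf κ τ + 1‖) η fbt FX)
    (hT : Tb m nq rpv ≤ c1)
    (hfb : fb = v.t * fbt) (hr : r = fb * m.XM + FX * (v.t * m.XLt))
    (hBm : fb + FX + c1 * (1 + r) = 1 - Bm) (aB : v.t * (1 / 1024) < Bm) :
    FarPt v.e κ (1 - Real.sinh κ / 1024) w (2 * A * Real.sinh κ ^ 2) R (RE v.e κ (w * R)) τ := by
  have he := G.e0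
  have hκ := G.κ0
  have ht := G.t0
  have hs0 := G.s0
  obtain ⟨hX0, hX1, -⟩ := G.X_le v2 hA D.R0 D.R1 rfl
  have hXM : 2 * A * Real.sinh κ ^ 2 * R / (1 - R) * ‖shf κ τ + 1‖ ≤ m.XM := by
    rw [m.e_XM, m.e_Xe]
    exact hX1
  obtain ⟨ρ1, hρ0, hρ1, hfbt, hFX⟩ := hρ
  have hηe : η ≤ m.eta := by rw [m.e_eta]; exact o.o_ηe
  have heN : 0 ≤ m.eN := by
    rw [m.e_eN]
    have := o.o_eps0
    have := o.o_NN1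
    have : 0 ≤ m.NN := by linarith
    positivity
  have hreg := reg_keep G m D o.o_ka0 o.o_lfk0 hlsi hφ.phu0 o.o_NN1 heN a.Rg a.Rh
    o.o_η0 hηe o.o_ηV
  refine far_close G D.bw0 nx hA D.R0 D.R1 D.R2 D.τ0 rfl D.w o a.S a.rl a.e2 a.V hXM
    (fun τ' _ h2 => hreg τ' h2) hρ0 (fb := fb) (FX := FX) (r := r) ?_ hT ?_ hFX hr ?_
  · rw [hfb]; exact hρ1
  · rw [hfb]; positivity
  · rw [hBm]
    have h1 := G.K_le_t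
    rw [G.K] at h1
    linarith

/-- mode F -/
theorem far_F {τ : ℂ} {v : B1} (G : Geo κ (shf κ τ) v) {v2 : B2 v} {cc : ℝ} {b : GC v.q cc v.h1}
    {bw A g ga phu Ei Eh : ℝ} {ms : Ms v b g ga} {m : Mb bw v2 A ms.Qb ms.Q1 ms.lsi phu Ei Eh}
    (a : Asr m) {gap nq rpv : ℝ} (nx : Nx κ (shf κ τ) v gap nq rpv)
    (hcc : CosB v.x cc) (ao2 : 0 < b.o2) (aW : 0 < b.W) (ahg : 0 < 1 - ms.hg)
    {R w : ℝ} (D : PtE bw v.e κ τ R w) (hA : 0 < A) {iA : ℝ} (hiA : A * iA = 1)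
    (hg : g = (1 / 2) * ((1 - v.q) * b.q1 * b.W⁻¹)) (hga : ga = g * (g + (1 / 2))⁻¹)
    {lf Ex : ℝ} (hφ : PhiB κ (shf κ τ) v v2 phu Ei Eh lf Ex)
    (c : CF ms m iA) (f : FinS m nq rpv c.fbt c.FX)
    (adri : 0 < (1 / 2) - f.dri) (ad : 0 < 1 - m.d) (aden : 0 < c.den)
    (adP : 0 < (5 / 8) * 1 - c.dP) (aB : 0 < f.Bm - (1 / 1024) * v.t) :
    FarPt v.e κ (1 - Real.sinh κ / 1024) w (2 * A * Real.sinh κ ^ 2) R (RE v.e κ (w * R)) τ := by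
  have he := G.e0
  have hκ := G.κ0
  have hs0 := G.s0
  obtain ⟨hτ0, -⟩ := reg_s hκ D.R2.le D.τ0
  obtain ⟨hgR, hg0⟩ := gR_FC G hcc ao2 aW hg
  have hγ := gam_FC G hcc ao2 aW hg hga
  have hfa0 : ‖fT v.e κ (shf κ τ)‖ ≤ ms.fa := by
    rw [ms.e_fa]; exact fa_FC G hcc ao2 aW hgR
  obtain ⟨hX0, hX1, -⟩ := G.X_le v2 hA D.R0 D.R1 rfl
  have hXM : 2 * A * Real.sinh κ ^ 2 * R / (1 - R) * ‖shf κ τ + 1‖ ≤ m.XM := by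
    rw [m.e_XM, m.e_Xe]
    exact hX1
  obtain ⟨ls, n1, L1, M2, E0, η, o, F⟩ := mid_out G ms m hA hγ (nqb G ms hγ).2.2.2 a.XM a.QX a.e2 ahg
    a.l1 a.a0 hφ.lf0 hφ.Ex0 hφ.Ei0 hφ.Eh0 hφ.phu0 hφ.lf1 hX0 hXM
  refine far_fin G a nx D hA F.lsi0 hφ o (fbt := c.fbt) (FX := c.FX) (c1 := f.c1) (fb := f.fb)
    (r := f.r) (Bm := f.Bm) ?_ ?_ f.e_fb f.e_r ?_ ?_
  · exact rhoF G hτ0 c hiA o F ahg ad aden adP hφ.phu0 hX0 hA hg0 hgR hfa0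
  · exact (Tb_F G D.bw0 nx o.o_eps0 (by linarith [o.o_NN1]) a.e2 a.rl f adri).1
  · rw [f.e_Bm]; ring
  · linarith

/-- mode C, general data -/
theorem far_C0 {τ : ℂ} {v : B1} (G : Geo κ (shf κ τ) v) {v2 : B2 v}
    {bw A Qb Q1 lsi phu Ei Eh : ℝ} {m : Mb bw v2 A Qb Q1 lsi phu Ei Eh}
    (a : Asr m) {gap nq rpv : ℝ} (nx : Nx κ (shf κ τ) v gap nq rpv)
    {R w : ℝ} (D : PtE bw v.e κ τ R w) (hA : 0 < A) {iA : ℝ} (hiA : A * iA = 1)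
    {ls : ℝ} (hls : ‖log (fT v.e κ (shf κ τ)) - log (fT v.e κ (shf κ (shf κ τ)))‖ ≤ ls)
    (hlsm : ls ≤ m.ls) (hlsi0 : 0 ≤ lsi) (hnq : ‖qq v.e κ (shf κ τ)‖ ≤ Qb) (hQb0 : 0 < Qb)
    (hn1Q : ‖1 + qq v.e κ (shf κ τ)‖ ≤ Q1)
    {lf Ex : ℝ} (hφ : PhiB κ (shf κ τ) v v2 phu Ei Eh lf Ex)
    (c : CC m gap iA) (f : FinS m nq rpv c.fbt c.FX)
    (adri : 0 < (1 / 2) - f.dri) (azp : 0 < 1 - c.zp)
    (arr : 0 < (5 / 8) * 1 - c.rr) (aB : 0 < f.Bm - (1 / 1024) * v.t) :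
    FarPt v.e κ (1 - Real.sinh κ / 1024) w (2 * A * Real.sinh κ ^ 2) R (RE v.e κ (w * R)) τ := by
  have hκ := G.κ0
  obtain ⟨hτ0, -⟩ := reg_s hκ D.R2.le D.τ0
  obtain ⟨hX0, hX1, -⟩ := G.X_le v2 hA D.R0 D.R1 rfl
  have hXM : 2 * A * Real.sinh κ ^ 2 * R / (1 - R) * ‖shf κ τ + 1‖ ≤ m.XM := by
    rw [m.e_XM, m.e_Xe]
    exact hX1
  obtain ⟨n1, L1, M2, E0, η, o⟩ := mid_core G m hA hls hlsm hlsi0 hnq hQb0 hn1Q a.XM a.QX a.e2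
    a.l1 a.a0 hφ.lf0 hφ.Ex0 hφ.Ei0 hφ.Eh0 hφ.phu0 hφ.lf1 hX0 hXM
  refine far_fin G a nx D hA hlsi0 hφ o (fbt := c.fbt) (FX := c.FX) (c1 := f.c1) (fb := f.fb)
    (r := f.r) (Bm := f.Bm) ?_ ?_ f.e_fb f.e_r ?_ ?_
  · exact rhoC G hτ0 nx c hiA o hlsi0 a.rl a.e2 azp arr hφ.phu0 hX0 hA
  · exact (Tb_F G D.bw0 nx o.o_eps0 (by linarith [o.o_NN1]) a.e2 a.rl f adri).1
  · rw [f.e_Bm]; ring
  · linarith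

/-- mode C -/
theorem far_C {τ : ℂ} {v : B1} (G : Geo κ (shf κ τ) v) {v2 : B2 v} {cc : ℝ} {b : GC v.q cc v.h1}
    {bw A Q1 g ga phu Ei Eh : ℝ} {ms : Ms v b g ga} {m : Mb bw v2 A ms.Qb Q1 ms.lsi phu Ei Eh}
    (a : Asr m) {gap nq rpv : ℝ} (nx : Nx κ (shf κ τ) v gap nq rpv)
    (hγ : gam v.e κ (shf κ τ) ≤ ga) (hn1Q : ‖1 + qq v.e κ (shf κ τ)‖ ≤ Q1)
    (ahg : 0 < 1 - ms.hg)
    {R w : ℝ} (D : PtE bw v.e κ τ R w) (hA : 0 < A) {iA : ℝ} (hiA : A * iA = 1)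
    {lf Ex : ℝ} (hφ : PhiB κ (shf κ τ) v v2 phu Ei Eh lf Ex)
    (c : CC m gap iA) (f : FinS m nq rpv c.fbt c.FX)
    (adri : 0 < (1 / 2) - f.dri) (azp : 0 < 1 - c.zp)
    (arr : 0 < (5 / 8) * 1 - c.rr) (aB : 0 < f.Bm - (1 / 1024) * v.t) :
    FarPt v.e κ (1 - Real.sinh κ / 1024) w (2 * A * Real.sinh κ ^ 2) R (RE v.e κ (w * R)) τ := by
  have hκ := G.κ0
  obtain ⟨hτ0, -⟩ := reg_s hκ D.R2.le D.τ0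
  obtain ⟨hX0, hX1, -⟩ := G.X_le v2 hA D.R0 D.R1 rfl
  have hXM : 2 * A * Real.sinh κ ^ 2 * R / (1 - R) * ‖shf κ τ + 1‖ ≤ m.XM := by
    rw [m.e_XM, m.e_Xe]
    exact hX1
  obtain ⟨ls, n1, L1, M2, E0, η, o, F⟩ := mid_out G ms m hA hγ hn1Q a.XM a.QX a.e2 ahg
    a.l1 a.a0 hφ.lf0 hφ.Ex0 hφ.Ei0 hφ.Eh0 hφ.phu0 hφ.lf1 hX0 hXM
  refine far_fin G a nx D hA F.lsi0 hφ o (fbt := c.fbt) (FX := c.FX) (c1 := f.c1) (fb := f.fb)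
    (r := f.r) (Bm := f.Bm) ?_ ?_ f.e_fb f.e_r ?_ ?_
  · exact rhoC G hτ0 nx c hiA o F.lsi0 a.rl a.e2 azp arr hφ.phu0 hX0 hA
  · exact (Tb_F G D.bw0 nx o.o_eps0 (by linarith [o.o_NN1]) a.e2 a.rl f adri).1
  · rw [f.e_Bm]; ring
  · linarith

end Pool.Agent.helper71.FG
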