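import Pool.Agent.helper71.FF.AppB

/-!
# Far field programs for large `e`: the block of `γ`, the next point
-/

namespace Pool.Agent.helper71.FG

open Complex ComplexConjugate Pool.Agent.helper31.EQ.Y Pool.Agent.helper31.EQ.R
open Pool.Agent.helper12.EQL Pool.Agent.helper12.RP Pool.Agent.helper12.FF Pool.Agent.helper63.FF
open Pool.Agent.helper71.FF (B1 B2 B3 Geo cos_ge_cc one_sub_exp_le log_one_half shf_re')

variable {κ : ℝ}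

/-- the block of `γ`; `cc` is a lower bound of the cosine -/
structure GC (q cc h1 : ℝ) where
  q1 : ℝ
  o2 : ℝ
  P1 : ℝ
  qh : ℝ
  W : ℝ
  e_q1 : q1 = q + 1
  e_o2 : o2 = q * q + 1 + 2 * (q * cc)
  e_P1 : P1 = o2 * q1⁻¹ + q1
  e_qh : qh = (1 / 2) * (q * h1)
  e_W : W = o2 - qh * P1

theorem exGC (q cc h1 : ℝ) : Nonempty (GC q cc h1) := by
  obtain ⟨q1, e_q1⟩ : ∃ zz : ℝ, zz = q + 1 := ⟨_, rfl⟩
  obtain ⟨o2, e_o2⟩ : ∃ zz : ℝ, zz = q * q + 1 + 2 * (q * cc) := ⟨_, rfl⟩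
  obtain ⟨P1, e_P1⟩ : ∃ zz : ℝ, zz = o2 * q1⁻¹ + q1 := ⟨_, rfl⟩
  obtain ⟨qh, e_qh⟩ : ∃ zz : ℝ, zz = (1 / 2) * (q * h1) := ⟨_, rfl⟩
  obtain ⟨W, e_W⟩ : ∃ zz : ℝ, zz = o2 - qh * P1 := ⟨_, rfl⟩
  exact ⟨⟨q1, o2, P1, qh, W, e_q1, e_o2, e_P1, e_qh, e_W⟩⟩

/-- `cc` is a lower bound of the cosine of the angles with `α² ≤ x` -/
def CosB (x cc : ℝ) : Prop := ∀ α : ℝ, α ^ 2 ≤ x → cc ≤ Real.cos α

theorem cosB_p {x cc : ℝ} (h : cc = 1 - x * ((1 / 2) - x * ((21845 / 524288) - (11651 / 8388608) * x))) :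
    CosB x cc := fun _ hα => by rw [h]; exact cos_ge_cc hα

theorem cosB_m {x cc : ℝ} (h : cc = -1) : CosB x cc := fun α _ => by
  rw [h]; exact Real.neg_one_le_cos α

/-- **The block of `γ`** -/
theorem gc_le {e κ : ℝ} (he : 0 < e) (hκ : 0 < κ) {z : ℂ} (hz : 0 < z.re) {q cc hh : ℝ} (b : GC q cc hh)
    (hq : qa e κ z = q) (hcc : cc ≤ Real.cos (e * (Qk κ z).arg)) (hh1 : h1 κ z = hh)
    (hq1 : q < 1) (ho2 : 0 < b.o2) (hW : 0 < b.W) :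
    gR e κ z ≤ (1 / 2) * ((1 - q) * b.q1 * b.W⁻¹) ∧
      ∀ g, gR e κ z ≤ g → ‖fT e κ z‖ ≤ (b.qh * g + (1 / 2)) * b.P1 * b.o2⁻¹ := by
  have hq0 : 0 ≤ q := by rw [← hq]; exact qa_nonneg z
  have hh0 : 0 ≤ hh := by rw [← hh1]; exact h1_nonneg hκ hz
  have hO := Pool.Agent.helper71.FF.oo_sq (e := e) hκ hz
  rw [hq] at hO
  have hq1' : 0 < b.q1 := by rw [b.e_q1]; linarith
  have h1 : b.o2 ≤ oo e κ z ^ 2 := by
    rw [hO, b.e_o2]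
    nlinarith [mul_le_mul_of_nonneg_left hcc hq0]
  obtain ⟨o, ho⟩ : ∃ o, o = oo e κ z := ⟨_, rfl⟩
  have ho0 : 0 ≤ o := by rw [ho]; exact norm_nonneg _
  rw [← ho] at h1
  have hop : 0 < o := by
    rcases ho0.lt_or_eq with h | h
    · exact h
    · rw [← h] at h1; nlinarith
  -- AM-GM
  have hAM : 2 * o * b.q1 ≤ o ^ 2 + b.q1 ^ 2 := by nlinarith [sq_nonneg (o - b.q1)]
  have hqh : 0 ≤ b.qh := by rw [b.e_qh]; positivity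
  have hP1 : b.P1 * b.q1 = b.o2 + b.q1 ^ 2 := by
    rw [b.e_P1, add_mul, mul_assoc, inv_mul_cancel₀ hq1'.ne']; ring
  have hP1' : 0 < b.P1 := by
    by_contra h
    push Not at h
    nlinarith [mul_nonpos_of_nonpos_of_nonneg h hq1'.le, sq_nonneg b.q1]
  have hW' := b.e_W
  -- 1 - qh/q1 > 0
  have hk : b.qh < b.q1 := by
    by_contra h
    push Not at h
    have h2 : b.q1 * b.P1 ≤ b.qh * b.P1 := mul_le_mul_of_nonneg_right h hP1'.le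
    have h3 : b.q1 * b.P1 = b.o2 + b.q1 ^ 2 := by rw [mul_comm]; exact hP1
    nlinarith [sq_nonneg b.q1]
  -- lower bound of o (o - q h)
  have key : b.W ≤ o * (o - q * hh) := by
    have e1 : q * hh = 2 * b.qh := by rw [b.e_qh]; ring
    rw [e1, hW']
    -- o² - 2 qh o ≥ o² - qh (o²/q1 + q1) ≥ o2 - qh P1
    have h5 : b.q1 * (b.o2 - b.qh * b.P1) ≤ b.q1 * (o * (o - 2 * b.qh)) := by
      have e2 : b.q1 * (b.o2 - b.qh * b.P1) = b.q1 * b.o2 - b.qh * (b.P1 * b.q1) := by ring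
      rw [e2, hP1]
      nlinarith [mul_le_mul_of_nonneg_left hAM hqh, mul_nonneg (sub_nonneg.2 hk.le) (sub_nonneg.2 h1)]
    exact le_of_mul_le_mul_left h5 hq1'
  have hlt : q * hh < o := by
    have h6 : 0 < o * (o - q * hh) := lt_of_lt_of_le hW key
    have := (mul_pos_iff_of_pos_left hop).1 h6
    linarith
  have hH := H2 he hκ hz (by rw [hq, hh1, ← ho]; exact hlt)
  rw [hq, hh1, ← ho] at hH
  obtain ⟨hg1, hg2⟩ := hH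
  refine ⟨hg1.trans ?_, fun g hg => hg2.trans ?_⟩
  · have e3 : (1 - q ^ 2) / (2 * o * (o - q * hh)) = (1 / 2) * ((1 - q) * b.q1 * (o * (o - q * hh))⁻¹) := by
      rw [b.e_q1, div_eq_mul_inv, mul_assoc 2 o, mul_inv]
      ring
    rw [e3]
    have h7 : (o * (o - q * hh))⁻¹ ≤ b.W⁻¹ := inv_anti₀ hW key
    have h8 : 0 ≤ (1 - q) * b.q1 := mul_nonneg (by linarith) hq1'.le
    have := mul_le_mul_of_nonneg_left h7 h8
    linarith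
  · have hg0 := (gR_pos he hκ hz).le
    have h9 : 1 + q * hh * gR e κ z ≤ 2 * (b.qh * g + 1 / 2) := by
      have e4 : q * hh = 2 * b.qh := by rw [b.e_qh]; ring
      rw [e4]
      nlinarith [mul_le_mul_of_nonneg_left hg hqh]
    have h10 : 0 ≤ 1 + q * hh * gR e κ z := by positivity
    rw [div_le_iff₀ hop]
    -- 1 ≤ P1 o /(2 o2)
    have h11 : 2 * b.o2 ≤ b.P1 * o := by
      -- P1 q1 = o2 + q1² ≥ ...; (o2 + q1²) o ≥ 2 o2 q1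
      have h12 : b.q1 * (2 * b.o2) ≤ b.q1 * (b.P1 * o) := by
        have e5 : b.q1 * (b.P1 * o) = (b.P1 * b.q1) * o := by ring
        rw [e5, hP1]
        have h13 : Real.sqrt b.o2 ≤ o := Real.sqrt_le_iff.2 ⟨ho0, h1⟩
        have h14 : Real.sqrt b.o2 ^ 2 = b.o2 := Real.sq_sqrt ho2.le
        have h15 : 0 < Real.sqrt b.o2 := Real.sqrt_pos.2 ho2
        obtain ⟨w, hw⟩ : ∃ w, w = Real.sqrt b.o2 := ⟨_, rfl⟩
        rw [← hw] at h13 h14 h15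
        rw [← h14]
        have h16 : (w ^ 2 + b.q1 ^ 2) * w ≤ (w ^ 2 + b.q1 ^ 2) * o :=
          mul_le_mul_of_nonneg_left h13 (by positivity)
        nlinarith [mul_nonneg h15.le (sq_nonneg (w - b.q1))]
      exact le_of_mul_le_mul_left h12 hq1'
    have h17 : 1 ≤ b.P1 * b.o2⁻¹ * o / 2 := by
      rw [le_div_iff₀ (by norm_num), one_mul]
      have : b.P1 * b.o2⁻¹ * o = b.P1 * o / b.o2 := by field_simp
      rw [this, le_div_iff₀ ho2]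
      linarith
    have h18 : (b.qh * g + 1 / 2) * b.P1 * b.o2⁻¹ * o =
        2 * (b.qh * g + 1 / 2) * (b.P1 * b.o2⁻¹ * o / 2) := by ring
    rw [h18]
    have h19 : 0 ≤ 2 * (b.qh * g + 1 / 2) := h10.trans h9
    calc 1 + q * hh * gR e κ z ≤ 2 * (b.qh * g + 1 / 2) * 1 := by linarith
      _ ≤ _ := mul_le_mul_of_nonneg_left h17 h19

/-- the value `g`, mode H -/
structure HC (v : B1) {cc : ℝ} (b : GC v.q cc v.h1) where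
  iW : ℝ
  rhoR : ℝ
  x2 : ℝ
  G : ℝ
  g : ℝ
  gR : ℝ
  ga : ℝ
  e_iW : iW = b.W⁻¹
  e_rhoR : rhoR = v.ee * v.Dt * (v.D + 6) * (4 * v.D + 6)⁻¹
  e_x2 : x2 = 2 * (v.R * rhoR)
  e_G : G = rhoR * (1 - x2 * ((1 / 2) - (2731 / 16384) * x2)) * iW
  e_g : g = v.R * G
  e_gR : gR = G * (g + (1 / 2))⁻¹
  e_ga : ga = v.R * gR

theorem exHC (v : B1) {cc : ℝ} (b : GC v.q cc v.h1) : Nonempty (HC v b) := by
  obtain ⟨iW, e_iW⟩ : ∃ zz : ℝ, zz = b.W⁻¹ := ⟨_, rfl⟩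
  obtain ⟨rhoR, e_rhoR⟩ : ∃ zz : ℝ, zz = v.ee * v.Dt * (v.D + 6) * (4 * v.D + 6)⁻¹ := ⟨_, rfl⟩
  obtain ⟨x2, e_x2⟩ : ∃ zz : ℝ, zz = 2 * (v.R * rhoR) := ⟨_, rfl⟩
  obtain ⟨G, e_G⟩ : ∃ zz : ℝ, zz = rhoR * (1 - x2 * ((1 / 2) - (2731 / 16384) * x2)) * iW := ⟨_, rfl⟩
  obtain ⟨g, e_g⟩ : ∃ zz : ℝ, zz = v.R * G := ⟨_, rfl⟩
  obtain ⟨gR, e_gR⟩ : ∃ zz : ℝ, zz = G * (g + (1 / 2))⁻¹ := ⟨_, rfl⟩
  obtain ⟨ga, e_ga⟩ : ∃ zz : ℝ, zz = v.R * gR := ⟨_, rfl⟩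
  exact ⟨⟨iW, rhoR, x2, G, g, gR, ga, e_iW, e_rhoR, e_x2, e_G, e_g, e_gR, e_ga⟩⟩

/-- `γ` at the next point -/
structure NC {v : B1} (v3 : B3 v) {cc : ℝ} (b : GC v.qp cc v3.hp) where
  gp : ℝ
  gap : ℝ
  hgp : ℝ
  e_gp : gp = (1 / 2) * ((1 - v.qp) * b.q1 * b.W⁻¹)
  e_gap : gap = gp * (gp + (1 / 2))⁻¹
  e_hgp : hgp = v3.hp * gap

theorem exNC {v : B1} (v3 : B3 v) {cc : ℝ} (b : GC v.qp cc v3.hp) : Nonempty (NC v3 b) := by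
  obtain ⟨gp, e_gp⟩ : ∃ zz : ℝ, zz = (1 / 2) * ((1 - v.qp) * b.q1 * b.W⁻¹) := ⟨_, rfl⟩
  obtain ⟨gap, e_gap⟩ : ∃ zz : ℝ, zz = gp * (gp + (1 / 2))⁻¹ := ⟨_, rfl⟩
  obtain ⟨hgp, e_hgp⟩ : ∃ zz : ℝ, zz = v3.hp * gap := ⟨_, rfl⟩
  exact ⟨⟨gp, gap, hgp, e_gp, e_gap, e_hgp⟩⟩

/-- `gR ≤ g`, mode H -/
theorem gR_HC {s : ℂ} {v : B1} (G : Geo κ s v) {cc : ℝ} {b : GC v.q cc v.h1} (hb : HC v b)
    (hcc : CosB v.x cc) (ho2 : 0 < b.o2) (hW : 0 < b.W) : gR v.e κ s ≤ hb.g := by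
  have he := G.e0
  have hκ := G.κ0
  obtain ⟨hgb, -⟩ := gc_le he hκ G.s0 b G.q_eq (hcc _ G.argx) G.h1_eq G.q_lt ho2 hW
  refine hgb.trans ?_
  have hR := G.R0
  have hrho := G.rhoR_ge
  rw [← hb.e_rhoR] at hrho
  have hrho0 := G.rho0
  have h1 : (1 - v.q) * b.q1 = 1 - Real.exp (-(2 * v.rho)) := by
    rw [b.e_q1, v.e_q]
    have : Real.exp (-(2 * v.rho)) = Real.exp (-v.rho) * Real.exp (-v.rho) := by
      rw [← Real.exp_add]; congr 1; ring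
    rw [this]; ring
  have h2 : Real.exp (-hb.x2) ≤ Real.exp (-(2 * v.rho)) := by
    apply Real.exp_le_exp.2
    rw [hb.e_x2]
    linarith
  have hx0 : 0 ≤ hb.x2 := by rw [hb.e_x2]; linarith
  have h3 := one_sub_exp_le hx0
  have hiW : 0 < b.W⁻¹ := by positivity
  have h4 : (1 - v.q) * b.q1 ≤ hb.x2 * (1 - hb.x2 * ((1 / 2) - (2731 / 16384) * hb.x2)) := by
    rw [h1]; linarith
  have h5 := mul_le_mul_of_nonneg_right h4 hiW.le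
  have e1 : hb.g = (1 / 2) * (hb.x2 * (1 - hb.x2 * ((1 / 2) - (2731 / 16384) * hb.x2)) * b.W⁻¹) := by
    rw [hb.e_g, hb.e_G, hb.e_iW]
    have := hb.e_x2
    linear_combination (-(1 / 2) * (1 - hb.x2 * ((1 / 2) - (2731 / 16384) * hb.x2)) * b.W⁻¹) * this
  rw [e1]
  linarith

theorem ga_HC {v : B1} {cc : ℝ} {b : GC v.q cc v.h1} (hb : HC v b) :
    hb.ga = hb.g * (hb.g + (1 / 2))⁻¹ := by
  rw [hb.e_ga, hb.e_gR]
  nth_rewrite 2 [hb.e_g]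
  ring

theorem gam_HC {s : ℂ} {v : B1} (G : Geo κ s v) {cc : ℝ} {b : GC v.q cc v.h1} (hb : HC v b)
    (hcc : CosB v.x cc) (ho2 : 0 < b.o2) (hW : 0 < b.W) : gam v.e κ s ≤ hb.ga := by
  have := gam_of G.e0 G.κ0 G.s0 (gR_HC G hb hcc ho2 hW)
  rw [ga_HC hb, ← div_eq_mul_inv, add_comm hb.g]
  exact this

theorem gR_FC {s : ℂ} {v : B1} (G : Geo κ s v) {cc : ℝ} {b : GC v.q cc v.h1} {g : ℝ}
    (hcc : CosB v.x cc) (ho2 : 0 < b.o2) (hW : 0 < b.W)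
    (hg : g = (1 / 2) * ((1 - v.q) * b.q1 * b.W⁻¹)) : gR v.e κ s ≤ g ∧ 0 < g := by
  obtain ⟨h1, -⟩ := gc_le G.e0 G.κ0 G.s0 b G.q_eq (hcc _ G.argx) G.h1_eq G.q_lt ho2 hW
  rw [← hg] at h1
  exact ⟨h1, lt_of_lt_of_le (gR_pos G.e0 G.κ0 G.s0) h1⟩

theorem gam_FC {s : ℂ} {v : B1} (G : Geo κ s v) {cc : ℝ} {b : GC v.q cc v.h1} {g ga : ℝ}
    (hcc : CosB v.x cc) (ho2 : 0 < b.o2) (hW : 0 < b.W)
    (hg : g = (1 / 2) * ((1 - v.q) * b.q1 * b.W⁻¹)) (hga : ga = g * (g + (1 / 2))⁻¹) :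
    gam v.e κ s ≤ ga := by
  have := gam_of G.e0 G.κ0 G.s0 (gR_FC G hcc ho2 hW hg).1
  rw [hga, ← div_eq_mul_inv, add_comm g]
  exact this

theorem fa_FC {s : ℂ} {v : B1} (G : Geo κ s v) {cc : ℝ} {b : GC v.q cc v.h1} {g : ℝ}
    (hcc : CosB v.x cc) (ho2 : 0 < b.o2) (hW : 0 < b.W) (hgR : gR v.e κ s ≤ g) :
    ‖fT v.e κ s‖ ≤ (b.qh * g + (1 / 2)) * b.P1 * b.o2⁻¹ :=
  (gc_le G.e0 G.κ0 G.s0 b G.q_eq (hcc _ G.argx) G.h1_eq G.q_lt ho2 hW).2 g hgR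

theorem near_zHC {s : ℂ} {v : B1} (G : Geo κ s v) {cc : ℝ} {b : GC v.q cc v.h1} (hb : HC v b) {z : ℝ}
    (h : z = v.om1 * v.tu * hb.gR * v.nj⁻¹) : z * v.om = v.om1 * hb.ga := by
  have h1 := hb.e_ga
  have h2 : v.nj⁻¹ * v.nj = 1 := inv_mul_cancel₀ G.nj0.ne'
  rw [v.e_R, v.e_u2] at h1
  rw [h, v.e_om, v.e_tu]
  linear_combination (v.om1 * v.t * v.u * hb.gR * v.u) * h2 - v.om1 * h1

theorem near_pHC {s : ℂ} {v : B1} (_G : Geo κ s v) {cc : ℝ} {b : GC v.q cc v.h1} (hb : HC v b)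
    {kz phu phut : ℝ}
    (h : phu = v.t * phut) (h' : phut = v.u * hb.gR * kz) : phu * v.u = hb.ga * kz := by
  have h1 := hb.e_ga
  rw [v.e_R, v.e_u2] at h1
  rw [h, h']
  linear_combination (-kz) * h1

/-- facts at the next point -/
structure Nx (κ : ℝ) (s : ℂ) (v : B1) (gap nq rpv : ℝ) : Prop where
  γ : gam v.e κ (shf κ s) ≤ gap
  gap0 : 0 ≤ gap
  nq : ‖qq v.e κ (shf κ s)‖ ≤ nq
  P : (Pl v.e κ (shf κ s)).re ≤ rpv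
  P0 : 0 ≤ rpv

/-- the next point, `γ ≤ gap` and Harnack -/
theorem nx_gap {s : ℂ} {v : B1} (G : Geo κ s v) (v3 : B3 v) {gap hgp : ℝ}
    (hγ : gam v.e κ (shf κ s) ≤ gap) (e_hgp : hgp = v3.hp * gap) (hh : 0 < (1 / 2) - hgp) :
    Nx κ s v gap (v.qp * (hgp + 1)) (v.rp + hgp * (hgp + 1)) ∧ 0 ≤ hgp := by
  have he := G.e0
  have hκ := G.κ0
  have hs' := shf_re' hκ G.s0
  obtain ⟨hqp1, hrp⟩ := Pool.Agent.helper71.FF.Geo.qp_lt G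
  have hqp0 := G.qp0
  have hp0 := G.hp_0 v3
  have hγ0 := gam_nonneg he hκ hs'
  have hgap0 : 0 ≤ gap := hγ0.trans hγ
  have hhγ : v3.hp * gam v.e κ (shf κ s) ≤ hgp := by
    rw [e_hgp]; exact mul_le_mul_of_nonneg_left hγ hp0
  have hhgp0 : 0 ≤ hgp := by rw [e_hgp]; positivity
  have hhγ0 : 0 ≤ v3.hp * gam v.e κ (shf κ s) := by positivity
  refine ⟨⟨hγ, hgap0, ?_, ?_, by positivity⟩, hhgp0⟩
  · have h := qq_le he hκ hs'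
    rw [G.q_eq', G.hp_eq v3] at h
    refine h.trans ?_
    exact mul_le_mul_of_nonneg_left (by linarith) hqp0.le
  · have h := Pl_re_le he hκ hs' (by rw [G.hp_eq v3]; linarith)
    rw [← G.rp_eq, G.hp_eq v3] at h
    have h2 := log_one_half hhγ0 (by linarith)
    have h3 : v3.hp * gam v.e κ (shf κ s) * (v3.hp * gam v.e κ (shf κ s) + 1) ≤
        hgp * (hgp + 1) := mul_le_mul hhγ (by linarith) (by positivity) hhgp0
    linarith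

/-- the next point, the block of `γ` -/
theorem nx_of {s : ℂ} {v : B1} (G : Geo κ s v) {v3 : B3 v} {cc : ℝ} {b' : GC v.qp cc v3.hp}
    (v4 : NC v3 b') (hcc : CosB v3.xp cc) (ho2 : 0 < b'.o2) (hW : 0 < b'.W)
    (hh : 0 < (1 / 2) - v4.hgp) :
    Nx κ s v v4.gap (v.qp * (v4.hgp + 1)) (v.rp + v4.hgp * (v4.hgp + 1)) ∧ 0 ≤ v4.hgp := by
  have he := G.e0
  have hκ := G.κ0
  have hs' := shf_re' hκ G.s0
  obtain ⟨hqp1, hrp⟩ := Pool.Agent.helper71.FF.Geo.qp_lt G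
  obtain ⟨hg, -⟩ := gc_le he hκ hs' b' G.q_eq' (hcc _ (G.argx' v3)) (G.hp_eq v3) hqp1 ho2 hW
  have hg' : gR v.e κ (shf κ s) ≤ v4.gp := by rw [v4.e_gp]; exact hg
  have hγ : gam v.e κ (shf κ s) ≤ v4.gap := by
    have := gam_of he hκ hs' hg'
    rw [v4.e_gap, ← div_eq_mul_inv, add_comm v4.gp]
    exact this
  exact nx_gap G v3 hγ v4.e_hgp hh

end Pool.Agent.helper71.FG
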