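import Pool.Agent.helper71.FG.Gc

/-!
# Far field programs for large `e`: the sharp bound of `1 + qq`
-/

namespace Pool.Agent.helper71.FG

open Complex ComplexConjugate Pool.Agent.helper31.EQ.Y Pool.Agent.helper31.EQ.R
open Pool.Agent.helper12.EQL Pool.Agent.helper12.RP Pool.Agent.helper12.FF Pool.Agent.helper63.FF
open Pool.Agent.helper71.FF (B1 B2 B3 Geo cos_ge6 sin_le5)

private theorem mono_z {f f' : ℝ → ℝ} (hf : ∀ x, HasDerivAt f (f' x) x)
    (h0 : 0 ≤ f 0) (h : ∀ x, 0 ≤ x → 0 ≤ f' x) {x : ℝ} (hx : 0 ≤ x) : 0 ≤ f x := by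
  have hm : MonotoneOn f (Set.Ici 0) := by
    apply monotoneOn_of_deriv_nonneg (convex_Ici 0)
    · exact fun y _ => (hf y).continuousAt.continuousWithinAt
    · exact fun y _ => (hf y).differentiableAt.differentiableWithinAt
    · intro y hy
      rw [interior_Ici] at hy
      rw [(hf y).deriv]
      exact h y (le_of_lt hy)
  exact h0.trans (hm (Set.mem_Ici.2 le_rfl) (Set.mem_Ici.2 hx) hx)

theorem sin_ge7 {x : ℝ} (hx : 0 ≤ x) :
    0 ≤ Real.sin x - (x - x ^ 3 / 6 + x ^ 5 / 120 - x ^ 7 / 5040) :=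
  mono_z (f := fun x => Real.sin x - (x - x ^ 3 / 6 + x ^ 5 / 120 - x ^ 7 / 5040))
    (f' := fun x => Real.cos x - (1 - x ^ 2 / 2 + x ^ 4 / 24 - x ^ 6 / 720))
    (fun x => by
      have h := (Real.hasDerivAt_sin x).sub ((((hasDerivAt_id x).sub
        ((hasDerivAt_pow 3 x).div_const 6)).add ((hasDerivAt_pow 5 x).div_const 120)).sub
        ((hasDerivAt_pow 7 x).div_const 5040))
      refine h.congr_deriv ?_
      push_cast
      ring) (by simp)
    (fun x hx => cos_ge6 hx) hx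

theorem cos_le8 {x : ℝ} (hx : 0 ≤ x) :
    0 ≤ (1 - x ^ 2 / 2 + x ^ 4 / 24 - x ^ 6 / 720 + x ^ 8 / 40320) - Real.cos x :=
  mono_z (f := fun x => (1 - x ^ 2 / 2 + x ^ 4 / 24 - x ^ 6 / 720 + x ^ 8 / 40320) - Real.cos x)
    (f' := fun x => Real.sin x - (x - x ^ 3 / 6 + x ^ 5 / 120 - x ^ 7 / 5040))
    (fun x => by
      have h := ((((((hasDerivAt_pow 2 x).div_const 2).const_sub 1).add
        ((hasDerivAt_pow 4 x).div_const 24)).sub ((hasDerivAt_pow 6 x).div_const 720)).add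
        ((hasDerivAt_pow 8 x).div_const 40320)).sub (Real.hasDerivAt_cos x)
      refine h.congr_deriv ?_
      push_cast
      ring) (by simp)
    (fun x hx => sin_ge7 hx) hx

/-- the polynomial for upper bounds of the cosine -/
noncomputable def Uc (z : ℝ) : ℝ :=
  1 - z * ((1 / 2) - z * ((10923 / 262144) - z * ((5825 / 4194304) - (1665 / 67108864) * z)))

theorem cos_le_U (α : ℝ) : Real.cos α ≤ Uc (α ^ 2) := by
  have h1 := cos_le8 (abs_nonneg α)
  rw [Real.cos_abs] at h1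
  have e1 : |α| ^ 2 = α ^ 2 := sq_abs α
  have e2 : |α| ^ 4 = (α ^ 2) ^ 2 := by rw [← e1]; ring
  have e3 : |α| ^ 6 = (α ^ 2) ^ 3 := by rw [← e1]; ring
  have e4 : |α| ^ 8 = (α ^ 2) ^ 4 := by rw [← e1]; ring
  rw [e1, e2, e3, e4] at h1
  obtain ⟨y, hy⟩ : ∃ y, y = α ^ 2 := ⟨_, rfl⟩
  rw [← hy] at h1 ⊢
  have hy0 : 0 ≤ y := by rw [hy]; positivity
  unfold Uc
  nlinarith [pow_nonneg hy0 2, pow_nonneg hy0 3, pow_nonneg hy0 4]

theorem U_mono {x y : ℝ} (hy : 0 ≤ y) (h : y ≤ x) : Uc y ≤ Uc x + (x - y) / 2 := by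
  unfold Uc
  have hx : 0 ≤ x := hy.trans h
  obtain ⟨s, hs⟩ : ∃ s, s = x + y := ⟨_, rfl⟩
  have hs0 : 0 ≤ s := by rw [hs]; linarith
  -- the bracket
  have h1 : 0 ≤ (10923 / 262144) - (5825 / 4194304) * s + (1665 / 134217728) * s ^ 2 := by
    nlinarith [sq_nonneg (s - 56)]
  have h2 : 0 ≤ s * ((10923 / 262144) - (5825 / 4194304) * s + (1665 / 134217728) * s ^ 2) :=
    mul_nonneg hs0 h1
  have h3 : s * ((10923 / 262144) - (5825 / 4194304) * s + (1665 / 134217728) * s ^ 2) ≤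
      (10923 / 262144) * (x + y) - (5825 / 4194304) * (x ^ 2 + x * y + y ^ 2) +
        (1665 / 67108864) * (x ^ 3 + x ^ 2 * y + x * y ^ 2 + y ^ 3) := by
    have e1 : (10923 / 262144) * (x + y) - (5825 / 4194304) * (x ^ 2 + x * y + y ^ 2) +
        (1665 / 67108864) * (x ^ 3 + x ^ 2 * y + x * y ^ 2 + y ^ 3) -
        s * ((10923 / 262144) - (5825 / 4194304) * s + (1665 / 134217728) * s ^ 2) =
        (5825 / 4194304) * (x * y) + (1665 / 134217728) * ((x + y) * (x - y) ^ 2) := by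
      rw [hs]; ring
    have h5 : 0 ≤ x * y := mul_nonneg hx hy
    have h6 : 0 ≤ (x + y) * (x - y) ^ 2 := mul_nonneg (by linarith) (sq_nonneg _)
    linarith
  have h4 := mul_nonneg (by linarith : 0 ≤ x - y) (h2.trans h3)
  have e2 : (1 - x * ((1 / 2) - x * ((10923 / 262144) - x * ((5825 / 4194304) -
      (1665 / 67108864) * x)))) + (x - y) / 2 - (1 - y * ((1 / 2) - y * ((10923 / 262144) -
      y * ((5825 / 4194304) - (1665 / 67108864) * y)))) =
      (x - y) * ((10923 / 262144) * (x + y) - (5825 / 4194304) * (x ^ 2 + x * y + y ^ 2) +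
        (1665 / 67108864) * (x ^ 3 + x ^ 2 * y + x * y ^ 2 + y ^ 3)) := by ring
  linarith

theorem arctan_ge {x : ℝ} (hx : 0 ≤ x) : 0 ≤ Real.arctan x - (x - x ^ 3 / 3) :=
  mono_z (f := fun x => Real.arctan x - (x - x ^ 3 / 3))
    (f' := fun x => 1 / (1 + x ^ 2) - (1 - x ^ 2))
    (fun x => by
      have h := (Real.hasDerivAt_arctan x).sub ((hasDerivAt_id x).sub
        ((hasDerivAt_pow 3 x).div_const 3))
      refine h.congr_deriv ?_
      push_cast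
      ring) (by simp)
    (fun x _ => by
      have h1 : 0 < 1 + x ^ 2 := by positivity
      rw [sub_nonneg, le_div_iff₀ h1]
      nlinarith [sq_nonneg (x ^ 2)]) hx

/-- `(arg z)² ≥ v² - 2 v⁴/3`, `v = Im z/Re z` -/
theorem arg_sq_ge {z : ℂ} (hz : 0 < z.re) :
    (z.im / z.re) ^ 2 - 2 / 3 * ((z.im / z.re) ^ 2) ^ 2 ≤ z.arg ^ 2 := by
  have h1 := Complex.tan_arg z
  have h2 : |z.arg| < Real.pi / 2 := by
    rw [Complex.abs_arg_lt_pi_div_two_iff]
    exact Or.inl hz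
  have h3 := abs_lt.1 h2
  have h4 : z.arg = Real.arctan (z.im / z.re) := by
    rw [← h1, Real.arctan_tan h3.1 h3.2]
  obtain ⟨v, hv⟩ : ∃ v, v = z.im / z.re := ⟨_, rfl⟩
  rw [h4, ← hv]
  have h5 := arctan_ge (abs_nonneg v)
  have h6 : Real.arctan |v| ^ 2 = Real.arctan v ^ 2 := by
    rcases abs_cases v with h | h
    · rw [h.1]
    · rw [h.1, Real.arctan_neg]; ring
  rw [← h6, ← sq_abs v]
  obtain ⟨w, hw⟩ : ∃ w, w = |v| := ⟨_, rfl⟩
  have hw0 : 0 ≤ w := by rw [hw]; positivity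
  rw [← hw] at h5 ⊢
  rcases le_total (w - w ^ 3 / 3) 0 with h | h
  · rcases hw0.eq_or_lt with h0 | h0
    · rw [← h0]; norm_num
    · have h7 : 3 ≤ w ^ 2 := by
        have : w * (1 - w ^ 2 / 3) ≤ 0 := by nlinarith
        by_contra hc
        push Not at hc
        have := mul_pos h0 (by linarith : 0 < 1 - w ^ 2 / 3)
        linarith
      nlinarith [sq_nonneg (Real.arctan w)]
  · have h7 : (w - w ^ 3 / 3) ^ 2 ≤ Real.arctan w ^ 2 := pow_le_pow_left₀ h (by linarith) 2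
    nlinarith [pow_nonneg hw0 6]

theorem gam_le_one {e κ : ℝ} (he : 0 < e) (hκ : 0 < κ) {t : ℂ} (ht : 0 < t.re) :
    gam e κ t ≤ 1 := by
  unfold gam gR
  have hf := fT_norm_pos he hκ ht
  rw [div_le_one hf]
  have := Complex.re_le_norm (fT e κ t)
  linarith

variable {κ : ℝ} {s : ℂ} {v : B1}

/-- the sharp bound of `|1 + Q^(-e)|` -/
theorem oo_sharp (G : Geo κ s v) {cu xe o2u ooo : ℝ}
    (e_cu : cu = 1 - v.x * ((1 / 2) - v.x * ((10923 / 262144) - v.x * ((5825 / 4194304) -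
      (1665 / 67108864) * v.x))))
    (e_xe : xe = v.x * v.ei) (e_o2u : o2u = v.q * v.q + 1 + 2 * (v.q * (cu + (43 / 128) * (xe * xe))))
    (e_oo : ooo = Real.exp ((1 / 2) * Real.log (o2u + (1 / 128)))) : oo v.e κ s ≤ ooo := by
  have he := G.e0
  have hκ := G.κ0
  have hc := G.cgt
  have hR := G.R0
  have hO := Pool.Agent.helper71.FF.oo_sq (e := v.e) hκ G.s0
  rw [G.q_eq] at hO
  obtain ⟨φ, hφ⟩ : ∃ φ, φ = v.e * (Qk κ s).arg := ⟨_, rfl⟩
  rw [← hφ] at hO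
  have hx := G.argx
  rw [← hφ] at hx
  have hre : 0 < (Qk κ s).re := by rw [G.Qre]; linarith
  -- φ² ≥ x - 2 x²/(3 e²)
  have h1 := arg_sq_ge hre
  have h2 : ((Qk κ s).im / (Qk κ s).re) ^ 2 * v.e ^ 2 = v.x := by
    rw [G.Qre, G.Qim, div_pow, G.im, v.e_x, v.e_w]
    have h3 : v.c0 + v.R ≠ 0 := by rw [← G.Qre]; exact hre.ne'
    field_simp
  have hei : v.e * v.ei = 1 := by rw [v.e_ei, mul_inv_cancel₀ he.ne']
  obtain ⟨a, ha⟩ : ∃ a, a = ((Qk κ s).im / (Qk κ s).re) ^ 2 := ⟨_, rfl⟩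
  rw [← ha] at h1 h2
  have h3 : v.x - φ ^ 2 ≤ 2 / 3 * (xe * xe) := by
    have e1 : xe = a * v.e := by rw [e_xe, ← h2]; linear_combination (a * v.e) * hei
    have e2 : φ ^ 2 = v.e ^ 2 * (Qk κ s).arg ^ 2 := by rw [hφ]; ring
    have h4 := mul_le_mul_of_nonneg_left h1 (sq_nonneg v.e)
    rw [e1, e2, ← h2]
    nlinarith
  have h4 : Real.cos φ ≤ cu + (43 / 128) * (xe * xe) := by
    have h5 := cos_le_U φ
    have h6 := U_mono (sq_nonneg φ) hx
    have h7 : Uc v.x = cu := by rw [e_cu]; rfl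
    have h8 : 0 ≤ xe * xe := mul_self_nonneg xe
    linarith
  have hq := G.q0
  have h5 : oo v.e κ s ^ 2 ≤ o2u := by
    rw [hO, e_o2u]
    have := mul_le_mul_of_nonneg_left h4 hq.le
    linarith
  have hoo : 0 ≤ oo v.e κ s := norm_nonneg _
  have h6 : 0 < o2u + (1 / 128) := by nlinarith [sq_nonneg (oo v.e κ s)]
  rw [e_oo]
  have h7 : Real.exp ((1 / 2) * Real.log (o2u + (1 / 128))) ^ 2 = o2u + (1 / 128) := by
    rw [← Real.exp_nat_mul]
    have : ((2 : ℕ) : ℝ) * ((1 / 2) * Real.log (o2u + (1 / 128))) =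
        Real.log (o2u + (1 / 128)) := by push_cast; ring
    rw [this, Real.exp_log h6]
  have h8 := Real.exp_pos ((1 / 2) * Real.log (o2u + (1 / 128)))
  by_contra hc
  push Not at hc
  have h9 : Real.exp ((1 / 2) * Real.log (o2u + (1 / 128))) ^ 2 < oo v.e κ s ^ 2 :=
    pow_lt_pow_left₀ hc h8.le (by norm_num)
  rw [h7] at h9
  linarith

/-- the sharp bound of `|1 + qq|` -/
theorem n1_sharp (G : Geo κ s v) {ooo hg : ℝ} (h : oo v.e κ s ≤ ooo)
    (hh : v.h1 * gam v.e κ s ≤ hg) : ‖1 + qq v.e κ s‖ ≤ ooo + v.q * hg := by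
  have he := G.e0
  have hκ := G.κ0
  have hs := G.s0
  have h1 := H3 he hκ hs
  rw [G.h1_eq] at h1
  have h2 : 1 + qq v.e κ s = (1 + Qk κ s ^ (-(v.e : ℂ))) +
      Qk κ s ^ (-(v.e : ℂ)) * (fT v.e κ (shf κ s) / fT v.e κ s - 1) := by
    rw [qq_eq he hκ hs]; ring
  rw [h2]
  refine (norm_add_le _ _).trans ?_
  rw [norm_mul]
  have h3 : ‖Qk κ s ^ (-(v.e : ℂ))‖ = v.q := G.q_eq
  rw [h3]
  have h4 := mul_le_mul_of_nonneg_left (h1.trans hh) G.q0.le
  have h5 : ‖1 + Qk κ s ^ (-(v.e : ℂ))‖ ≤ ooo := h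
  linarith

end Pool.Agent.helper71.FG
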