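import Pool.Agent.helper71.FG.Xb
import Pool.Agent.helper71.FG.Sharp

/-!
# Far field programs for large `e`: displacement of the next position
-/

namespace Pool.Agent.helper71.FG

open Complex ComplexConjugate Pool.Agent.helper31.EQ.Y Pool.Agent.helper31.EQ.R
open Pool.Agent.helper12.EQL Pool.Agent.helper12.RP Pool.Agent.helper12.FF Pool.Agent.helper63.FF
open Pool.Agent.helper71.FF (B1 B2 B3 Geo log_kz')

variable {κ : ℝ}

/-- what the middle part delivers -/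
structure Out (κ : ℝ) (s : ℂ) {bw : ℝ} {v : B1} {v2 : B2 v} {A Qb Q1 lsi phu Ei Eh : ℝ}
    (m : Mb bw v2 A Qb Q1 lsi phu Ei Eh) (X lf Ex ls n1 L1 M2 E0 η : ℝ) : Prop where
  o_X1 : X < 1
  o_ls : ‖log (fT v.e κ s) - log (fT v.e κ (shf κ s))‖ ≤ ls
  o_lf : ‖log (fT v.e κ s) - log (fT v.e κ 1)‖ ≤ lf
  o_nq : ‖qq v.e κ s‖ ≤ Qb
  o_nX : Qb * X < 1
  o_n1 : n1 = ‖1 + qq v.e κ s‖
  o_L1e : L1 = (ls + n1 * (X / (1 - X))) * v.ei
  o_M2e : M2 = (Qb * X / (1 - Qb * X)) * v.ei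
  o_Ex : ‖exp (2 * ((log (fT v.e κ 1) - log (fT v.e κ s)) / v.e))‖ ≤ Ex
  o_E0 : DlB' v.e κ (Qk κ s) L1 M2 lf Ex ≤ 2 * ‖Qk κ s‖ * E0
  o_E0e : E0 = E0v m L1 M2
  o_E1 : 2 * E0 < ‖Qk κ s‖
  o_η : E0 / (1 - E0 / ‖Qk κ s‖) ≤ η
  o_ηd : η = E0 * m.NN
  o_η0 : 0 ≤ η
  o_ηe : η ≤ v.tu2 * m.eN
  o_ηV : η ≤ m.NN * (v.tu2 * v.om1 * m.src + v.tu * m.fx * X)
  o_ls0 : 0 ≤ ls
  o_lsm : ls ≤ m.ls
  o_n1Q : n1 ≤ Q1
  o_Xd : X / (1 - X) ≤ X * m.iX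
  o_QXd : Qb * X / (1 - Qb * X) ≤ Qb * m.iQX * X
  o_Xd0 : 0 ≤ X / (1 - X)
  o_QXd0 : 0 ≤ Qb * X / (1 - Qb * X)
  o_src0 : 0 ≤ m.src
  o_fx0 : 0 ≤ m.fx
  o_NN1 : 1 ≤ m.NN
  o_ka0 : 0 ≤ m.ka
  o_kb0 : 0 ≤ m.kb
  o_bte0 : 0 ≤ m.bte
  o_lfk0 : 0 ≤ m.lfk
  o_iX0 : 0 < m.iX
  o_iQX0 : 0 < m.iQX
  o_Qb0 : 0 < Qb
  o_eps0 : 0 ≤ m.eps

theorem mid_core {s : ℂ} {v : B1} (G : Geo κ s v) {v2 : B2 v}
    {bw A Qb Q1 lsi phu Ei Eh : ℝ} (m : Mb bw v2 A Qb Q1 lsi phu Ei Eh) (hA : 0 < A)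
    {ls : ℝ} (hls : ‖log (fT v.e κ s) - log (fT v.e κ (shf κ s))‖ ≤ ls) (hlsm : ls ≤ m.ls)
    (hlsi0 : 0 ≤ lsi) (hnq : ‖qq v.e κ s‖ ≤ Qb) (hQb0 : 0 < Qb) (hn1Q : ‖1 + qq v.e κ s‖ ≤ Q1)
    (aXM : 0 < 1 - m.XM) (aQX : 0 < 1 - m.QX) (ae2 : 0 < v.aQ - 2 * (v.tu2 * m.eps))
    (al1 : 0 < (5 / 8) * 1 - m.l1) (aa0 : 0 < (11 / 32) * 1 - m.a0)
    {lf Ex : ℝ} (hlf0 : ‖log (fT v.e κ s) - log (fT v.e κ 1)‖ ≤ lf)
    (hEx : ‖exp (2 * ((log (fT v.e κ 1) - log (fT v.e κ s)) / v.e))‖ ≤ Ex)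
    (hEi : Ex ≤ Ei) (hEh : (1 + Ex) / 2 ≤ Eh) (hphu : 0 ≤ phu)
    (hlf : v2.rh * lf ≤ v.tu * v.om1 * v2.hm * phu)
    {X : ℝ} (hX0 : 0 < X) (hXM : X ≤ m.XM) :
    ∃ n1 L1 M2 E0 η : ℝ, Out κ s m X lf Ex ls n1 L1 M2 E0 η := by
  have he := G.e0
  have hκ := G.κ0
  have hs := G.s0
  have hei : 0 < v.ei := by rw [v.e_ei]; positivity
  have heie : v.e * v.ei = 1 := by rw [v.e_ei, mul_inv_cancel₀ he.ne']
  have htu := G.tu0
  have hop := G.op0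
  have hom1 := G.om1_0
  have haQ := G.aQ0
  have hX1 : X < 1 := by linarith
  have hXM0 : 0 < m.XM := by linarith
  have hQXM : Qb * X ≤ m.QX := by
    rw [m.e_QX]; exact mul_le_mul_of_nonneg_left hXM hQb0.le
  have hiX0 : 0 < m.iX := by rw [m.e_iX]; positivity
  have hiQX0 : 0 < m.iQX := by rw [m.e_iQX]; positivity
  have hXd : X / (1 - X) ≤ X * m.iX := by
    rw [m.e_iX, ← div_eq_mul_inv]
    exact div_le_div_of_nonneg_left hX0.le aXM (by linarith)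
  have hQXd : Qb * X / (1 - Qb * X) ≤ Qb * m.iQX * X := by
    rw [m.e_iQX]
    have h1 : Qb * X / (1 - Qb * X) ≤ Qb * X / (1 - m.QX) :=
      div_le_div_of_nonneg_left (by positivity) aQX (by linarith)
    rw [div_eq_mul_inv (Qb * X) (1 - m.QX)] at h1
    linarith
  have hXd0 : 0 ≤ X / (1 - X) := div_nonneg hX0.le (by linarith)
  have hQXd0 : 0 ≤ Qb * X / (1 - Qb * X) := div_nonneg (by positivity) (by linarith)
  -- n1
  have hn10 : 0 ≤ ‖1 + qq v.e κ s‖ := norm_nonneg _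
  have hQ10 : 0 ≤ Q1 := hn10.trans hn1Q
  obtain ⟨n1, hn1⟩ : ∃ n, n = ‖1 + qq v.e κ s‖ := ⟨_, rfl⟩
  rw [← hn1] at hn1Q hn10
  have hls0 : 0 ≤ ls := (norm_nonneg _).trans hls
  obtain ⟨L1, hL1⟩ : ∃ L, L = (ls + n1 * (X / (1 - X))) * v.ei := ⟨_, rfl⟩
  obtain ⟨M2, hM2⟩ : ∃ L, L = (Qb * X / (1 - Qb * X)) * v.ei := ⟨_, rfl⟩
  have hL10 : 0 ≤ L1 := by rw [hL1]; positivity
  have hM20 : 0 ≤ M2 := by rw [hM2]; positivity
  have hXXM : X * m.iX ≤ m.XM * m.iX := mul_le_mul_of_nonneg_right hXM hiX0.le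
  have bL1 : L1 ≤ (m.ls + Q1 * (X * m.iX)) * v.ei := by
    rw [hL1]
    apply mul_le_mul_of_nonneg_right _ hei.le
    have := mul_le_mul hn1Q hXd hXd0 hQ10
    linarith
  have bL1' : L1 ≤ m.l1 := by
    refine bL1.trans ?_
    rw [m.e_l1]
    apply mul_le_mul_of_nonneg_right _ hei.le
    have := mul_le_mul_of_nonneg_left hXXM hQ10
    linarith
  have bM2 : M2 ≤ Qb * m.iQX * X * v.ei := by
    rw [hM2]; exact mul_le_mul_of_nonneg_right hQXd hei.le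
  have bLM : L1 + M2 ≤ m.a0 := by
    rw [m.e_a0]
    have h1 := mul_le_mul_of_nonneg_left hXXM hQ10
    have h2 : Qb * m.iQX * X ≤ Qb * m.iQX * m.XM := mul_le_mul_of_nonneg_left hXM (by positivity)
    have h3 := mul_le_mul_of_nonneg_right h1 hei.le
    have h4 := mul_le_mul_of_nonneg_right h2 hei.le
    nlinarith
  have hEx0 : 0 ≤ Ex := (norm_nonneg _).trans hEx
  have hlf00 : 0 ≤ lf := (norm_nonneg _).trans hlf0
  have hEh0 : 0 ≤ Eh := by linarith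
  have hEi0 : 0 ≤ Ei := by linarith
  have hE0 := E0_le G m hL10 hM20 bL1' bLM (by linarith) (by linarith) hlf00 hEx0 hEi hEh hlf
  -- signs
  have hnih := G.nih0 v2
  have hrh := G.rh0 v2
  have hhm : 0 < v2.hm := by rw [v2.e_hm]; have := G.hlt; linarith
  have hbte0 : 0 ≤ m.bte := by
    rw [m.e_bte]
    have := G.bsum0 v2
    positivity
  have hl10 : 0 ≤ m.l1 := hL10.trans bL1'
  have ha00 : 0 ≤ m.a0 := by linarith
  have hk00 : 0 ≤ m.k0 := by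
    have h1 := G.k0_le m.e_N1 m.e_s m.e_k0
    have h2 := (norm_nonneg _).trans h1
    by_contra hc
    push Not at hc
    have := mul_neg_of_pos_of_neg htu hc
    linarith
  have hNa0 : 0 ≤ m.Na := by rw [m.e_Na]; positivity
  have hNb0 : 0 ≤ m.Nb := by rw [m.e_Nb]; positivity
  have hrn0 : 0 ≤ m.rn := by rw [m.e_rn]; positivity
  have hka0 : 0 ≤ m.ka := by rw [m.e_ka]; positivity
  have hkb0 : 0 ≤ m.kb := by rw [m.e_kb]; positivity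
  have hlfk0 : 0 ≤ m.lfk := by rw [m.e_lfk]; positivity
  have hsrc0 : 0 ≤ m.src := by rw [m.e_src]; positivity
  have hfx0 : 0 ≤ m.fx := by rw [m.e_fx]; positivity
  have hXe0 : 0 ≤ m.Xe := by rw [m.e_Xe]; have := G.lm0 v2; positivity
  have heps0 : 0 ≤ m.eps := by rw [m.e_eps]; positivity
  -- E0
  have hE0a : E0v m L1 M2 ≤ v.tu2 * v.om1 * m.src + v.tu * m.fx * X := by
    have e1 : v.tu2 * v.om1 * m.src + v.tu * m.fx * X =
        v.tu2 * v.om1 ^ 2 * m.bte + v.tu * (m.ka * ((m.ls + Q1 * (X * m.iX)) * v.ei) +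
          m.kb * (Qb * m.iQX * X * v.ei)) + v.tu2 * v.om1 * (m.lfk * phu * v.ei) := by
      rw [m.e_src, m.e_fx, m.e_ls, v.e_tu2]
      ring
    rw [e1]
    unfold E0v
    have h1 := mul_le_mul_of_nonneg_left bL1 hka0
    have h2 := mul_le_mul_of_nonneg_left bM2 hkb0
    have h3 := mul_le_mul_of_nonneg_left (add_le_add h1 h2) htu.le
    linarith
  have hE0b : E0v m L1 M2 ≤ v.tu2 * m.eps := by
    refine hE0a.trans ?_
    rw [m.e_eps]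
    have h1 := mul_le_mul_of_nonneg_left hXM (by positivity : 0 ≤ v.tu * m.fx)
    rw [m.e_XM] at h1
    rw [v.e_tu2] at *
    linarith
  have hE00 : 0 ≤ E0v m L1 M2 := by
    unfold E0v
    have : 0 ≤ v.tu2 := by rw [v.e_tu2]; positivity
    positivity
  obtain ⟨E0, hE0e⟩ : ∃ E, E = E0v m L1 M2 := ⟨_, rfl⟩
  rw [← hE0e] at hE0 hE0a hE0b hE00
  have hx : 0 < 1 - v.tu2 * m.eps * v.aQ⁻¹ := by
    have : v.tu2 * m.eps * v.aQ⁻¹ < 1 := by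
      rw [← div_eq_mul_inv, div_lt_one haQ]
      have := heps0
      have : 0 ≤ v.tu2 * m.eps := by rw [v.e_tu2]; positivity
      linarith
    linarith
  have hNN1 : 1 ≤ m.NN := by
    rw [m.e_NN]
    apply (one_le_inv₀ hx).2
    have : 0 ≤ v.tu2 * m.eps * v.aQ⁻¹ := by rw [v.e_tu2]; positivity
    linarith
  have hη : E0 / (1 - E0 / ‖Qk κ s‖) ≤ E0 * m.NN := by
    rw [G.Qn, m.e_NN, ← div_eq_mul_inv]
    apply div_le_div_of_nonneg_left hE00 hx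
    rw [div_eq_mul_inv E0]
    have := mul_le_mul_of_nonneg_right hE0b (inv_nonneg.2 haQ.le)
    linarith
  refine ⟨n1, L1, M2, E0, E0 * m.NN, ?_⟩
  exact
    { o_X1 := hX1
      o_ls := hls
      o_lf := hlf0
      o_nq := hnq
      o_nX := by linarith
      o_n1 := hn1
      o_L1e := hL1
      o_M2e := hM2
      o_Ex := hEx
      o_E0 := hE0
      o_E0e := hE0e
      o_E1 := by rw [G.Qn]; linarith
      o_η := hη
      o_ηd := rfl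
      o_η0 := by positivity
      o_ηe := by
        rw [m.e_eN]
        have := mul_le_mul_of_nonneg_right hE0b (by linarith : 0 ≤ m.NN)
        linarith
      o_ηV := by
        have := mul_le_mul_of_nonneg_right hE0a (by linarith : 0 ≤ m.NN)
        linarith
      o_ls0 := hls0
      o_lsm := hlsm
      o_n1Q := hn1Q
      o_Xd := hXd
      o_QXd := hQXd
      o_Xd0 := hXd0
      o_QXd0 := hQXd0
      o_src0 := hsrc0
      o_fx0 := hfx0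
      o_NN1 := hNN1
      o_ka0 := hka0
      o_kb0 := hkb0
      o_bte0 := hbte0
      o_lfk0 := hlfk0
      o_iX0 := hiX0
      o_iQX0 := hiQX0
      o_Qb0 := hQb0
      o_eps0 := heps0 }

/-- the facts on `f` of the modes F, C, H -/
structure Fct (κ : ℝ) (s : ℂ) {v : B1} {cc : ℝ} {b : GC v.q cc v.h1} {g ga : ℝ} (ms : Ms v b g ga)
    (ls : ℝ) : Prop where
  ls : ls = v.h1 * gam v.e κ s * ms.lsf
  hg : v.h1 * gam v.e κ s ≤ ms.hg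
  hg0 : 0 ≤ ms.hg
  lsf0 : 0 < ms.lsf
  lsb : -Real.log (1 - v.h1 * gam v.e κ s) ≤ ms.hg * ms.lsf
  ga0 : 0 ≤ ga
  lsi0 : 0 ≤ ms.lsi
  lse : v.tu * v.om1 * ms.lsi = ms.hg * ms.lsf

/-- the bounds of `qq` -/
theorem nqb {s : ℂ} {v : B1} (G : Geo κ s v) {cc : ℝ} {b : GC v.q cc v.h1} {g ga : ℝ}
    (ms : Ms v b g ga) (hγ : gam v.e κ s ≤ ga) :
    v.h1 * gam v.e κ s ≤ ms.hg ∧ ‖qq v.e κ s‖ ≤ ms.Qb ∧ 0 < ms.Qb ∧ ‖1 + qq v.e κ s‖ ≤ ms.Q1 := by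
  have he := G.e0
  have hκ := G.κ0
  have hs := G.s0
  have hh1 := G.h1_0
  have hq0 := G.q0
  have hγ0 := gam_nonneg he hκ hs
  have hga0 : 0 ≤ ga := hγ0.trans hγ
  have hhg : v.h1 * gam v.e κ s ≤ ms.hg := by
    rw [ms.e_hg]; exact mul_le_mul_of_nonneg_left hγ hh1
  have hhg0 : 0 ≤ ms.hg := by rw [ms.e_hg]; positivity
  have hnq : ‖qq v.e κ s‖ ≤ ms.Qb := by
    have h := qq_le he hκ hs
    rw [G.q_eq, G.h1_eq] at h
    refine h.trans ?_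
    rw [ms.e_Qb]
    exact mul_le_mul_of_nonneg_left (by linarith) hq0.le
  refine ⟨hhg, hnq, by rw [ms.e_Qb]; positivity, ?_⟩
  rw [ms.e_Q1, add_comm ms.Qb]; exact n1_le hnq

theorem mid_out {s : ℂ} {v : B1} (G : Geo κ s v) {v2 : B2 v} {cc : ℝ} {b : GC v.q cc v.h1}
    {bw A Q1 g ga phu Ei Eh : ℝ} (ms : Ms v b g ga) (m : Mb bw v2 A ms.Qb Q1 ms.lsi phu Ei Eh)
    (hA : 0 < A)
    (hγ : gam v.e κ s ≤ ga) (hn1Q : ‖1 + qq v.e κ s‖ ≤ Q1)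
    (aXM : 0 < 1 - m.XM) (aQX : 0 < 1 - m.QX) (ae2 : 0 < v.aQ - 2 * (v.tu2 * m.eps))
    (ahg : 0 < 1 - ms.hg) (al1 : 0 < (5 / 8) * 1 - m.l1) (aa0 : 0 < (11 / 32) * 1 - m.a0)
    {lf Ex : ℝ} (hlf0 : ‖log (fT v.e κ s) - log (fT v.e κ 1)‖ ≤ lf)
    (hEx : ‖exp (2 * ((log (fT v.e κ 1) - log (fT v.e κ s)) / v.e))‖ ≤ Ex)
    (hEi : Ex ≤ Ei) (hEh : (1 + Ex) / 2 ≤ Eh) (hphu : 0 ≤ phu)
    (hlf : v2.rh * lf ≤ v.tu * v.om1 * v2.hm * phu)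
    {X : ℝ} (hX0 : 0 < X) (hXM : X ≤ m.XM) :
    ∃ ls n1 L1 M2 E0 η : ℝ, Out κ s m X lf Ex ls n1 L1 M2 E0 η ∧ Fct κ s ms ls := by
  have he := G.e0
  have hκ := G.κ0
  have hs := G.s0
  have htu := G.tu0
  have hu := G.u0
  have hom1 := G.om1_0
  have hom := G.om0
  have hh1 := G.h1_0
  have hγ0 := gam_nonneg he hκ hs
  have hga0 : 0 ≤ ga := hγ0.trans hγ
  obtain ⟨hhg, hnq, hQb0, -⟩ := nqb G ms hγ
  have hhg0 : 0 ≤ ms.hg := by rw [ms.e_hg]; positivity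
  have hhγ0 : 0 ≤ v.h1 * gam v.e κ s := by positivity
  have hlsf0 : 0 < ms.lsf := by
    rw [ms.e_lsf]
    have : 0 < 1 - (1 / 2) * ms.hg := by linarith
    positivity
  have hlsb : -Real.log (1 - v.h1 * gam v.e κ s) ≤ v.h1 * gam v.e κ s * ms.lsf := by
    rw [ms.e_lsf]
    exact log_kz' hhγ0 hhg (by linarith)
  have hls : ‖log (fT v.e κ s) - log (fT v.e κ (shf κ s))‖ ≤ v.h1 * gam v.e κ s * ms.lsf := by
    refine (ls_le he hκ hs (c := v.h1 * gam v.e κ s) ?_ (by linarith)).trans hlsb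
    rw [G.h1_eq]
  have hlse : v.tu * v.om1 * ms.lsi = ms.hg * ms.lsf := by
    have h2 : v.u⁻¹ * v.u = 1 := inv_mul_cancel₀ hu.ne'
    rw [ms.e_lsi, ms.e_hg, v.e_h1, v.e_tu]
    linear_combination (v.t * v.om1 * v.h1t * ga * ms.lsf) * h2
  have hlsm : v.h1 * gam v.e κ s * ms.lsf ≤ m.ls := by
    rw [m.e_ls, hlse]; exact mul_le_mul_of_nonneg_right hhg hlsf0.le
  have hh1t : 0 ≤ v.h1t := by
    rw [v.e_h1t, v.e_ioK]
    have := G.cgt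
    have := G.K0
    have := G.op0
    positivity
  have hlsi0 : 0 ≤ ms.lsi := by rw [ms.e_lsi]; positivity
  obtain ⟨n1, L1, M2, E0, η, o⟩ := mid_core G m hA hls hlsm hlsi0 hnq hQb0 hn1Q aXM aQX ae2 al1
    aa0 hlf0 hEx hEi hEh hphu hlf hX0 hXM
  refine ⟨_, n1, L1, M2, E0, η, o, ?_⟩
  exact
    { ls := rfl
      hg := hhg
      hg0 := hhg0
      lsf0 := hlsf0
      lsb := by
        refine hlsb.trans ?_
        exact mul_le_mul_of_nonneg_right hhg hlsf0.le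
      ga0 := hga0
      lsi0 := hlsi0
      lse := hlse }

/-- the refined bound of `|f| η` -/
theorem etaF {s : ℂ} {v : B1} (G : Geo κ s v) {v2 : B2 v} {cc : ℝ} {b : GC v.q cc v.h1}
    {bw A g ga phu Ei Eh : ℝ} {ms : Ms v b g ga} {m : Mb bw v2 A ms.Qb ms.Q1 ms.lsi phu Ei Eh}
    (hphu : 0 ≤ phu) {X lf Ex ls n1 L1 M2 E0 η : ℝ} (o : Out κ s m X lf Ex ls n1 L1 M2 E0 η)
    (F : Fct κ s ms ls) (hgR : gR v.e κ s ≤ g) (hfa0 : ‖fT v.e κ s‖ ≤ ms.fa) :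
    ‖fT v.e κ s‖ * (v.e * η) ≤ m.NN * (v.tu2 * v.om1 ^ 2 * m.bte * (v.e * ms.fa) +
    v.tu * m.ka * (v.h1 * g * ms.lsf) + v.tu2 * v.om1 * (m.lfk * phu) * ms.fa +
    v.tu * (m.ka * m.iX + m.kb * ms.fa * ms.Qb * m.iQX) * X) := by
  have he := G.e0
  have hκ := G.κ0
  have hs := G.s0
  have heie : v.e * v.ei = 1 := by rw [v.e_ei, mul_inv_cancel₀ he.ne']
  have htu := G.tu0
  have hom1 := G.om1_0
  have hka0 := o.o_ka0
  have hkb0 := o.o_kb0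
  have hbte0 := o.o_bte0
  have hlfk0 := o.o_lfk0
  have hlsf0 := F.lsf0
  obtain ⟨f, hf⟩ : ∃ f, f = ‖fT v.e κ s‖ := ⟨_, rfl⟩
  have hf0 : 0 < f := by rw [hf]; exact fT_norm_pos he hκ hs
  have hffa : f ≤ ms.fa := by rw [hf]; exact hfa0
  have hfn : f * n1 = 1 := by rw [hf, o.o_n1, mul_comm]; exact n1_eq he hκ hs
  have hfγ : f * gam v.e κ s = gR v.e κ s := by
    have : ‖fT v.e κ s‖ ≠ 0 := by rw [← hf]; exact hf0.ne'
    rw [hf]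
    unfold gam
    field_simp
  rw [← hf, o.o_ηd]
  have e1 : f * (v.e * (E0 * m.NN)) = m.NN * (f * (v.e * E0)) := by ring
  rw [e1]
  apply mul_le_mul_of_nonneg_left _ (by linarith [o.o_NN1])
  have e2 : f * (v.e * E0) = v.tu2 * v.om1 ^ 2 * m.bte * (v.e * f) +
      v.tu * m.ka * (f * ls) + v.tu * m.ka * ((f * n1) * (X / (1 - X))) +
      v.tu * m.kb * (f * (ms.Qb * X / (1 - ms.Qb * X))) + v.tu2 * v.om1 * (m.lfk * phu) * f := by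
    rw [o.o_E0e, o.o_L1e, o.o_M2e]
    unfold E0v
    linear_combination (f * (v.tu * (m.ka * (ls + n1 * (X / (1 - X))) +
      m.kb * (ms.Qb * X / (1 - ms.Qb * X))) + v.tu2 * v.om1 * (m.lfk * phu))) * heie
  have hfls : f * ls ≤ v.h1 * g * ms.lsf := by
    have : f * ls = v.h1 * (f * gam v.e κ s) * ms.lsf := by rw [F.ls]; ring
    rw [this, hfγ]
    have := G.h1_0
    gcongr
  have htu2 : 0 ≤ v.tu2 := by rw [v.e_tu2]; positivity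
  rw [e2, hfn, one_mul]
  have t1 : v.tu2 * v.om1 ^ 2 * m.bte * (v.e * f) ≤ v.tu2 * v.om1 ^ 2 * m.bte * (v.e * ms.fa) := by
    gcongr
  have t2 : v.tu * m.ka * (f * ls) ≤ v.tu * m.ka * (v.h1 * g * ms.lsf) :=
    mul_le_mul_of_nonneg_left hfls (by positivity)
  have t3 : v.tu * m.ka * (X / (1 - X)) ≤ v.tu * m.ka * (X * m.iX) :=
    mul_le_mul_of_nonneg_left o.o_Xd (by positivity)
  have t4 : v.tu * m.kb * (f * (ms.Qb * X / (1 - ms.Qb * X))) ≤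
      v.tu * m.kb * (ms.fa * (ms.Qb * m.iQX * X)) := by
    apply mul_le_mul_of_nonneg_left _ (by positivity)
    exact mul_le_mul hffa o.o_QXd o.o_QXd0 (hf0.le.trans hffa)
  have t5 : v.tu2 * v.om1 * (m.lfk * phu) * f ≤ v.tu2 * v.om1 * (m.lfk * phu) * ms.fa := by
    apply mul_le_mul_of_nonneg_left hffa
    positivity
  linarith

end Pool.Agent.helper71.FG
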