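import Pool.Agent.helper71.FG.Disp

/-!
# Far field programs for large `e`: the radius and the invariance
-/

namespace Pool.Agent.helper71.FG

open Complex ComplexConjugate Pool.Agent.helper31.EQ.Y Pool.Agent.helper31.EQ.R
open Pool.Agent.helper12.EQL Pool.Agent.helper12.RP Pool.Agent.helper12.FF Pool.Agent.helper63.FF
open Pool.Agent.helper71.FF (B1 B2 B3 Geo)

variable {κ : ℝ}

/-- the ratio of the radii -/
theorem Lam_ge {s : ℂ} {v : B1} (g : Geo κ s v) {R w bw : ℝ} (hbw : 0 < bw) (hR1 : R < 1) (hr : rt s < R)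
    (hw : w = (1 + (2 * bw) * (Real.exp κ - 1))⁻¹) :
    0 < w ∧ w < 1 ∧ w * (1 - R) / (1 - w * R) ≤ (1 + (v.h + 1) * (v.K + v.t) * bw)⁻¹ := by
  have hm := g.m_eq
  have hm1 : v.m - 1 = v.K * (v.h + 1) := by
    have := g.cKh
    rw [v.e_m]; linarith
  have hK := g.K0
  have hh := g.h0
  have ht := g.t0
  have hop := g.op0
  have hom := g.om0
  have hD : Real.exp κ - 1 = v.K * (v.h + 1) := by rw [← hm, hm1]
  rw [hD] at hw
  obtain ⟨a, ha⟩ : ∃ a, a = (2 * bw) * (v.K * (v.h + 1)) := ⟨_, rfl⟩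
  have ha0 : 0 < a := by rw [ha]; positivity
  rw [← ha] at hw
  have hw0 : 0 < w := by rw [hw]; positivity
  have hwa : w * (1 + a) = 1 := by rw [hw, inv_mul_cancel₀ (by positivity)]
  have hw1 : w < 1 := by nlinarith
  refine ⟨hw0, hw1, ?_⟩
  have hR0 : 0 ≤ R := (rt_nonneg s).trans hr.le
  have h1 : 0 < 1 - w * R := by nlinarith
  have hKt : 0 < 1 + (v.h + 1) * (v.K + v.t) * bw := by positivity
  rw [div_le_iff₀ h1]
  have h2 : w * (1 - R) * (1 + (v.h + 1) * (v.K + v.t) * bw) ≤ 1 - w * R := by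
    -- 1/w - R = 1 - R + a ; need (1-R)(1 + (h+1)(K+t) bw) ≤ 1 - R + a
    have h3 : (1 - R) * ((v.h + 1) * (v.K + v.t) * bw) ≤ a := by
      -- (1 - R)(K + t) ≤ 2 K
      have h4 : (1 - R) * (v.K + v.t) ≤ 2 * v.K := by
        have h5 := g.rt_eq
        have h6 : v.om1 ≤ R * v.op1 := by
          rw [← h5]; exact mul_le_mul_of_nonneg_right hr.le hop.le
        have h7 : (1 - R) * v.op1 ≤ 2 * v.om := by
          have := v.e_om1
          have := v.e_op1
          nlinarith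
        have h8 : v.K + v.t = v.op1 * v.t := by
          rw [g.Kom, v.e_op1]; ring
        rw [h8, g.Kom]
        nlinarith [mul_le_mul_of_nonneg_right h7 ht.le]
      rw [ha]
      nlinarith [mul_le_mul_of_nonneg_right h4 (by positivity : 0 ≤ (v.h + 1) * (bw : ℝ))]
    have h9 : w * ((1 - R) * (1 + (v.h + 1) * (v.K + v.t) * bw)) ≤ w * (1 - R + a) :=
      mul_le_mul_of_nonneg_left (by linarith) hw0.le
    have h10 : w * (1 - R + a) = 1 - w * R := by linear_combination hwa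
    linarith
  calc w * (1 - R) = (1 + (v.h + 1) * (v.K + v.t) * bw)⁻¹ *
        (w * (1 - R) * (1 + (v.h + 1) * (v.K + v.t) * bw)) := by
        field_simp
    _ ≤ _ := mul_le_mul_of_nonneg_left h2 (by positivity)

/-- **Invariance** -/
theorem inv_of {s : ℂ} {v : B1} (G : Geo κ s v) {v2 : B2 v} {bw A Qb Q1 lsi phu Ei Eh : ℝ}
    (m : Mb bw v2 A Qb Q1 lsi phu Ei Eh) {R X w η : ℝ} (hbw : 0 < bw) (hA : 0 < A)
    (hR0 : 0 < R) (hR : R ≤ Real.exp (-(2 * κ * (49 / 10)))) (hr : rt s < R)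
    (hX : X = 2 * A * Real.sinh κ ^ 2 * R / (1 - R) * ‖s + 1‖)
    (hw : w = (1 + (2 * bw) * (Real.exp κ - 1))⁻¹) (hη0 : 0 ≤ η) (hsrc : 0 ≤ m.src) (hfx : 0 ≤ m.fx)
    (hη : η ≤ m.NN * (v.tu2 * v.om1 * m.src + v.tu * m.fx * X)) (hηe : η ≤ v.tu2 * m.eN)
    (hNN : 0 ≤ m.NN) (hS : 0 < v.op1 - v.tu * m.eN) (hV : 0 < m.V) :
    rt s + 2 * Real.sinh κ * η / (Real.sinh κ * ‖s + 1‖ * (Real.sinh κ * ‖s + 1‖ - η)) <
      Real.exp (2 * κ) * (w * R) := by
  have hK := G.K0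
  have hh := G.h0
  have ht := G.t0
  have hop := G.op0
  have hom := G.om0
  have htu := G.tu0
  have hm := G.m_eq
  have hm1 : v.m - 1 = v.K * (v.h + 1) := by
    have := G.cKh
    rw [v.e_m]; linarith
  obtain ⟨hR1, hlm⟩ := G.lm_ge v2 hR0 hR
  obtain ⟨hX0, -, hXe⟩ := G.X_le v2 hA hR0 hR hX
  rw [G.Sp, ← G.K]
  obtain ⟨den, hden⟩ : ∃ d, d = v.op1 - v.tu * m.eN := ⟨_, rfl⟩
  rw [← hden] at hS
  -- V
  obtain ⟨P, hP⟩ : ∃ P, P = (v.h + 1) * (m.m1 + 2 - 2 * m.beta) * (m.m1 * (2 * m.beta) + 1)⁻¹ := ⟨_, rfl⟩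
  obtain ⟨T, hT⟩ : ∃ T, T = m.src + 2 * (A * m.fx * (v.K + (1 / 2) * v2.lm)) := ⟨_, rfl⟩
  have hV' : 2 * T * m.NN * den⁻¹ < P := by
    have := m.e_V
    rw [← hP, ← hT, ← hden] at this
    rw [this] at hV
    linarith
  -- step 1: 2 K η /(S (S-η)) ≤ K R * (2 T NN / den)
  have hSη : v.tu * den ≤ v.tu * v.op1 - η := by
    rw [hden]
    have : v.tu2 = v.tu * v.tu := v.e_tu2
    rw [this] at hηe
    linarith
  have hT0 : 0 ≤ T := by
    rw [hT]
    have := G.lm0 v2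
    positivity
  have hom1R : v.om1 ≤ R * v.op1 := by
    rw [← G.rt_eq]; exact mul_le_mul_of_nonneg_right hr.le hop.le
  have hXb : X ≤ 2 * A * (v.K + (1 / 2) * v2.lm) * R * (v.tu * v.op1) := by
    refine hXe.trans ?_
    have h1 : v.K * (R / (1 - R)) ≤ (v.K + (1 / 2) * v2.lm) * R := by
      have e1 : v.K * (R / (1 - R)) = (v.K + v.K * (R / (1 - R))) * R := by
        have : (1 - R) ≠ 0 := by linarith
        field_simp
        ring
      rw [e1]
      apply mul_le_mul_of_nonneg_right _ hR0.le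
      linarith
    have := mul_le_mul_of_nonneg_left h1 (by positivity : 0 ≤ 2 * A * (v.tu * v.op1))
    linarith
  have hη2 : η ≤ m.NN * (v.tu2 * v.op1 * R * T) := by
    refine hη.trans (mul_le_mul_of_nonneg_left ?_ hNN)
    have h1 : v.tu2 * v.om1 * m.src ≤ v.tu2 * v.op1 * R * m.src := by
      have h2 : 0 ≤ v.tu2 * m.src := by rw [v.e_tu2]; positivity
      nlinarith [mul_le_mul_of_nonneg_left hom1R h2]
    have h3 := mul_le_mul_of_nonneg_left hXb (by positivity : 0 ≤ v.tu * m.fx)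
    have e2 : v.tu2 * v.op1 * R * T = v.tu2 * v.op1 * R * m.src +
        v.tu * m.fx * (2 * A * (v.K + (1 / 2) * v2.lm) * R * (v.tu * v.op1)) := by
      rw [hT, v.e_tu2]; ring
    rw [e2]
    linarith
  have step : 2 * v.K * η / (v.tu * v.op1 * (v.tu * v.op1 - η)) ≤
      v.K * R * (2 * T * m.NN * den⁻¹) := by
    have hd1 : 0 < v.tu * v.op1 * (v.tu * den) := by positivity
    have h1 : 2 * v.K * η / (v.tu * v.op1 * (v.tu * v.op1 - η)) ≤
        2 * v.K * η / (v.tu * v.op1 * (v.tu * den)) := by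
      apply div_le_div_of_nonneg_left (by positivity) hd1
      exact mul_le_mul_of_nonneg_left hSη (by positivity)
    refine h1.trans ?_
    rw [div_le_iff₀ hd1]
    have h2 := mul_le_mul_of_nonneg_left hη2 (by positivity : 0 ≤ 2 * v.K)
    refine h2.trans (le_of_eq ?_)
    rw [v.e_tu2]
    field_simp
  -- step 2
  have hwd : Real.exp (2 * κ) * (w * R) = v.m ^ 2 * (w * R) := by
    rw [hm, ← Real.exp_nat_mul]; congr 1
  rw [hwd]
  have hD : Real.exp κ - 1 = v.K * (v.h + 1) := by rw [← hm, hm1]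
  have hb : m.beta = bw := m.e_beta
  have hm1' : m.m1 = v.K * (v.h + 1) := by rw [m.e_m1, hm1]
  have hw' : w * (m.m1 * (2 * m.beta) + 1) = 1 := by
    rw [hw, hD, hm1', hb]
    have : (1 + 2 * bw * (v.K * (v.h + 1))) ≠ 0 := by positivity
    rw [show v.K * (v.h + 1) * (2 * bw) + 1 = 1 + 2 * bw * (v.K * (v.h + 1)) by ring]
    exact inv_mul_cancel₀ this
  have hPd : 0 < m.m1 * (2 * m.beta) + 1 := by rw [hb, hm1']; positivity
  have hPw : v.K * P = v.m ^ 2 * w - 1 := by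
    have hwinv : w = (m.m1 * (2 * m.beta) + 1)⁻¹ := eq_inv_of_mul_eq_one_left hw'
    have e3 : v.m = m.m1 + 1 := by rw [m.e_m1]; ring
    rw [hP, ← hwinv, e3]
    have e4 : v.K * ((v.h + 1) * (m.m1 + 2 - 2 * m.beta) * w) =
        (v.K * (v.h + 1)) * (m.m1 + 2 - 2 * m.beta) * w := by ring
    rw [e4, ← hm1']
    linear_combination (-1 : ℝ) * hw'
  have h3 : v.K * R * (2 * T * m.NN * den⁻¹) < v.K * R * P :=
    mul_lt_mul_of_pos_left hV' (by positivity)
  have h4 : v.K * R * P = (v.m ^ 2 * w - 1) * R := by rw [← hPw]; ring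
  rw [h4] at h3
  linarith

end Pool.Agent.helper71.FG
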